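import Pool.Agent.Work.MP_1ce445_plt.Interface

/-!
Block UPP (MP_1ce445_co, second order term in the plateaus, upper half).
-/

namespace Pool.Agent.Work.MP_1ce445_plt

open Finset Pool.Agent.Work.MP_1ce445_co_56 Pool.Agent.Work.MP_1ce445_lin
  Pool.Agent.Work.MP_1ce445_fx Pool.Agent.Work.MP_1ce445_stm

/-- the bound for one factorization -/
lemma UPP_core (hPRR : Pool.Agent.Work.MP_1ce445_stm.Stmt_PRR) (M r n k : ℕ) (hM : 2 ≤ M)
    (hn : 0 < n)
    (G : Fin k → SimpleGraph (Fin n)) (e : Fin M → Fin k) (hG : IsFactorization G)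
    (he : Function.Injective e)
    (hA : gs G e ≤ ((M : ℝ) - 1) * n + M * r + 1 + Ls G e / 100) :
    (∏ l, (gammaT (G l) : ℝ)) ≤ (n : ℝ) ^ (k - M) * ((n : ℝ) - n / M + r + 1) ^ M := by
  have hM2 : (2 : ℝ) ≤ M := by exact_mod_cast hM
  have hM0 : (0 : ℝ) < M := by linarith
  have hn0 : (0 : ℝ) < n := by exact_mod_cast hn
  have hgam : ∀ l, gammaT (G l) ≤ n := by
    intro l
    simpa using gammaT_le_univ (hG.minDeg l)
  obtain ⟨A, hAd⟩ : ∃ A : ℝ, A = (n : ℝ) - n / M + r + 1 := ⟨_, rfl⟩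
  have hMA : (M : ℝ) * A = ((M : ℝ) - 1) * n + M * r + M := by
    rw [hAd]
    field_simp
  have hr0 : (0 : ℝ) ≤ r := Nat.cast_nonneg r
  have hnM : (n : ℝ) / M ≤ n / 2 := div_le_div_of_nonneg_left hn0.le (by norm_num) hM2
  have hA2 : (n : ℝ) / 2 ≤ A := by
    rw [hAd]
    linarith
  have hA0 : 0 < A := by linarith
  have hLs : ∑ l ∈ ot e, ((n : ℝ) - gammaT (G l)) = Ls G e := by
    unfold Ls
    rw [Nat.cast_sum]
    exact sum_congr rfl fun l _ => (Nat.cast_sub (hgam l)).symm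
  have hL0 : (0 : ℝ) ≤ Ls G e := Nat.cast_nonneg _
  have h1 := hPRR k n M (fun l => gammaT (G l)) e A ((Ls G e : ℝ) / 100) hn (by omega) he hA0
    (by positivity) hgam (by
      have h7 : gs G e = ∑ i, (gammaT (G (e i)) : ℝ) := rfl
      rw [← h7, hMA]
      linarith)
  rw [hLs] at h1
  have h2 : (Ls G e : ℝ) / 100 / A - (Ls G e : ℝ) / n ≤ 0 := by
    have h5 : (Ls G e : ℝ) / 100 / A ≤ (Ls G e : ℝ) / 100 / (n / 2) :=
      div_le_div_of_nonneg_left (by positivity) (by linarith) hA2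
    have h6 : (Ls G e : ℝ) / 100 / ((n : ℝ) / 2) = (Ls G e : ℝ) / n / 50 := by
      field_simp
      ring
    have h7 : 0 ≤ (Ls G e : ℝ) / n := by positivity
    linarith
  have h3 : Real.exp ((Ls G e : ℝ) / 100 / A - (Ls G e : ℝ) / n) ≤ 1 := Real.exp_le_one_iff.2 h2
  rw [← hAd]
  refine h1.trans ?_
  have h5 : (0 : ℝ) ≤ (n : ℝ) ^ (k - M) * A ^ M := by positivity
  calc _ ≤ (n : ℝ) ^ (k - M) * A ^ M * 1 := mul_le_mul_of_nonneg_left h3 h5
    _ = _ := by ring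

lemma UPP_half {M : ℕ} (hM : 2 ≤ M) : (1 - 1 / (M : ℝ)) ^ M ≤ 1 / 2 := by
  have hM2 : (2 : ℝ) ≤ M := by exact_mod_cast hM
  have hM0 : (0 : ℝ) < M := by linarith
  have h1 : 1 - 1 / (M : ℝ) ≤ Real.exp (-(1 / (M : ℝ))) := by
    have := Real.add_one_le_exp (-(1 / (M : ℝ)))
    linarith
  have h0 : 0 ≤ 1 - 1 / (M : ℝ) := by
    rw [sub_nonneg, div_le_one hM0]
    linarith
  have h2 := pow_le_pow_left₀ h0 h1 M
  rw [← Real.exp_nat_mul] at h2
  have h3 : (M : ℝ) * -(1 / (M : ℝ)) = -1 := by field_simp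
  rw [h3] at h2
  have h4 := Real.exp_neg_one_lt_d9
  refine h2.trans (h4.le.trans ?_)
  norm_num

/-- the numbers: `k/n` is bounded away from 1 -/
lemma UPP_kap {M : ℕ} (hM : 2 ≤ M) {κ ε : ℝ} (hε : 0 < ε)
    (h : κ ^ (M + 1) + ε ≤ (1 - 1 / (M : ℝ)) ^ M) : (M : ℝ) * κ - ((M : ℝ) - 1) ≤ 2 / 3 := by
  have hM2 : (2 : ℝ) ≤ M := by exact_mod_cast hM
  have hM0 : (0 : ℝ) < M := by linarith
  have h1 := UPP_half hM
  have h2 : κ ≤ 1 - 1 / (2 * ((M : ℝ) + 1)) := by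
    by_contra hcon
    push Not at hcon
    have h3 : (0 : ℝ) ≤ 1 - 1 / (2 * ((M : ℝ) + 1)) := by
      rw [sub_nonneg, div_le_one (by positivity)]
      linarith
    have h4 := pow_le_pow_left₀ h3 hcon.le (M + 1)
    have h5 := one_add_mul_le_pow (a := -(1 / (2 * ((M : ℝ) + 1)))) (by
      have : 1 / (2 * ((M : ℝ) + 1)) ≤ 1 := by
        rw [div_le_one (by positivity)]
        linarith
      linarith) (M + 1)
    have h6 : 1 + ((M + 1 : ℕ) : ℝ) * -(1 / (2 * ((M : ℝ) + 1))) = 1 / 2 := by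
      push_cast
      field_simp
      norm_num
    rw [h6] at h5
    have h7 : 1 + -(1 / (2 * ((M : ℝ) + 1))) = 1 - 1 / (2 * ((M : ℝ) + 1)) := by ring
    rw [h7] at h5
    linarith
  have h3 := mul_le_mul_of_nonneg_left h2 hM0.le
  have h4 : (M : ℝ) * (1 - 1 / (2 * ((M : ℝ) + 1))) = M - M / (2 * ((M : ℝ) + 1)) := by ring
  have h5 : (1 : ℝ) / 3 ≤ M / (2 * ((M : ℝ) + 1)) := by
    rw [div_le_div_iff₀ (by norm_num) (by positivity)]
    linarith
  rw [h4] at h3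
  linarith

/-- the numbers: logarithms -/
lemma UPP_log {τ ε : ℝ} (hε : 0 < ε) (hε4 : ε ≤ 1 / 4) (h1 : ε ≤ τ) (h2 : τ ≤ 2 / 3) :
    1 / 3 ≤ - Real.log τ ∧ - Real.log τ ≤ - Real.log ε ∧
      (1 - ε / 4) * (- Real.log τ) ≤ - Real.log (τ + ε ^ 2 / 20) := by
  have hτ : 0 < τ := by linarith
  have h3 : 1 / 3 ≤ - Real.log τ := by
    have := Real.log_le_sub_one_of_pos hτ
    linarith
  refine ⟨h3, ?_, ?_⟩
  · have := Real.log_le_log hε h1
    linarith
  · have h4 : τ + ε ^ 2 / 20 = τ * (1 + ε ^ 2 / 20 / τ) := by field_simp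
    have h5 : 0 < 1 + ε ^ 2 / 20 / τ := by positivity
    rw [h4, Real.log_mul hτ.ne' h5.ne']
    have h6 := Real.log_le_sub_one_of_pos h5
    have h7 : ε ^ 2 / 20 / τ ≤ ε / 20 := by
      rw [div_le_iff₀ hτ]
      nlinarith
    nlinarith

lemma UPP_pow {τ' : ℝ} {n r : ℕ} (hn : 0 < n) (h0 : 0 < τ')
    (h : Real.log n ≤ r * (- Real.log τ')) : (n : ℝ) * τ' ^ r ≤ 1 := by
  have hn0 : (0 : ℝ) < n := by exact_mod_cast hn
  have h1 : τ' ^ r = Real.exp (r * Real.log τ') := by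
    rw [Real.exp_nat_mul, Real.exp_log h0]
  have h2 : Real.exp (r * Real.log τ') ≤ Real.exp (- Real.log n) :=
    Real.exp_le_exp.2 (by linarith)
  rw [Real.exp_neg, Real.exp_log hn0] at h2
  rw [h1]
  calc (n : ℝ) * Real.exp (r * Real.log τ') ≤ n * (n : ℝ)⁻¹ :=
        mul_le_mul_of_nonneg_left h2 hn0.le
    _ = 1 := mul_inv_cancel₀ hn0.ne'

lemma UPP_tau {n k M : ℕ} (hn : 0 < n) (hM : 0 < M) :
    (M : ℝ) * tt n k M / n = tau n k M ∧ (M : ℝ) * ((k : ℝ) / n) - ((M : ℝ) - 1) = tau n k M := by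
  have hn0 : (0 : ℝ) < n := by exact_mod_cast hn
  have hM0 : (0 : ℝ) < M := by exact_mod_cast hM
  unfold tt tau
  constructor
  · field_simp
    ring
  · ring

lemma UPP_small (hPRR : Pool.Agent.Work.MP_1ce445_stm.Stmt_PRR) (hSB : Stmt_SB2)
    (hAD : Stmt_ADP) (M : ℕ) (hM : 2 ≤ M) (ε : ℝ) (hε : 0 < ε) (hε4 : ε ≤ 1 / 4) :
    ∃ n0 : ℕ, 2 ≤ n0 ∧ ∀ n k : ℕ, n0 ≤ n → Even n → ε ≤ tau n k M →
    ((k : ℝ) / n) ^ (M + 1) + ε ≤ (1 - 1 / (M : ℝ)) ^ M →
    (P n k : ℝ) ≤ (n : ℝ) ^ (k - M) *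
      (n - n / M + (1 + ε) * (Real.log n / (- Real.log (tau n k M)))) ^ M := by
  have hM2 : (2 : ℝ) ≤ M := by exact_mod_cast hM
  have hM0 : (0 : ℝ) < M := by linarith
  obtain ⟨θ, s, hθ, hθ2, hs, hs2, nA, hA⟩ := hAD M hM (ε ^ 2 / 20) (by positivity) (by nlinarith)
  obtain ⟨nS, hS⟩ := hSB M hM ε θ s hε hθ hθ2 hs hs2
  refine ⟨max (max nA nS) (max (2 * M) ⌈Real.exp (4 * (- Real.log ε) / ε)⌉₊), ?_, ?_⟩
  · exact le_trans (by omega : 2 ≤ 2 * M) ((le_max_left _ _).trans (le_max_right _ _))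
  intro n k hn hev hτ hk
  have hnA : nA ≤ n := ((le_max_left _ _).trans (le_max_left _ _)).trans hn
  have hnS : nS ≤ n := ((le_max_right _ _).trans (le_max_left _ _)).trans hn
  have hnM : 2 * M ≤ n := ((le_max_left _ _).trans (le_max_right _ _)).trans hn
  have hnE : ⌈Real.exp (4 * (- Real.log ε) / ε)⌉₊ ≤ n :=
    ((le_max_right _ _).trans (le_max_right _ _)).trans hn
  have hn2 : 2 ≤ n := by omega
  have hnpos : 0 < n := by omega
  have hn0 : (0 : ℝ) < n := by exact_mod_cast hnpos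
  have hn1 : (1 : ℝ) < n := by exact_mod_cast (by omega : 1 < n)
  have hlogn : 0 < Real.log n := Real.log_pos hn1
  have hlogE : 4 * (- Real.log ε) ≤ ε * Real.log n := by
    have h1 : Real.exp (4 * (- Real.log ε) / ε) ≤ n := (Nat.le_ceil _).trans (by exact_mod_cast hnE)
    have h2 : 4 * (- Real.log ε) / ε ≤ Real.log n := by
      rw [Real.le_log_iff_exp_le hn0]
      exact h1
    rw [div_le_iff₀ hε] at h2
    linarith
  obtain ⟨t1, t2⟩ := UPP_tau (n := n) (k := k) (M := M) hnpos (by omega)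
  have hτ23 : tau n k M ≤ 2 / 3 := by
    rw [← t2]
    exact UPP_kap hM hε hk
  obtain ⟨l1, l2, l3⟩ := UPP_log hε hε4 hτ hτ23
  generalize hτd : tau n k M = τ at *
  have hτ0 : 0 < τ := by linarith
  set ℓ : ℝ := - Real.log τ with hℓ
  set ℓ' : ℝ := - Real.log (τ + ε ^ 2 / 20) with hℓ'
  have hℓ0 : 0 < ℓ := by linarith
  have hc0 : 0 < (1 - ε / 4) * ℓ := mul_pos (by linarith) hℓ0
  have hℓ'0 : 0 < ℓ' := by linarith
  set r : ℕ := ⌈Real.log n / ℓ'⌉₊ with hr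
  have hr1 : 1 ≤ r := Nat.ceil_pos.2 (by positivity)
  have hr2 : Real.log n / ℓ' ≤ r := Nat.le_ceil _
  have hr3 : (r : ℝ) < Real.log n / ℓ' + 1 := Nat.ceil_lt_add_one (by positivity)
  have hpow : (n : ℝ) * (τ + ε ^ 2 / 20) ^ r ≤ 1 := by
    apply UPP_pow hnpos (by positivity)
    rw [div_le_iff₀ hℓ'0] at hr2
    exact hr2
  have hY : 0 ≤ Real.log n / ℓ := by positivity
  have hr4 : (r : ℝ) + 1 ≤ (1 + ε) * (Real.log n / ℓ) := by
    have a1 : Real.log n / ℓ' ≤ Real.log n / ((1 - ε / 4) * ℓ) :=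
      div_le_div_of_nonneg_left hlogn.le hc0 l3
    have a2 : Real.log n / ((1 - ε / 4) * ℓ) ≤ (1 + ε / 2) * (Real.log n / ℓ) := by
      rw [div_le_iff₀ hc0]
      have a3 : (1 + ε / 2) * (Real.log n / ℓ) * ((1 - ε / 4) * ℓ) =
          ((1 + ε / 2) * (1 - ε / 4)) * Real.log n := by
        field_simp
      rw [a3]
      have a4 : 1 ≤ (1 + ε / 2) * (1 - ε / 4) := by nlinarith
      nlinarith
    have a5 : 2 ≤ ε / 2 * (Real.log n / ℓ) := by
      have a6 : ε / 2 * (Real.log n / ℓ) = (ε * Real.log n) / (2 * ℓ) := by field_simp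
      rw [a6, le_div_iff₀ (by positivity)]
      linarith
    linarith
  have hnM' : (n : ℝ) / M ≤ n := div_le_self hn0.le (by linarith)
  have hbase : 0 ≤ (n : ℝ) - n / M := by linarith
  -- `k ≥ M`
  have hkM : M ≤ k := by
    have h1 : ((M : ℝ) - 1) * n ≤ M * k := by
      have h2 : (M : ℝ) * ((k : ℝ) / n) = M * k / n := by ring
      have h3 : ((M : ℝ) - 1) ≤ M * k / n := by
        rw [← h2]
        linarith
      rw [le_div_iff₀ hn0] at h3
      exact h3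
    have h4 : (2 : ℝ) * M ≤ n := by exact_mod_cast hnM
    have h5 : (M : ℝ) * M ≤ M * k := by nlinarith
    have h6 : (M : ℝ) ≤ k := le_of_mul_le_mul_left h5 hM0
    exact_mod_cast h6
  rcases P_attained n k with h0 | ⟨G, hG, hP⟩
  · rw [h0, Nat.cast_zero]
    positivity
  · by_contra hcon
    push Not at hcon
    have hPr : (P n k : ℝ) = ∏ l, (gammaT (G l) : ℝ) := by
      rw [hP]
      push_cast
      rfl
    have hlow : (1 - 1 / (M : ℝ)) ^ M * (n : ℝ) ^ k ≤ ∏ l, (gammaT (G l) : ℝ) := by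
      rw [← hPr]
      refine le_trans ?_ hcon.le
      have e1 : (1 - 1 / (M : ℝ)) ^ M * (n : ℝ) ^ k =
          (n : ℝ) ^ (k - M) * ((n : ℝ) - n / M) ^ M := by
        have e2 : (n : ℝ) - n / M = (1 - 1 / (M : ℝ)) * n := by ring
        have e3 : (n : ℝ) ^ k = (n : ℝ) ^ (k - M) * (n : ℝ) ^ M := by
          rw [← pow_add, Nat.sub_add_cancel hkM]
        rw [e2, mul_pow, e3]
        ring
      rw [e1]
      apply mul_le_mul_of_nonneg_left _ (by positivity)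
      apply pow_le_pow_left₀ hbase
      have : 0 ≤ (1 + ε) * (Real.log n / ℓ) := by positivity
      linarith
    have htt : 0 ≤ tt n k M := by
      have h1 : 0 ≤ (M : ℝ) * tt n k M / n := by rw [t1]; exact hτ0.le
      rw [le_div_iff₀ hn0, zero_mul] at h1
      exact nonneg_of_mul_nonneg_right h1 hM0
    obtain ⟨e, hSt, hhi⟩ := hS n k hnS hev htt hk G hG hlow
    have hgs := hA n k r G e hnA hr1 hSt hhi (by rw [t1]; nlinarith)
    rw [t1] at hgs
    have hcore := UPP_core hPRR M r n k hM hnpos G e hG hSt.inj (by linarith)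
    have hfin : (∏ l, (gammaT (G l) : ℝ)) ≤ (n : ℝ) ^ (k - M) *
        (n - n / M + (1 + ε) * (Real.log n / ℓ)) ^ M := by
      refine hcore.trans ?_
      apply mul_le_mul_of_nonneg_left _ (by positivity)
      apply pow_le_pow_left₀ (by positivity)
      linarith
    rw [← hPr] at hfin
    linarith

theorem stmt_UPP : Pool.Agent.Work.MP_1ce445_stm.Stmt_PRR → Stmt_SB2 → Stmt_ADP → Stmt_UPP := by
  intro hPRR hSB hAD M hM ε hε
  have hM2 : (2 : ℝ) ≤ M := by exact_mod_cast hM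
  obtain ⟨n0, hn02, h⟩ := UPP_small hPRR hSB hAD M hM (min ε (1 / 4)) (lt_min hε (by norm_num))
    (min_le_right _ _)
  refine ⟨n0, ?_⟩
  intro n k hn hev hτ hk
  have h1 := h n k hn hev ((min_le_left _ _).trans hτ)
    ((add_le_add_right (min_le_left _ _) _).trans hk)
  refine h1.trans ?_
  have hn0 : (0 : ℝ) < n := by exact_mod_cast (by omega : 0 < n)
  have hn1 : (1 : ℝ) ≤ n := by exact_mod_cast (by omega : 1 ≤ n)
  obtain ⟨-, t2⟩ := UPP_tau (n := n) (k := k) (M := M) (by omega) (by omega)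
  have hτ23 : tau n k M ≤ 2 / 3 := by
    rw [← t2]
    exact UPP_kap hM hε hk
  have hτ0 : 0 < tau n k M := by linarith
  have hlog : 0 ≤ - Real.log (tau n k M) := by
    have := Real.log_nonpos hτ0.le (by linarith)
    linarith
  have hY : 0 ≤ Real.log n / (- Real.log (tau n k M)) :=
    div_nonneg (Real.log_nonneg hn1) hlog
  have hnM' : (n : ℝ) / M ≤ n := div_le_self hn0.le (by linarith)
  apply mul_le_mul_of_nonneg_left _ (by positivity)
  have hmin0 : 0 < min ε (1 / 4) := lt_min hε (by norm_num)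
  apply pow_le_pow_left₀
  · have : 0 ≤ (1 + min ε (1 / 4)) * (Real.log n / (- Real.log (tau n k M))) :=
      mul_nonneg (by linarith) hY
    linarith
  · have : (1 + min ε (1 / 4)) * (Real.log n / (- Real.log (tau n k M))) ≤
        (1 + ε) * (Real.log n / (- Real.log (tau n k M))) :=
      mul_le_mul_of_nonneg_right (by linarith [min_le_left ε (1 / 4)]) hY
    linarith

end Pool.Agent.Work.MP_1ce445_plt
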