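import Pool.Agent.Work.MP_1ce445_plt.Interface2
import Pool.Agent.Work.MP_1ce445_plt.UPP
import Pool.Agent.Work.MP_1ce445_stm.UFR

namespace Pool.Agent.Work.MP_1ce445_plt

open Finset Pool.Agent.Work.MP_1ce445_co_56 Pool.Agent.Work.MP_1ce445_lin
  Pool.Agent.Work.MP_1ce445_fx Pool.Agent.Work.MP_1ce445_stm

/-- the choice of `r` -/
theorem UPU_num (ε C τ : ℝ) (n r : ℕ) (hn : 0 < n) (hε : 0 < ε) (hε1 : ε < 1) (hC : 1 ≤ C)
    (hτ : 0 < τ) (hτ1 : τ < 1) (hCτ : Real.log C ≤ ε / 4 * (- Real.log τ))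
    (hlog : 6 ≤ ε * Real.log n)
    (hr : (1 + ε) * (Real.log n / (- Real.log τ)) ≤ r) :
    (n : ℝ) * (C * τ) ^ r ≤ 1 / 10 := by
  have hn0 : (0 : ℝ) < n := by exact_mod_cast hn
  have hC0 : 0 < C := by linarith
  have hl : 0 < - Real.log τ := by
    have := Real.log_neg hτ hτ1
    linarith
  have h1 : Real.log (C * τ) ≤ - ((1 - ε / 4) * (- Real.log τ)) := by
    rw [Real.log_mul hC0.ne' hτ.ne']
    linarith
  have hr0 : (0 : ℝ) ≤ r := Nat.cast_nonneg r
  have h2 : (1 + ε) * Real.log n ≤ r * (- Real.log τ) := by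
    have h3 := mul_le_mul_of_nonneg_right hr hl.le
    have h4 : (1 + ε) * (Real.log n / (- Real.log τ)) * (- Real.log τ) = (1 + ε) * Real.log n := by
      rw [mul_assoc, div_mul_cancel₀ _ hl.ne']
    linarith
  have h5 : (r : ℝ) * Real.log (C * τ) ≤ - (Real.log n + 3) := by
    have h6 : (r : ℝ) * Real.log (C * τ) ≤ r * (- ((1 - ε / 4) * (- Real.log τ))) :=
      mul_le_mul_of_nonneg_left h1 hr0
    have h7 : (1 - ε / 4) * ((1 + ε) * Real.log n) ≤ (1 - ε / 4) * (r * (- Real.log τ)) :=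
      mul_le_mul_of_nonneg_left h2 (by linarith)
    have hlogn : 0 < Real.log n := by
      by_contra hcon
      push Not at hcon
      have : ε * Real.log n ≤ 0 := mul_nonpos_of_nonneg_of_nonpos hε.le hcon
      linarith
    have h8 : Real.log n + 3 ≤ (1 - ε / 4) * ((1 + ε) * Real.log n) := by
      have h9 : (1 - ε / 4) * ((1 + ε) * Real.log n) =
          Real.log n + (3 - ε) / 4 * (ε * Real.log n) := by ring
      rw [h9]
      have h10 : (1 : ℝ) / 2 * 6 ≤ (3 - ε) / 4 * (ε * Real.log n) :=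
        mul_le_mul (by linarith) hlog (by norm_num) (by linarith)
      linarith
    have h11 : (r : ℝ) * (- ((1 - ε / 4) * (- Real.log τ))) =
        - ((1 - ε / 4) * (r * (- Real.log τ))) := by ring
    linarith
  have h12 : (C * τ) ^ r = Real.exp (r * Real.log (C * τ)) := by
    rw [Real.exp_nat_mul, Real.exp_log (by positivity)]
  rw [h12]
  have h13 : Real.exp (r * Real.log (C * τ)) ≤ Real.exp (- Real.log n) * Real.exp (-3) := by
    rw [← Real.exp_add]
    exact Real.exp_le_exp.2 (by linarith)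
  rw [Real.exp_neg (Real.log n), Real.exp_log hn0] at h13
  have h14 : Real.exp (-3) ≤ 1 / 10 := by
    have h15 : Real.exp (-3) = Real.exp (-1) ^ 3 := by
      rw [← Real.exp_nat_mul]
      norm_num
    have h16 := Real.exp_neg_one_lt_d9
    rw [h15]
    calc Real.exp (-1) ^ 3 ≤ (0.3678794412 : ℝ) ^ 3 :=
          pow_le_pow_left₀ (Real.exp_pos _).le h16.le 3
      _ ≤ 1 / 10 := by norm_num
  calc (n : ℝ) * Real.exp (r * Real.log (C * τ)) ≤ n * ((n : ℝ)⁻¹ * Real.exp (-3)) :=
        mul_le_mul_of_nonneg_left h13 hn0.le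
    _ = Real.exp (-3) := by rw [← mul_assoc, mul_inv_cancel₀ hn0.ne', one_mul]
    _ ≤ 1 / 10 := h14

theorem stmt_UPU (hPRR : Pool.Agent.Work.MP_1ce445_stm.Stmt_PRR) (hSB : Stmt_SB2)
    (hUNI : Stmt_UNI) (hUPP : Stmt_UPP) : Stmt_UPU := by
  intro M hM ε hε hε1
  have hM2 : (2 : ℝ) ≤ M := by exact_mod_cast hM
  have hM0 : (0 : ℝ) < M := by linarith
  obtain ⟨θ, s, C, ε₁, hθ, hθ2, hs, hs2, hC, hε₁, hU⟩ := hUNI M hM
  obtain ⟨ε₂, he0, he1, he2, he3⟩ : ∃ x : ℝ, 0 < x ∧ x ≤ ε₁ ∧ x ≤ ε ∧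
      x ≤ Real.exp (-(4 * Real.log C / ε)) :=
    ⟨min ε₁ (min ε (Real.exp (-(4 * Real.log C / ε)))),
      lt_min hε₁ (lt_min hε (Real.exp_pos _)), min_le_left _ _,
      (min_le_right _ _).trans (min_le_left _ _), (min_le_right _ _).trans (min_le_right _ _)⟩
  have hlogC : Real.log C ≤ ε / 4 * (- Real.log ε₂) := by
    have h1 : Real.log ε₂ ≤ -(4 * Real.log C / ε) := by
      rw [Real.log_le_iff_le_exp he0]
      exact he3
    have h2 : ε / 4 * (4 * Real.log C / ε) ≤ ε / 4 * (- Real.log ε₂) :=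
      mul_le_mul_of_nonneg_left (by linarith) (by positivity)
    have h3 : ε / 4 * (4 * Real.log C / ε) = Real.log C := by field_simp
    linarith
  obtain ⟨nU, hU2⟩ := hUPP M hM ε₂ he0
  obtain ⟨nS, hS⟩ := hSB M hM ε θ s hε hθ hθ2 hs hs2
  refine ⟨max (max nU nS) (max (2 * M) ⌈Real.exp (6 / ε)⌉₊), ?_⟩
  intro n k hn hev hτ hk
  have hnU : nU ≤ n := ((le_max_left _ _).trans (le_max_left _ _)).trans hn
  have hnS : nS ≤ n := ((le_max_right _ _).trans (le_max_left _ _)).trans hn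
  have hnM : 2 * M ≤ n := ((le_max_left _ _).trans (le_max_right _ _)).trans hn
  have hnE : ⌈Real.exp (6 / ε)⌉₊ ≤ n :=
    ((le_max_right _ _).trans (le_max_right _ _)).trans hn
  have hnpos : 0 < n := by omega
  have hn0 : (0 : ℝ) < n := by exact_mod_cast hnpos
  have hn1 : (1 : ℝ) < n := by exact_mod_cast (by omega : 1 < n)
  have hlogn : 0 < Real.log n := Real.log_pos hn1
  have hlogE : 6 ≤ ε * Real.log n := by
    have h1 : Real.exp (6 / ε) ≤ n := (Nat.le_ceil _).trans (by exact_mod_cast hnE)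
    have h2 : 6 / ε ≤ Real.log n := by
      rw [Real.le_log_iff_exp_le hn0]
      exact h1
    rw [div_le_iff₀ hε] at h2
    linarith
  obtain ⟨t1, t2⟩ := UPP_tau (n := n) (k := k) (M := M) hnpos (by omega)
  have hτ23 : tau n k M ≤ 2 / 3 := by
    rw [← t2]
    exact UPP_kap hM hε hk
  have hτ0 : 0 < tau n k M := lt_of_lt_of_le (by positivity) hτ
  have hl0 : 0 < - Real.log (tau n k M) := by
    have := Real.log_neg hτ0 (by linarith)
    linarith
  have hρ0 : 0 ≤ Real.log n / (- Real.log (tau n k M)) := by positivity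
  have hnM' : (n : ℝ) / M ≤ n := div_le_self hn0.le (by linarith)
  have hbase : 0 ≤ (n : ℝ) - n / M := by linarith
  rcases le_or_gt ε₂ (tau n k M) with hcase | hcase
  · -- `ε₂ ≤ τ`
    refine (hU2 n k hnU hev hcase (by linarith)).trans ?_
    apply mul_le_mul_of_nonneg_left _ (by positivity)
    apply pow_le_pow_left₀
    · have : 0 ≤ (1 + ε₂) * (Real.log n / (- Real.log (tau n k M))) := by positivity
      linarith
    · have : (1 + ε₂) * (Real.log n / (- Real.log (tau n k M))) ≤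
          (1 + ε) * (Real.log n / (- Real.log (tau n k M))) :=
        mul_le_mul_of_nonneg_right (by linarith) hρ0
      linarith
  · -- `τ < ε₂`
    obtain ⟨ρ, hρ⟩ : ∃ ρ : ℝ, ρ = Real.log n / (- Real.log (tau n k M)) := ⟨_, rfl⟩
    rw [← hρ] at hρ0 ⊢
    have hρ1 : 1 ≤ ρ := by
      rw [hρ, le_div_iff₀ hl0, one_mul]
      have h1 : Real.log (1 / (n : ℝ)) ≤ Real.log (tau n k M) :=
        Real.log_le_log (by positivity) hτ
      rw [one_div, Real.log_inv] at h1
      linarith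
    have hx0 : 0 ≤ (1 + ε) * ρ := by positivity
    obtain ⟨r, hr⟩ : ∃ r : ℕ, r = ⌊(1 + ε) * ρ⌋₊ + 1 := ⟨_, rfl⟩
    have hr1 : (1 + ε) * ρ ≤ r := by
      rw [hr]
      push_cast
      exact (Nat.lt_floor_add_one _).le
    have hr2 : (r : ℝ) ≤ (1 + ε) * ρ + 1 := by
      rw [hr]
      push_cast
      have := Nat.floor_le hx0
      linarith
    have hr3 : 2 ≤ r := by
      have h1 : 1 ≤ ⌊(1 + ε) * ρ⌋₊ := by
        rw [Nat.one_le_floor_iff]
        nlinarith
      omega
    have hlogτ : - Real.log ε₂ ≤ - Real.log (tau n k M) := by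
      have := Real.log_le_log hτ0 hcase.le
      linarith
    have hnum := UPU_num ε C (tau n k M) n r hnpos hε hε1 hC hτ0 (by linarith)
      (hlogC.trans (mul_le_mul_of_nonneg_left hlogτ (by positivity))) hlogE (by rw [← hρ]; exact hr1)
    have hkM : M ≤ k := by
      have h1 : ((M : ℝ) - 1) * n ≤ M * k := by
        have h2 : (M : ℝ) * ((k : ℝ) / n) = M * k / n := by ring
        have h3 : ((M : ℝ) - 1) ≤ M * k / n := by
          rw [← h2]
          linarith
        rw [le_div_iff₀ hn0] at h3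
        exact h3
      have h4 : (2 : ℝ) * M ≤ n := by exact_mod_cast hnM
      have h5 : (M : ℝ) * M ≤ M * k := by nlinarith
      have h6 : (M : ℝ) ≤ k := le_of_mul_le_mul_left h5 hM0
      exact_mod_cast h6
    have hnk : (n : ℝ) ^ k = (n : ℝ) ^ (k - M) * (n : ℝ) ^ M := by
      rw [← pow_add, Nat.sub_add_cancel hkM]
    have htt : 0 ≤ tt n k M := by
      have h1 : 0 ≤ (M : ℝ) * tt n k M / n := by rw [t1]; exact hτ0.le
      rw [le_div_iff₀ hn0, zero_mul] at h1
      exact nonneg_of_mul_nonneg_right h1 hM0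
    rcases P_attained n k with h0 | ⟨G, hG, hP⟩
    · rw [h0, Nat.cast_zero]
      positivity
    · have hPr : (P n k : ℝ) = ∏ l, (gammaT (G l) : ℝ) := by
        rw [hP]
        push_cast
        rfl
      rw [hPr]
      rcases le_or_gt ((1 - 1 / (M : ℝ)) ^ M * (n : ℝ) ^ k) (∏ l, (gammaT (G l) : ℝ)) with h1 | h1
      · obtain ⟨e, hSt, -⟩ := hS n k hnS hev htt hk G hG h1
        have hgs := hU n k r G e hSt hr3 hτ (hcase.le.trans he1)
        have hcore := UFR_core hPRR M r n k 0 hM hnpos G e hG hSt.inj (by linarith)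
        have hcore' : (M : ℝ) ^ M * ∏ l, (gammaT (G l) : ℝ) ≤
            (n : ℝ) ^ (k - M) * (((M : ℝ) - 1) * n + M * r) ^ M := by
          have h2 : ((M ^ M * ∏ l, gammaT (G l) : ℕ) : ℝ) ≤
              ((n ^ (k - M) * ((M - 1) * n + M * r) ^ M : ℕ) : ℝ) := by exact_mod_cast hcore
          push_cast [Nat.cast_sub (by omega : 1 ≤ M)] at h2
          exact h2
        have h3 : ((M : ℝ) - 1) * n + M * r = M * (n - n / M + r) := by
          field_simp
        rw [h3, mul_pow] at hcore'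
        have hMM : (0 : ℝ) < (M : ℝ) ^ M := by positivity
        have h4 : ∏ l, (gammaT (G l) : ℝ) ≤ (n : ℝ) ^ (k - M) * (n - n / M + r) ^ M := by
          have h5 : (M : ℝ) ^ M * ∏ l, (gammaT (G l) : ℝ) ≤
              (M : ℝ) ^ M * ((n : ℝ) ^ (k - M) * (n - n / M + r) ^ M) := by
            calc _ ≤ _ := hcore'
              _ = _ := by ring
          exact le_of_mul_le_mul_left h5 hMM
        refine h4.trans ?_
        apply mul_le_mul_of_nonneg_left _ (by positivity)
        apply pow_le_pow_left₀ (by positivity)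
        linarith
      · refine h1.le.trans ?_
        have e1 : (1 - 1 / (M : ℝ)) ^ M * (n : ℝ) ^ k =
            (n : ℝ) ^ (k - M) * ((n : ℝ) - n / M) ^ M := by
          have e2 : (n : ℝ) - n / M = (1 - 1 / (M : ℝ)) * n := by ring
          rw [e2, mul_pow, hnk]
          ring
        rw [e1]
        apply mul_le_mul_of_nonneg_left _ (by positivity)
        apply pow_le_pow_left₀ hbase
        linarith

end Pool.Agent.Work.MP_1ce445_plt
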