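import Pool.Agent.Work.MP_1ce445_plt.Interface

/-! Block RW1 (helper95): the product weight on the subsets of a finite type. -/

set_option autoImplicit false

namespace Pool.Agent.Work.MP_1ce445_plt

open Finset Pool.Agent.Work.MP_1ce445_co_56 Pool.Agent.Work.MP_1ce445_lin
  Pool.Agent.Work.MP_1ce445_fx Pool.Agent.Work.MP_1ce445_stm

lemma RW1_aux (α : Type) [Fintype α] [DecidableEq α] (p : ℝ) (S : Finset α) :
    ∑ L : Finset α, (if S ⊆ L then p ^ L.card * (1 - p) ^ (univ \ L).card else 0) =
      p ^ S.card := by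
  have h1 := Finset.prod_add (fun _ : α => p) (fun x => if x ∈ S then 0 else 1 - p)
    (univ : Finset α)
  have h2 : ∏ x : α, (p + (if x ∈ S then 0 else 1 - p)) = p ^ S.card := by
    have h3 : ∀ x ∈ (univ : Finset α), (p + (if x ∈ S then 0 else 1 - p)) =
        if x ∈ S then p else 1 := by
      intro x _
      split_ifs <;> ring
    rw [Finset.prod_congr rfl h3, Finset.prod_ite_mem, univ_inter, prod_const]
  rw [← h2, h1, powerset_univ]
  refine sum_congr rfl fun L _ => ?_
  rw [prod_const]
  split_ifs with hS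
  · congr 1
    rw [← prod_const]
    refine prod_congr rfl fun x hx => ?_
    rw [mem_sdiff] at hx
    rw [if_neg (fun h => hx.2 (hS h))]
  · obtain ⟨x, hx, hxL⟩ := not_subset.1 hS
    rw [prod_eq_zero (i := x) (by simp [hxL]) (by simp [hx]), mul_zero]

theorem stmt_RW1 : Stmt_RW1 := by
  intro α _ _ p hp0 hp1
  refine ⟨fun L => p ^ L.card * (1 - p) ^ (univ \ L).card, ?_, ?_, ?_⟩
  · intro L
    have : 0 ≤ 1 - p := by linarith
    positivity
  · have h := RW1_aux α p ∅
    simpa using h
  · intro S
    exact RW1_aux α p S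

end Pool.Agent.Work.MP_1ce445_plt
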