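import Pool.Agent.Work.MP_1ce445_plt.Interface

namespace Pool.Agent.Work.MP_1ce445_plt

open Finset Pool.Agent.Work.MP_1ce445_co_56 Pool.Agent.Work.MP_1ce445_lin
  Pool.Agent.Work.MP_1ce445_fx Pool.Agent.Work.MP_1ce445_stm

theorem RW2_aux {α β : Type} [Fintype α] [DecidableEq α] [DecidableEq β] (p : ℝ)
    (w : Finset α → ℝ)
    (hw : ∀ S : Finset α, ∑ L, (if S ⊆ L then w L else 0) = p ^ S.card)
    (S : β → Finset α) (J : Finset β) :
    (∀ i ∈ J, ∀ j ∈ J, i ≠ j → Disjoint (S i) (S j)) →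
    ∀ U : Finset α, (∀ j ∈ J, Disjoint U (S j)) →
      ∑ L, (if U ⊆ L ∧ ∀ j ∈ J, ¬ S j ⊆ L then w L else 0) =
        p ^ U.card * ∏ j ∈ J, (1 - p ^ (S j).card) := by
  induction J using Finset.induction_on with
  | empty =>
    intro _ U _
    have h := hw U
    simpa using h
  | insert j J hj ih =>
    intro hd U hU
    have hd' : ∀ a ∈ J, ∀ b ∈ J, a ≠ b → Disjoint (S a) (S b) := fun a ha b hb hab =>
      hd a (Finset.mem_insert_of_mem ha) b (Finset.mem_insert_of_mem hb) hab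
    have h1 : ∀ L : Finset α,
        (if U ⊆ L ∧ ∀ i ∈ insert j J, ¬ S i ⊆ L then w L else 0) =
        (if U ⊆ L ∧ ∀ i ∈ J, ¬ S i ⊆ L then w L else 0) -
          (if U ∪ S j ⊆ L ∧ ∀ i ∈ J, ¬ S i ⊆ L then w L else 0) := by
      intro L
      by_cases c1 : U ⊆ L
      · by_cases c2 : ∀ i ∈ J, ¬ S i ⊆ L
        · by_cases c3 : S j ⊆ L
          · have a1 : ¬ (U ⊆ L ∧ ∀ i ∈ insert j J, ¬ S i ⊆ L) := fun h =>
              h.2 j (Finset.mem_insert_self _ _) c3
            have a2 : U ∪ S j ⊆ L ∧ ∀ i ∈ J, ¬ S i ⊆ L := ⟨Finset.union_subset c1 c3, c2⟩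
            rw [if_neg a1, if_pos ⟨c1, c2⟩, if_pos a2, sub_self]
          · have a1 : U ⊆ L ∧ ∀ i ∈ insert j J, ¬ S i ⊆ L := by
              refine ⟨c1, fun i hi => ?_⟩
              rcases Finset.mem_insert.mp hi with rfl | hi
              · exact c3
              · exact c2 i hi
            have a2 : ¬ (U ∪ S j ⊆ L ∧ ∀ i ∈ J, ¬ S i ⊆ L) := fun h =>
              c3 (Finset.subset_union_right.trans h.1)
            rw [if_pos a1, if_pos ⟨c1, c2⟩, if_neg a2, sub_zero]
        · have a1 : ¬ (U ⊆ L ∧ ∀ i ∈ insert j J, ¬ S i ⊆ L) := fun h =>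
            c2 fun i hi => h.2 i (Finset.mem_insert_of_mem hi)
          rw [if_neg a1, if_neg (fun h => c2 h.2), if_neg (fun h => c2 h.2), sub_zero]
      · rw [if_neg (fun h => c1 h.1), if_neg (fun h => c1 h.1),
          if_neg (fun h => c1 (Finset.subset_union_left.trans h.1)), sub_zero]
    rw [Finset.sum_congr rfl (fun L _ => h1 L), Finset.sum_sub_distrib,
      ih hd' U (fun i hi => hU i (Finset.mem_insert_of_mem hi)),
      ih hd' (U ∪ S j) (fun i hi => Finset.disjoint_union_left.mpr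
        ⟨hU i (Finset.mem_insert_of_mem hi), hd j (Finset.mem_insert_self _ _) i
          (Finset.mem_insert_of_mem hi) (fun h => hj (h ▸ hi))⟩),
      Finset.card_union_of_disjoint (hU j (Finset.mem_insert_self _ _)),
      Finset.prod_insert hj, pow_add]
    ring

/-- Block RW2. -/
theorem stmt_RW2 : Stmt_RW2 := by
  intro α β _ _ _ p w hw J S hd
  have h := RW2_aux p w hw S J hd ∅ (fun j _ => Finset.disjoint_empty_left _)
  rw [Finset.card_empty, pow_zero, one_mul] at h
  rw [← h]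
  refine Finset.sum_congr rfl fun L _ => ?_
  simp only [Finset.empty_subset, true_and]

end Pool.Agent.Work.MP_1ce445_plt
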