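import Pool.Agent.Work.MP_1ce445_stm.Interface
import Pool.Agent.Work.MP_1ce445_fx.InterfaceS

/-!
SECOND ORDER TERM IN THE PLATEAUS for MP_1ce445_co (helper28). `n = 2 M q`, `τ = M k/n - (M - 1)` (so `k = (1 - 1/M) n + t`,
`τ = M t/n`), `ε ≤ τ`, `(k/n)^(M+1) + ε ≤ (1 - 1/M)^M`:
`P n k = n^(k-M) (n - n/M + (1 + o(1)) log n/(- log τ))^M` as `n → ∞`.

One file `Pool/Agent/Work/MP_1ce445_plt/<ID>.lean` per block, `import Pool.Agent.Work.MP_1ce445_plt.Interface`, the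
`namespace` and `open` lines of this file, theorem `stmt_<ID> : Stmt_X → Stmt_Y → Stmt_<ID>` with exactly the statements of
the column `uses` as hypotheses, in this order; auxiliary lemmas with the name of the block in front (`HSU_aux`).
No straight double quotes. Constants are never sharp. `stm.` = `Pool.Agent.Work.MP_1ce445_stm` (all blocks of it are typed,
definitions and docstrings in `MP_1ce445_stm/Interface.lean`: `hi ov ot Ls gs dd EE xx tt St pT`), `fx.` =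
`Pool.Agent.Work.MP_1ce445_fx`. `dg` is ambiguous: write `MP_1ce445_fx.dg` where needed.
-/

namespace Pool.Agent.Work.MP_1ce445_plt

open Finset Pool.Agent.Work.MP_1ce445_co_56 Pool.Agent.Work.MP_1ce445_lin
  Pool.Agent.Work.MP_1ce445_fx Pool.Agent.Work.MP_1ce445_stm

/-! ### Upper half -/

/-- TN2 (uses nothing; copy of `MP_1ce445_stm/TAN.lean`, there `a = 2 L/x - y`, `b = (y - L/x)/x`, `x = 1/M`, `y = 1/(1-x)`,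
so `a + 2 b x = y`): `Stmt_TAN` with one more identity. -/
def Stmt_TN2 : Prop :=
  ∀ M : ℕ, 2 ≤ M → ∃ a b : ℝ, 1 / 2 ≤ a ∧ a ≤ 1 ∧ 1 / 2 ≤ b ∧ b ≤ 2 ∧
    a + b / M = - M * Real.log (1 - 1 / M) ∧ a + 2 * b / M = 1 / (1 - 1 / M) ∧
    ∀ p : ℝ, 0 ≤ p → p < 1 → a * p + b * p ^ 2 + p * (p - 1 / M) ^ 2 / 3 ≤ - Real.log (1 - p)

/-- SE2 (200 lines; uses TN2; models `MP_1ce445_stm/SET.lean` and `MP_1ce445_lin/INC.lean`). `η` small depending on `ε₀, κ, M`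
(`η < ε₀`, `20 M η ≤ κ⁴/100`, …). `p_x = pT T x < 1` for `x ∈ A`, `L = - log ∏_{x ∈ A} (1 - p_x) ≤ a + b/M + 8 η`
(`(1-1/M)^M ≥ 1/4`). `A' = {x ∈ A | T v = {x} for some v ∈ Vg}`: for these `p_x ≥ D`, so `|A'| ≤ M` (otherwise
`∏ ≤ (1-D)^(M+1)`). `S2 = {v ∈ Vg | 2 ≤ |T v|}`, `r = |S2|/n`; `T v ≠ ∅` for `v ∈ Vg`. `s₁ = ∑_A p ≥ 1 - η + r`,
`x = ∑_{A'} p ≥ 1 - η - r`, `y = 1 - x ≤ η + r`, `∑_{A'} p² ≥ x²/M` (Cauchy-Schwarz), `Q = ∑_{A'} p (p - 1/M)²`. TN2 on `A'` and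
`- log (1 - p) ≥ p` on `A ∖ A'`: `a + b/M + 8 η ≥ L ≥ a x + b x²/M + Q/3 + s₁ - x =
(a + b/M) - y/(M-1) + (b/M) y² + Q/3 + (s₁ - 1)` (by `1 - a - 2b/M = - 1/(M-1)`). If `y ≥ 0`: `y/(M-1) ≤ y ≤ η + r` and
`s₁ - 1 ≥ r - η`, so `(b/M) y² + Q/3 ≤ 10 η` and `r ≤ s₁ - 1 + η ≤ 9 η + y`. If `y < 0`: `(b/M) y² + Q/3 ≤ 9 η`, `r ≤ 9 η`. So `y²`,
`r`, `Q` are small (`y² ≤ 20 M η`). `X = {x ∈ A' | |p_x - 1/M| ≤ κ}`: `∑_{A' ∖ X} p ≤ Q/κ²`, so `|X| (1/M + κ) ≥ x - Q/κ²`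
gives `|X| ≥ M`, hence `X = A'` has `M` elements; `e` = enumeration. `#{2 ≤ |T v|} ≤ (r + η) n`. -/
def Stmt_SE2 : Prop :=
  ∀ M : ℕ, 2 ≤ M → ∀ ε₀ κ : ℝ, 0 < ε₀ → 0 < κ → 4 * (M : ℝ) ^ 2 * κ ≤ 1 → ∃ η : ℝ, 0 < η ∧ η ≤ 1 ∧
    ∀ (n k : ℕ) (T : Fin n → Finset (Fin k)) (A : Finset (Fin k)) (Vg : Finset (Fin n)) (D : ℝ),
    0 < n → (∀ v, T v ⊆ A) → (1 - η) * n ≤ Vg.card → 0 < D → D ≤ 1 →
    (1 - D) ^ (M + 1) + ε₀ ≤ (1 - 1 / (M : ℝ)) ^ M →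
    (∀ v ∈ Vg, D * n ≤ ((univ.filter (fun w => T v ∩ T w ≠ ∅)).card : ℝ)) →
    (1 - 1 / (M : ℝ)) ^ M - η ≤ ∏ x ∈ A, (1 - pT T x) →
    ∃ e : Fin M → Fin k, Function.Injective e ∧ (∀ i, e i ∈ A) ∧
      (∀ i, |pT T (e i) - 1 / M| ≤ κ) ∧
      ((univ.filter (fun v => 2 ≤ (T v).card)).card : ℝ) ≤ κ * n

/-- ST2 (200 lines; uses `fx.Stmt_CR3` SE2): copy of `MP_1ce445_stm/STA.lean` with SE2 instead of SET;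
`D = 1 - 1/n - k/n - u`, `(1 - D)^(M+1) = (k/n + 1/n + u)^(M+1) ≤ (k/n)^(M+1) + ε₀/2` for small `u`, `1/n`; `D > 0` because
`(k/n)^(M+1) ≤ (1-1/M)^M ≤ 1/2 ≤ (1 - 1/(2(M+1)))^(M+1)`, so `k/n ≤ 1 - 1/(2(M+1))`. -/
def Stmt_ST2 : Prop :=
  ∀ M : ℕ, 2 ≤ M → ∀ ε₀ θ κ : ℝ, 0 < ε₀ → 0 < θ → 0 < κ → ∃ n0 : ℕ, ∀ n k : ℕ, n0 ≤ n →
    Even n → ((k : ℝ) / n) ^ (M + 1) + ε₀ ≤ (1 - 1 / (M : ℝ)) ^ M →
    ∀ G : Fin k → SimpleGraph (Fin n), IsFactorization G →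
    (1 - 1 / (M : ℝ)) ^ M * (n : ℝ) ^ k ≤ ∏ j, (gammaT (G j) : ℝ) →
    ∃ e : Fin M → Fin k, Function.Injective e ∧
      (∀ i, (gammaT (G (e i)) : ℝ) ≤ (1 - 1 / M + κ) * n) ∧
      (∀ i, ((hi (G (e i)) θ).card : ℝ) ≤ (1 / M + κ) * n) ∧ ((ov G e θ).card : ℝ) ≤ κ * n

/-- SB2 (150 lines; uses `stm.Stmt_DEG` `stm.Stmt_EMO` ST2): copy of `MP_1ce445_stm/STB.lean`. `κ ≤ s`, `4 M κ ≤ s`,
`192 M³ κ ≤ 1`, `4 M² κ ≤ 1`. `Ls ≤ 4 M κ n` as there. `n - k ≥ n/(2(M+1)) ≥ n/(3M)` (see ST2); for `v` in no `hi_i`: by DEG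
`EE v ≥ n - k - M θ n ≥ n/(3M) - n/(12M) = n/(4M)` , by EMO `|R0| n/(4M) ≤ 3 Ls² ≤ 48 M² κ² n²`, so `|R0| ≤ κ n`. -/
def Stmt_SB2 : Prop :=
  ∀ M : ℕ, 2 ≤ M → ∀ ε₀ θ s : ℝ, 0 < ε₀ → 0 < θ → 12 * (M : ℝ) ^ 2 * θ ≤ 1 → 0 < s →
    4 * (M : ℝ) * s ≤ 1 → ∃ n0 : ℕ, ∀ n k : ℕ, n0 ≤ n → Even n → 0 ≤ tt n k M →
    ((k : ℝ) / n) ^ (M + 1) + ε₀ ≤ (1 - 1 / (M : ℝ)) ^ M →
    ∀ G : Fin k → SimpleGraph (Fin n), IsFactorization G →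
    (1 - 1 / (M : ℝ)) ^ M * (n : ℝ) ^ k ≤ ∏ j, (gammaT (G j) : ℝ) →
    ∃ e : Fin M → Fin k, St G e θ s ∧ ∀ i, ((hi (G (e i)) θ).card : ℝ) ≤ (1 / M + s) * n

/-- HSU (60 lines), real numbers. For all finite sets `S`: `1 - (max 0 (1 - ∑_S x))^r ≤ ∑_S (1 - (1 - x_i)^r)`, induction: with
`u = max 0 (1 - ∑_S x) ∈ [0, 1]`: `u^r - (max 0 (u - x))^r ≤ 1 - (1 - x)^r` (if `x ≤ u`: `a^r - (a - x)^r = x ∑ a^i (a-x)^j` is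
increasing in `a`; if `x > u`: `u^r ≤ u ≤ x ≤ 1 - (1-x)^r`). -/
def Stmt_HSU : Prop :=
  ∀ (M r : ℕ) (x : Fin M → ℝ) (e : ℝ), 1 ≤ r → 0 ≤ e → (∀ i, 0 ≤ x i ∧ x i ≤ 1) →
    1 - e ≤ ∑ i, x i → 1 - e ^ r ≤ ∑ i, (1 - (1 - x i) ^ r)

/-- GOD (60 lines; uses `stm.Stmt_DEG`). `B = (1/M + s) n`. `∑_i x_i(v) ≥ (∑_i dg (G (e i)) hi_i v)/B ≥ (n/M - t - ω₁ n)/B =
1 - (s + t/n + ω₁)/(1/M + s) ≥ 1 - M t/n - M (s + ω₁)`. -/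
def Stmt_GOD : Prop :=
  ∀ (n k M : ℕ) (G : Fin k → SimpleGraph (Fin n)) (e : Fin M → Fin k) (θ s ω₁ : ℝ), St G e θ s →
    (∀ i, ((hi (G (e i)) θ).card : ℝ) ≤ (1 / M + s) * n) → 0 ≤ ω₁ →
    ∀ v, (dd G e θ v : ℝ) + EE G e v ≤ ω₁ * n →
      1 - (M * tt n k M / n + M * (s + ω₁)) ≤ ∑ i, xx G e θ i v

/-- ADP (150 lines; uses `stm.Stmt_SUR` `stm.Stmt_EMO` `stm.Stmt_DMO` HSU GOD). `ω₁ = ω/(2M)`; `s₀ ≤ ω/(2M)`, `600 s₀ ≤ ω₁`,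
`4 M s₀ ≤ 1`; `r₀` with `(1-ω)^r₀ ≤ ω₁/(16M)`; `θ₀` with `2 M θ₀/ω₁ ≤ ω₁/(16 M)`, `8 M r₀ θ₀ ≤ 1`, `12 M² θ₀ ≤ 1`. Let `Δ` be the maximum of
the `dg (G (e i)) low_i v`, `E = M tt/n + ω ≤ 1 - ω`. By EMO `#{EE > ω₁ n/2} ≤ 6 Ls²/(ω₁ n) ≤ Ls/100`.
Case A, `M Δ ≤ ω₁ n/2`: then `dd ≤ M Δ`; for the good `v` (`EE ≤ ω₁ n/2`) GOD and HSU give `∑_i (1 - (1-x_i)^r) ≥ 1 - E^r`; the
sum over `v` is `≥ n - n E^r - Ls/100`, SUR first part. Case B: `Δ > ω₁ n/(2M)`, attained for `i0, z`: SUR second part with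
`r₀`: `#{dd > ω₁ n/2} ≤ M θ n²/(ω₁ n/2) ≤ ω₁ n/(16M)` (DMO), `Δ` vertices `y ∈ low_{i0}` of `nb (G (e i0)) z` have `(1 - x)^r₀ ≥
(1 - 2Mθ)^r₀ ≥ 3/4`: `gs ≤ (M-1) n + M r₀ + 1 + ω₁ n/(16M) + ω₁ n/(16M) + Ls/100 - (3/4) ω₁ n/(2M) ≤ (M-1) n + Ls/100`
for `n ≥ n0`. -/
def Stmt_ADP : Prop :=
  ∀ M : ℕ, 2 ≤ M → ∀ ω : ℝ, 0 < ω → ω ≤ 1 → ∃ θ s : ℝ, 0 < θ ∧ 12 * (M : ℝ) ^ 2 * θ ≤ 1 ∧ 0 < s ∧
    4 * (M : ℝ) * s ≤ 1 ∧ ∃ n0 : ℕ, ∀ (n k r : ℕ) (G : Fin k → SimpleGraph (Fin n))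
    (e : Fin M → Fin k), n0 ≤ n → 1 ≤ r → St G e θ s →
    (∀ i, ((hi (G (e i)) θ).card : ℝ) ≤ (1 / M + s) * n) → M * tt n k M / n + 2 * ω ≤ 1 →
    gs G e ≤ ((M : ℝ) - 1) * n + M * r + n * (M * tt n k M / n + ω) ^ r + Ls G e / 100

/-- `τ` -/
noncomputable def tau (n k M : ℕ) : ℝ := M * (k : ℝ) / n - ((M : ℝ) - 1)

/-- UPP (150 lines; uses `stm.Stmt_PRR` SB2 ADP). We may assume `ε ≤ 1/4`. `M tt/n = tau`. `k/n ≤ 1 - 1/(2(M+1))` (see ST2), so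
`τ ≤ 1 - M/(2(M+1)) ≤ 2/3`. `ω ≤ ε²/20`, `ω ≤ 1/6`: `- log (τ + ω) ≥ - log τ - ω/τ ≥ (1 - ε/4) (- log τ)`
(`- log τ ≥ 1/3`). `r = ⌈log n/(- log (τ+ω))⌉`, `n (τ+ω)^r ≤ 1`. If the product is larger than the bound then it is
at least `(1-1/M)^M n^k`: SB2, ADP, PRR with `A = (M-1) n/M + r + 1`, `R = Ls/100` (`R/A ≤ 2 R/n ≤ Ls/n`). So
`∏ ≤ n^(k-M) A^M`, `A ≤ n - n/M + 2 + log n/((1-ε/4)(- log τ)) ≤ n - n/M + (1+ε) log n/(- log τ)` for large `n`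
(`- log τ ≤ - log ε`). -/
def Stmt_UPP : Prop :=
  ∀ M : ℕ, 2 ≤ M → ∀ ε : ℝ, 0 < ε → ∃ n0 : ℕ, ∀ n k : ℕ, n0 ≤ n → Even n → ε ≤ tau n k M →
    ((k : ℝ) / n) ^ (M + 1) + ε ≤ (1 - 1 / (M : ℝ)) ^ M →
    (P n k : ℝ) ≤ (n : ℝ) ^ (k - M) *
      (n - n / M + (1 + ε) * (Real.log n / (- Real.log (tau n k M)))) ^ M

/-! ### Lower half: random labels -/

/-- RW1 (40 lines). `w L = p^|L| (1-p)^(|α| - |L|)`; the sums by `Finset.sum_pow_mul_eq_add_pow` or `Finset.prod_add`. -/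
def Stmt_RW1 : Prop :=
  ∀ (α : Type) [Fintype α] [DecidableEq α] (p : ℝ), 0 ≤ p → p ≤ 1 →
    ∃ w : Finset α → ℝ, (∀ L, 0 ≤ w L) ∧ ∑ L, w L = 1 ∧
      ∀ S : Finset α, ∑ L, (if S ⊆ L then w L else 0) = p ^ S.card

/-- RW2 (60 lines). `∏_j (1 - [S_j ⊆ L]) = ∑_{J' ⊆ J} (-1)^|J'| [∪_{J'} S_j ⊆ L]` (`Finset.prod_one_sub`, `Finset.prod_add`,
`prod_sub`), take the mean value, `|∪_{J'} S_j| = ∑_{J'} |S_j|`. -/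
def Stmt_RW2 : Prop :=
  ∀ (α β : Type) [Fintype α] [DecidableEq α] [DecidableEq β] (p : ℝ) (w : Finset α → ℝ),
    (∀ S : Finset α, ∑ L, (if S ⊆ L then w L else 0) = p ^ S.card) →
    ∀ (J : Finset β) (S : β → Finset α), (∀ i ∈ J, ∀ j ∈ J, i ≠ j → Disjoint (S i) (S j)) →
      ∑ L, (if ∀ j ∈ J, ¬ S j ⊆ L then w L else 0) = ∏ j ∈ J, (1 - p ^ (S j).card)

/-- the labels of `v` and the elements of `T` -/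
noncomputable def labs {q : ℕ} (T : Finset (Option (ZMod (2 * q - 1)))) (v : ZMod (2 * q - 1)) :
    Finset (ZMod (2 * q - 1)) := by
  classical
  exact T.image (fun t => lbl (some v) t)

/-- GRD (100 lines; uses `fx.Stmt_CNM`), greedy. A maximal set `J` of `v` with `cls (some v) = j`, `some v ∉ T`, `0 ∉ labs T v` and
pairwise disjoint `labs T v`: a given `v` excludes, besides itself, at most `m²` elements (`lbl (some v) t = lbl (some v') t'`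
determines `v'` for given `v, t, t'`: `v' = l - y` or `2 v' = l`, and `2` is a unit modulo `2q - 1`), and at most `2 m` elements of
the class are not admissible (`some v ∈ T`; `lbl (some v) t = 0`). The class has at least `2 (q/3) - 1` elements `some v`
(CNM). So `2 (q/3) - 1 ≤ (m² + 1) |J| + 2 m`. -/
def Stmt_GRD : Prop :=
  ∀ (q m : ℕ) (T : Finset (Option (ZMod (2 * q - 1)))) (j : Fin 3), 2 ≤ q → T.card ≤ m →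
    ∃ J : Finset (ZMod (2 * q - 1)), 2 * (q / 3) ≤ (m ^ 2 + 1) * J.card + 2 * m + 1 ∧
      (∀ v ∈ J, cls (some v) = j ∧ some v ∉ T ∧ 0 ∉ labs T v) ∧
      ∀ v ∈ J, ∀ v' ∈ J, v ≠ v' → Disjoint (labs T v) (labs T v')

/-- LBR (200 lines; uses RW1 RW2 GRD). `N = 2q`, `δ = ε²/4`, `p = (m/N)/(1+δ)`. From the hypothesis `(r - 1) (- log (m/N)) ≤
(1-ε) log N`, `- log (m/N) ≥ - log (1-ε) ≥ ε`, so `r - 1 ≤ log N/ε`, `(1+δ)^(r-1) ≤ N^(δ/ε) = N^(ε/4)`, `p^(r-1) ≥ N^(-1+ε/2)`. Random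
subset `L₀` of `ZMod (2q-1)` (RW1): (i) the mean value of `|L₀|` is `p (2q-1) ≤ m/(1+δ)` (sum of `S = {l}` over `l`), so
`m < |L₀|` has probability at most `1/(1+δ)` (Markov); (ii) for `j : Fin 3` and `T` with `|T| ≤ r - 1` the probability that no `v ∈ J`
(GRD) has `labs T v ⊆ L₀` is at most `(1 - p^(r-1))^|J| ≤ exp (- p^(r-1) |J|)` (RW2, `|labs T v| ≤ r - 1`), `|J| ≥ q/(4 r²)` for
large `q`; the number of the pairs `(T, j)` is at most `3 (N+1)^(r-1)`, and `3 (N+1)^(r-1) exp (- N^(ε/2)/(8 r²)) < δ/2` for large `q`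
since `r ≤ 1 + log N/ε`, while `1 - 1/(1+δ) ≥ δ/2`. So some `L₀` has both properties; `L` = `L₀ ∖ {0}` and further nonzero
elements, `m` altogether (`m ≤ (1-ε) N ≤ 2q - 2`); `Good` only becomes easier, as `0 ∉ labs T v`. -/
def Stmt_LBR : Prop :=
  ∀ ε : ℝ, 0 < ε → ε < 1 → ∃ q0 : ℕ, ∀ q m r : ℕ, q0 ≤ q → 1 ≤ r → (m : ℝ) ≤ (1 - ε) * (2 * q) →
    ε * (2 * q) ≤ m → 1 ≤ (2 * (q : ℝ)) ^ (1 - ε) * ((m : ℝ) / (2 * q)) ^ (r - 1) →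
    ∃ L : Finset (ZMod (2 * q - 1)), L.card = m ∧ Good r q 1 one_pos L

/-- SLP (80 lines; uses LBR `fx.Stmt_SCR` `fx.Stmt_GS1` `fx.Stmt_GS2` `fx.Stmt_GS3`): copy of `MP_1ce445_fx/SLO.lean` with LBR (for
`ε/2`, `m = t - M`) instead of LBL: `((t-M)/(2q))^(r-1) ≥ (t/(2q))^(r-1) (1 - M/t)^(r-1)`, `(1 - M/t)^(r-1) ≥ 1 - M (r-1)/t ≥ 1/2` as
`r - 1 ≤ log (2q)/ε`, and `(2q)^(ε/2) ≥ 2`. -/
def Stmt_SLP : Prop :=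
  ∀ M : ℕ, 2 ≤ M → ∀ ε : ℝ, 0 < ε → ε < 1 → ∃ q0 : ℕ, ∀ q t r : ℕ, q0 ≤ q → 1 ≤ r →
    (t : ℝ) ≤ (1 - ε) * (2 * q) → ε * (2 * q) ≤ t →
    1 ≤ (2 * (q : ℝ)) ^ (1 - ε) * ((t : ℝ) / (2 * q)) ^ (r - 1) →
    (2 * M * q) ^ ((2 * M - 2) * q + t - M) * (2 * (M - 1) * q + r) ^ M ≤
      P (2 * M * q) ((2 * M - 2) * q + t)

/-! ### Result -/

/-- FPL (100 lines; uses UPP SLP). `n = 2 M q`. Lower half: `k = (2M-2) q + t` with `t = τ n/M = 2 q τ` (an integer, as `τ ≥ 0`),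
`τ ≤ 2/3` (see UPP); `r = ⌊(1-ε/2) log (2q)/(- log τ)⌋ + 1`, so `(2q)^(1-ε/2) τ^(r-1) ≥ 1`, and
`r ≥ (1-ε/2) log (2q)/(- log τ) ≥ (1-ε) log n/(- log τ)` for large `q`; `2 (M-1) q + r = n - n/M + r`. -/
def Stmt_FPL : Prop :=
  ∀ M : ℕ, 2 ≤ M → ∀ ε : ℝ, 0 < ε → ε < 1 → ∃ n0 : ℕ, ∀ n k : ℕ, n0 ≤ n → 2 * M ∣ n →
    ε ≤ tau n k M → ((k : ℝ) / n) ^ (M + 1) + ε ≤ (1 - 1 / (M : ℝ)) ^ M →
    (n : ℝ) ^ (k - M) * (n - n / M + (1 - ε) * (Real.log n / (- Real.log (tau n k M)))) ^ M ≤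
      (P n k : ℝ) ∧
    (P n k : ℝ) ≤ (n : ℝ) ^ (k - M) *
      (n - n / M + (1 + ε) * (Real.log n / (- Real.log (tau n k M)))) ^ M

end Pool.Agent.Work.MP_1ce445_plt
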