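import Pool.Agent.Work.MP_1ce445_plt.Interface

/-!
GRD (MP_1ce445_co, plateaus): greedy choice of vertices with disjoint sets of labels.
-/

namespace Pool.Agent.Work.MP_1ce445_plt

open Finset Pool.Agent.Work.MP_1ce445_co_56 Pool.Agent.Work.MP_1ce445_lin
  Pool.Agent.Work.MP_1ce445_fx Pool.Agent.Work.MP_1ce445_stm

lemma GRD_two {q : ℕ} (hq : 1 ≤ q) : (q : ZMod (2 * q - 1)) * 2 = 1 := by
  have h : ((2 * q - 1 + 1 : ℕ) : ZMod (2 * q - 1)) = 1 := by
    rw [Nat.cast_add, ZMod.natCast_self, zero_add, Nat.cast_one]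
  have h2 : 2 * q - 1 + 1 = q * 2 := by omega
  rw [h2, Nat.cast_mul] at h
  exact_mod_cast h

/-- the label determines the vertex -/
lemma GRD_inj {q : ℕ} (hq : 1 ≤ q) (t : Option (ZMod (2 * q - 1))) (v v' : ZMod (2 * q - 1))
    (h : lbl (some v) t = lbl (some v') t) : v = v' := by
  cases t with
  | none =>
    have h0 : v + v = v' + v' := h
    have h1 := GRD_two hq
    calc v = ((q : ZMod (2 * q - 1)) * 2) * v := by rw [h1, one_mul]
      _ = q * (v + v) := by ring
      _ = q * (v' + v') := by rw [h0]
      _ = ((q : ZMod (2 * q - 1)) * 2) * v' := by ring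
      _ = v' := by rw [h1, one_mul]
  | some y =>
    have h0 : v + y = v' + y := h
    exact add_right_cancel h0

lemma GRD_mem {q : ℕ} (T : Finset (Option (ZMod (2 * q - 1)))) (v l : ZMod (2 * q - 1)) :
    l ∈ labs T v ↔ ∃ t ∈ T, lbl (some v) t = l := by
  unfold labs
  rw [Finset.mem_image]

/-- greedy choice -/
lemma GRD_greedy {α : Type} [DecidableEq α] (r : α → α → Prop) (c : ℕ)
    (hs : ∀ a b, r a b → r b a) (n : ℕ) : ∀ A : Finset α, A.card = n →
    (∀ v ∈ A, ∃ B : Finset α, B.card ≤ c ∧ v ∈ B ∧ ∀ w ∈ A, ¬ r v w → w ∈ B) →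
    ∃ J ⊆ A, A.card ≤ c * J.card ∧ ∀ v ∈ J, ∀ w ∈ J, v ≠ w → r v w := by
  classical
  induction n using Nat.strong_induction_on with
  | _ n ih =>
    intro A hn h
    rcases A.eq_empty_or_nonempty with h0 | ⟨v, hv⟩
    · exact ⟨∅, Finset.empty_subset _, by simp [h0], by simp⟩
    · obtain ⟨B, hB, hvB, hB2⟩ := h v hv
      obtain ⟨A', hA'⟩ : ∃ A' : Finset α, A' = A.filter (fun w => w ∉ B) := ⟨_, rfl⟩
      have hsub : A' ⊆ A := by rw [hA']; exact Finset.filter_subset _ _
      have hlt : A'.card < A.card := by
        apply Finset.card_lt_card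
        rw [Finset.ssubset_iff_of_subset hsub]
        refine ⟨v, hv, ?_⟩
        rw [hA', Finset.mem_filter]
        exact fun h1 => h1.2 hvB
      obtain ⟨J, hJ, hJ2, hJ3⟩ := ih A'.card (by omega) A' rfl
        (fun w hw => by
          obtain ⟨B', hB', hwB', hB'2⟩ := h w (hsub hw)
          exact ⟨B', hB', hwB', fun x hx => hB'2 x (hsub hx)⟩)
      have hr : ∀ w ∈ J, r v w := by
        intro w hw
        have h1 := hJ hw
        rw [hA', Finset.mem_filter] at h1
        by_contra h2
        exact h1.2 (hB2 w h1.1 h2)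
      have hvJ : v ∉ J := by
        intro hvJ
        have h1 := hJ hvJ
        rw [hA', Finset.mem_filter] at h1
        exact h1.2 hvB
      refine ⟨insert v J, ?_, ?_, ?_⟩
      · intro x hx
        rcases Finset.mem_insert.1 hx with rfl | hx
        · exact hv
        · exact hsub (hJ hx)
      · rw [Finset.card_insert_of_notMem hvJ]
        have h1 : A.card ≤ A'.card + B.card := by
          refine le_trans (Finset.card_le_card ?_) (Finset.card_union_le _ _)
          intro x hx
          rw [Finset.mem_union, hA', Finset.mem_filter]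
          by_cases hxB : x ∈ B
          · exact Or.inr hxB
          · exact Or.inl ⟨hx, hxB⟩
        have h2 : c * (J.card + 1) = c * J.card + c := by ring
        omega
      · intro x hx y hy hxy
        rcases Finset.mem_insert.1 hx with hx | hx
        · rcases Finset.mem_insert.1 hy with hy | hy
          · exact absurd (hx.trans hy.symm) hxy
          · rw [hx]
            exact hr y hy
        · rcases Finset.mem_insert.1 hy with hy | hy
          · rw [hy]
            exact hs _ _ (hr x hx)
          · exact hJ3 x hx y hy hxy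

theorem stmt_GRD (hC : Stmt_CNM) : Stmt_GRD := by
  classical
  intro q m T j hq hT
  haveI : NeZero (2 * q - 1) := ⟨by omega⟩
  have hq1 : 1 ≤ q := by omega
  -- the class
  obtain ⟨C, hCd⟩ : ∃ C : Finset (ZMod (2 * q - 1)), C = univ.filter (fun v => cls (some v) = j) :=
    ⟨_, rfl⟩
  have hCc : 2 * (q / 3) ≤ C.card + 1 := by
    have h1 := hC q hq1 j
    have h2 : (univ.filter (fun v : Option (ZMod (2 * q - 1)) => cls v = j)).card ≤
        (insert none (C.image some)).card := by
      apply Finset.card_le_card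
      intro v hv
      have hv' := (Finset.mem_filter.1 hv).2
      cases v with
      | none => exact Finset.mem_insert_self _ _
      | some x =>
        refine Finset.mem_insert_of_mem (Finset.mem_image.2 ⟨x, ?_, rfl⟩)
        rw [hCd]
        exact Finset.mem_filter.2 ⟨Finset.mem_univ _, hv'⟩
    have h3 := Finset.card_insert_le (none : Option (ZMod (2 * q - 1))) (C.image some)
    have h4 : (C.image (some : ZMod (2 * q - 1) → Option (ZMod (2 * q - 1)))).card ≤ C.card :=
      Finset.card_image_le
    have hj := j.isLt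
    have h5 : q / 3 ≤ (q + 2 - j.val) / 3 := Nat.div_le_div_right (by omega)
    omega
  -- the admissible elements
  obtain ⟨A, hA⟩ : ∃ A : Finset (ZMod (2 * q - 1)),
      A = C.filter (fun v => some v ∉ T ∧ 0 ∉ labs T v) := ⟨_, rfl⟩
  have hfib : ∀ (t : Option (ZMod (2 * q - 1))) (l : ZMod (2 * q - 1)),
      (univ.filter (fun v : ZMod (2 * q - 1) => lbl (some v) t = l)).card ≤ 1 := by
    intro t l
    rw [Finset.card_le_one]
    intro a ha b hb
    exact GRD_inj hq1 t a b ((Finset.mem_filter.1 ha).2.trans (Finset.mem_filter.1 hb).2.symm)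
  have hCA : C.card ≤ A.card + 2 * m := by
    have h1 : C ⊆ A ∪ ((univ.filter (fun v : ZMod (2 * q - 1) => some v ∈ T)) ∪
        T.biUnion (fun t => univ.filter (fun v : ZMod (2 * q - 1) => lbl (some v) t = 0))) := by
      intro v hv
      by_cases h2 : some v ∈ T
      · exact Finset.mem_union_right _ (Finset.mem_union_left _
          (Finset.mem_filter.2 ⟨Finset.mem_univ _, h2⟩))
      · by_cases h3 : 0 ∈ labs T v
        · obtain ⟨t, ht, ht2⟩ := (GRD_mem T v 0).1 h3
          exact Finset.mem_union_right _ (Finset.mem_union_right _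
            (Finset.mem_biUnion.2 ⟨t, ht, Finset.mem_filter.2 ⟨Finset.mem_univ _, ht2⟩⟩))
        · refine Finset.mem_union_left _ ?_
          rw [hA]
          exact Finset.mem_filter.2 ⟨hv, h2, h3⟩
    have h2 := Finset.card_le_card h1
    have h3 := Finset.card_union_le A ((univ.filter (fun v : ZMod (2 * q - 1) => some v ∈ T)) ∪
        T.biUnion (fun t => univ.filter (fun v : ZMod (2 * q - 1) => lbl (some v) t = 0)))
    have h4 := Finset.card_union_le (univ.filter (fun v : ZMod (2 * q - 1) => some v ∈ T))
        (T.biUnion (fun t => univ.filter (fun v : ZMod (2 * q - 1) => lbl (some v) t = 0)))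
    have h5 : (univ.filter (fun v : ZMod (2 * q - 1) => some v ∈ T)).card ≤ T.card := by
      apply Finset.card_le_card_of_injOn some
      · intro v hv
        exact (Finset.mem_filter.1 (Finset.mem_coe.1 hv)).2
      · intro a _ b _ hab
        exact Option.some.inj hab
    have h6 := Finset.card_biUnion_le_card_mul T
      (fun t => univ.filter (fun v : ZMod (2 * q - 1) => lbl (some v) t = 0)) 1
      (fun t _ => hfib t 0)
    omega
  -- greedy choice
  obtain ⟨J, hJ, hJ2, hJ3⟩ := GRD_greedy (fun v v' => Disjoint (labs T v) (labs T v')) (m ^ 2 + 1)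
    (fun a b h => h.symm) A.card A rfl (by
      intro v _
      refine ⟨insert v ((T ×ˢ T).biUnion (fun p =>
        univ.filter (fun w : ZMod (2 * q - 1) => lbl (some w) p.2 = lbl (some v) p.1))), ?_,
        Finset.mem_insert_self _ _, ?_⟩
      · refine le_trans (Finset.card_insert_le _ _) ?_
        have h1 := Finset.card_biUnion_le_card_mul (T ×ˢ T) (fun p =>
          univ.filter (fun w : ZMod (2 * q - 1) => lbl (some w) p.2 = lbl (some v) p.1)) 1
          (fun p _ => hfib p.2 _)
        rw [Finset.card_product] at h1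
        have h2 : T.card * T.card ≤ m ^ 2 := by
          rw [sq]
          exact Nat.mul_le_mul hT hT
        omega
      · intro w _ hw
        rw [Finset.not_disjoint_iff] at hw
        obtain ⟨l, hl1, hl2⟩ := hw
        obtain ⟨t, ht, ht2⟩ := (GRD_mem T v l).1 hl1
        obtain ⟨t', ht', ht'2⟩ := (GRD_mem T w l).1 hl2
        refine Finset.mem_insert_of_mem (Finset.mem_biUnion.2 ⟨(t, t'),
          Finset.mem_product.2 ⟨ht, ht'⟩, Finset.mem_filter.2 ⟨Finset.mem_univ _, ?_⟩⟩)
        exact ht'2.trans ht2.symm)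
  refine ⟨J, by omega, ?_, hJ3⟩
  intro v hv
  have h1 := hJ hv
  rw [hA, hCd, Finset.mem_filter, Finset.mem_filter] at h1
  exact ⟨h1.1.2, h1.2.1, h1.2.2⟩

end Pool.Agent.Work.MP_1ce445_plt
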