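import Pool.Agent.Work.MP_1ce445_plt.Interface

namespace Pool.Agent.Work.MP_1ce445_plt

open Finset Pool.Agent.Work.MP_1ce445_co_56 Pool.Agent.Work.MP_1ce445_lin
  Pool.Agent.Work.MP_1ce445_fx Pool.Agent.Work.MP_1ce445_stm

theorem LBR_fin (c K Z : ℝ) (hc : 1 ≤ c) (hK0 : 0 < K) (hZ1 : 1 ≤ Z)
    (hZ3 : 8 * c ^ 2 * (2 * c ^ 2 + K) ≤ Z) : 2 * c ^ 2 * Z ^ 2 - Z ^ 6 / (8 * c ^ 2) ≤ -K := by
  have hc0 : 0 < c := by linarith
  have h18 : 2 * c ^ 2 + K ≤ Z / (8 * c ^ 2) := by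
    rw [le_div_iff₀ (by positivity)]
    linarith
  have h19 : Z / (8 * c ^ 2) ≤ Z ^ 4 / (8 * c ^ 2) := by
    apply div_le_div_of_nonneg_right _ (by positivity)
    have : Z ^ 1 ≤ Z ^ 4 := pow_le_pow_right₀ hZ1 (by norm_num)
    linarith
  have h20 : 1 ≤ Z ^ 2 := one_le_pow₀ hZ1
  have h21 : Z ^ 6 / (8 * c ^ 2) = Z ^ 2 * (Z ^ 4 / (8 * c ^ 2)) := by ring
  rw [h21]
  have h22 : Z ^ 2 * (2 * c ^ 2 + K) ≤ Z ^ 2 * (Z ^ 4 / (8 * c ^ 2)) :=
    mul_le_mul_of_nonneg_left (h18.trans h19) (by positivity)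
  have h23 : 1 * K ≤ Z ^ 2 * K := mul_le_mul_of_nonneg_right h20 hK0.le
  have h24 : Z ^ 2 * (2 * c ^ 2 + K) = 2 * c ^ 2 * Z ^ 2 + Z ^ 2 * K := by ring
  linarith

theorem LBR_pow (ε x τ : ℝ) (s : ℕ) (h0 : 0 < ε) (h1 : ε < 1) (hx : 1 ≤ x) (_hτ0 : 0 < τ)
    (hsl : (s : ℝ) * ε ≤ Real.log x) (hs : 1 ≤ x ^ (1 - ε) * τ ^ s) :
    x ^ (ε / 2) / x ≤ (τ / (1 + ε ^ 2 / 4)) ^ s := by
  have hx0 : 0 < x := by linarith
  set δ : ℝ := ε ^ 2 / 4 with hδ
  have hδ0 : 0 < δ := by positivity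
  have hpow : (1 + δ) ^ s ≤ x ^ (ε / 4) := by
    have h3 : (1 + δ) ^ s ≤ Real.exp (δ * s) := by
      have h4 : 1 + δ ≤ Real.exp δ := by
        have := Real.add_one_le_exp δ
        linarith
      calc (1 + δ) ^ s ≤ (Real.exp δ) ^ s := pow_le_pow_left₀ (by positivity) h4 s
        _ = Real.exp (δ * s) := by
          rw [← Real.exp_nat_mul]
          congr 1
          ring
    refine h3.trans ?_
    rw [Real.rpow_def_of_pos hx0]
    apply Real.exp_le_exp.2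
    have h5 : δ * s = ε / 4 * ((s : ℝ) * ε) := by
      rw [hδ]
      ring
    have h6 : Real.log x * (ε / 4) = ε / 4 * Real.log x := by ring
    rw [h5, h6]
    exact mul_le_mul_of_nonneg_left hsl (by positivity)
  have hτs : x ^ (-(1 - ε)) ≤ τ ^ s := by
    rw [Real.rpow_neg hx0.le, inv_le_iff_one_le_mul₀ (by positivity)]
    rw [mul_comm]
    exact hs
  rw [div_pow, div_le_div_iff₀ hx0 (by positivity)]
  have h5 : x ^ (ε / 2) * (1 + δ) ^ s ≤ x ^ (ε / 2) * x ^ (ε / 4) :=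
    mul_le_mul_of_nonneg_left hpow (by positivity)
  have h6 : x ^ (ε / 2) * x ^ (ε / 4) ≤ x ^ (-(1 - ε)) * x := by
    conv_rhs =>
      rw [show x ^ (-(1 - ε)) * x = x ^ (-(1 - ε)) * x ^ (1 : ℝ) by rw [Real.rpow_one]]
    rw [← Real.rpow_add hx0, ← Real.rpow_add hx0]
    exact Real.rpow_le_rpow_of_exponent_le (by linarith) (by linarith)
  have h7 : x ^ (-(1 - ε)) * x ≤ τ ^ s * x := mul_le_mul_of_nonneg_right hτs hx0.le
  linarith

theorem LBR_px (c x Z : ℝ) (s : ℕ) (hc : 1 ≤ c) (hx2 : 2 ≤ x) (hZ1 : 1 ≤ Z) (hsZ : (s : ℝ) ≤ c * Z)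
    (h16 : Real.log x ≤ Z * c) : (x + 1) ^ s ≤ Real.exp (2 * c ^ 2 * Z ^ 2) := by
  have hx0 : 0 < x := by linarith
  have hlog0 : 0 < Real.log x := Real.log_pos (by linarith)
  have h14 : x + 1 ≤ x ^ 2 := by nlinarith
  have h15 : x ^ 2 = Real.exp (2 * Real.log x) := by
    rw [two_mul, Real.exp_add, Real.exp_log hx0]
    ring
  calc (x + 1) ^ s ≤ (Real.exp (2 * Real.log x)) ^ s := by
        rw [← h15]
        exact pow_le_pow_left₀ (by positivity) h14 s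
    _ = Real.exp (s * (2 * Real.log x)) := by rw [← Real.exp_nat_mul]
    _ ≤ Real.exp (2 * c ^ 2 * Z ^ 2) := by
        apply Real.exp_le_exp.2
        have h17 : (s : ℝ) * Real.log x ≤ c * Z * (Z * c) :=
          mul_le_mul hsZ h16 hlog0.le (by positivity)
        have h17' : (s : ℝ) * (2 * Real.log x) = 2 * ((s : ℝ) * Real.log x) := by ring
        have h17'' : 2 * c ^ 2 * Z ^ 2 = 2 * (c * Z * (Z * c)) := by ring
        rw [h17', h17'']
        linarith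

theorem LBR_J (c x Z P J : ℝ) (s : ℕ) (hc : 1 ≤ c) (hx2 : 2 ≤ x) (hZ1 : 1 ≤ Z) (hZx : Z ^ 2 ≤ x)
    (hZ2 : 24 * c + 28 ≤ Z) (hsZ : (s : ℝ) ≤ c * Z) (hJ : 0 ≤ J)
    (hJs : x / 3 - 4 / 3 ≤ ((s : ℝ) ^ 2 + 1) * J + 2 * s + 1) (hP : Z ^ 8 / x ≤ P) (hP0 : 0 ≤ P) :
    Z ^ 6 / (8 * c ^ 2) ≤ P * J := by
  have hx0 : 0 < x := by linarith
  have hc0 : 0 < c := by linarith
  have hJ4 : x / 4 ≤ ((s : ℝ) ^ 2 + 1) * J := by
    have h8 : 2 * (s : ℝ) + 7 / 3 ≤ x / 12 := by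
      have h81 : (24 * c + 28) * Z ≤ Z * Z := mul_le_mul_of_nonneg_right hZ2 (by linarith)
      have h82 : Z * Z = Z ^ 2 := by ring
      have h83 : (24 * c + 28) * Z = 24 * (c * Z) + 28 * Z := by ring
      linarith
    linarith
  have hs2 : (s : ℝ) ^ 2 + 1 ≤ 2 * c ^ 2 * Z ^ 2 := by
    have h9 : (s : ℝ) ^ 2 ≤ (c * Z) ^ 2 := pow_le_pow_left₀ (by positivity) hsZ 2
    have h10 : 1 ≤ (c * Z) ^ 2 := by
      have h10' : 1 ≤ c * Z := one_le_mul_of_one_le_of_one_le hc hZ1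
      exact one_le_pow₀ h10'
    have h10'' : 2 * c ^ 2 * Z ^ 2 = (c * Z) ^ 2 + (c * Z) ^ 2 := by ring
    rw [h10'']
    linarith
  have hJ5 : x / (8 * c ^ 2 * Z ^ 2) ≤ J := by
    rw [div_le_iff₀ (by positivity)]
    have h11 : ((s : ℝ) ^ 2 + 1) * J ≤ 2 * c ^ 2 * Z ^ 2 * J := mul_le_mul_of_nonneg_right hs2 hJ
    have h11' : J * (8 * c ^ 2 * Z ^ 2) = 4 * (2 * c ^ 2 * Z ^ 2 * J) := by ring
    rw [h11']
    linarith
  have h12 : Z ^ 8 / x * (x / (8 * c ^ 2 * Z ^ 2)) ≤ P * J :=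
    mul_le_mul hP hJ5 (by positivity) hP0
  have h13 : Z ^ 8 / x * (x / (8 * c ^ 2 * Z ^ 2)) = Z ^ 6 / (8 * c ^ 2) := by
    field_simp
  rw [← h13]
  exact h12

/-- the numerical part -/
theorem LBR_num (ε : ℝ) (h0 : 0 < ε) (h1 : ε < 1) : ∃ X0 : ℝ, ∀ x : ℝ, X0 ≤ x → 2 ≤ x ∧ 2 ≤ ε * x ∧
    ∀ (s : ℕ) (τ J : ℝ), 0 < τ → τ ≤ 1 - ε → 1 ≤ x ^ (1 - ε) * τ ^ s → 0 ≤ J →
      x / 3 - 4 / 3 ≤ ((s : ℝ) ^ 2 + 1) * J + 2 * s + 1 →
      3 * (x + 1) ^ s * Real.exp (-((τ / (1 + ε ^ 2 / 4)) ^ s * J)) < ε ^ 2 / 8 := by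
  set a : ℝ := ε / 16 with ha
  set c : ℝ := 16 / ε ^ 2 with hc
  set K : ℝ := 24 / ε ^ 2 with hK
  have ha0 : 0 < a := by positivity
  have he2 : ε ^ 2 ≤ 1 := by nlinarith
  have hc16 : 16 ≤ c := by
    rw [hc, le_div_iff₀ (by positivity)]
    linarith
  have hc1 : 1 ≤ c := by linarith
  have hK0 : 0 < K := by positivity
  have hac : 1 / a ≤ c := by
    rw [ha, hc, one_div_div, div_le_div_iff₀ h0 (by positivity)]
    nlinarith
  obtain ⟨X1, hX1⟩ := Filter.eventually_atTop.1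
    ((tendsto_rpow_atTop ha0).eventually_ge_atTop (1 + (24 * c + 28) + 8 * c ^ 2 * (2 * c ^ 2 + K)))
  refine ⟨max X1 2, fun x hx => ?_⟩
  have hx1 : X1 ≤ x := (le_max_left _ _).trans hx
  have hx2 : 2 ≤ x := (le_max_right _ _).trans hx
  have hx0 : 0 < x := by linarith
  have hZ := hX1 x hx1
  set Z : ℝ := x ^ a with hZd
  have hpp : 0 ≤ 8 * c ^ 2 * (2 * c ^ 2 + K) := by positivity
  have hZ1 : 1 ≤ Z := by linarith
  have hZ2 : 24 * c + 28 ≤ Z := by linarith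
  have hZ3 : 8 * c ^ 2 * (2 * c ^ 2 + K) ≤ Z := by linarith
  have hZ16 : Z ^ 16 = x ^ ε := by
    rw [hZd, ← Real.rpow_natCast, ← Real.rpow_mul hx0.le, ha]
    congr 1
    push_cast
    ring
  have hZ8 : Z ^ 8 = x ^ (ε / 2) := by
    rw [hZd, ← Real.rpow_natCast, ← Real.rpow_mul hx0.le, ha]
    congr 1
    push_cast
    ring
  have hxε : x ^ ε ≤ x := by
    conv_rhs => rw [← Real.rpow_one x]
    exact Real.rpow_le_rpow_of_exponent_le (by linarith) h1.le
  have hZx : Z ^ 2 ≤ x := by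
    have : Z ^ 2 ≤ Z ^ 16 := pow_le_pow_right₀ hZ1 (by norm_num)
    linarith
  have hZx1 : Z ≤ x := by
    have : Z ^ 1 ≤ Z ^ 2 := pow_le_pow_right₀ hZ1 (by norm_num)
    linarith
  have hlog : Real.log x ≤ Z * (1 / a) := by
    have := Real.log_le_rpow_div hx0.le ha0
    rw [← hZd] at this
    rw [mul_one_div]
    exact this
  refine ⟨hx2, ?_, ?_⟩
  · have h3 : 24 * c ≤ x := by linarith
    have h4 : ε * c = 16 / ε := by
      rw [hc]
      field_simp
    have h5 : 16 ≤ 16 / ε := by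
      rw [le_div_iff₀ h0]
      linarith
    have h6 : ε * (24 * c) ≤ ε * x := mul_le_mul_of_nonneg_left h3 h0.le
    have h7 : ε * (24 * c) = 24 * (ε * c) := by ring
    linarith
  · intro s τ J hτ0 hτ1 hs hJ hJs
    have hlτ : Real.log τ ≤ -ε := by
      have := Real.log_le_sub_one_of_pos hτ0
      linarith
    have hlog0 : 0 < Real.log x := Real.log_pos (by linarith)
    have hsl : (s : ℝ) * ε ≤ Real.log x := by
      have h2 : 0 ≤ Real.log (x ^ (1 - ε) * τ ^ s) := Real.log_nonneg hs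
      rw [Real.log_mul (by positivity) (by positivity), Real.log_rpow hx0, Real.log_pow] at h2
      have h3 : (s : ℝ) * Real.log τ ≤ s * (-ε) := mul_le_mul_of_nonneg_left hlτ (by positivity)
      have h4 : (1 - ε) * Real.log x ≤ 1 * Real.log x := mul_le_mul_of_nonneg_right (by linarith) hlog0.le
      linarith
    have hsZ : (s : ℝ) ≤ c * Z := by
      have hsε : (s : ℝ) ≤ Real.log x / ε := by
        rw [le_div_iff₀ h0]
        exact hsl
      refine hsε.trans ?_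
      rw [div_le_iff₀ h0]
      have h4 : c * Z * ε = Z * (1 / a) := by
        rw [hc, ha]
        field_simp
      rw [h4]
      exact hlog
    have hps := LBR_pow ε x τ s h0 h1 (by linarith) hτ0 hsl hs
    rw [← hZ8] at hps
    have hδ0 : 0 < 1 + ε ^ 2 / 4 := by positivity
    have hexp := LBR_J c x Z _ J s hc1 hx2 hZ1 hZx hZ2 hsZ hJ hJs hps (by positivity)
    have hpx := LBR_px c x Z s hc1 hx2 hZ1 hsZ (hlog.trans (mul_le_mul_of_nonneg_left hac (by positivity)))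
    have hfin := LBR_fin c K Z hc1 hK0 hZ1 hZ3
    have hK3 : 3 * Real.exp (-K) < ε ^ 2 / 8 := by
      have h23 : K < Real.exp K := by
        have := Real.add_one_le_exp K
        linarith
      rw [Real.exp_neg]
      have h24 : (Real.exp K)⁻¹ < K⁻¹ := by
        rw [inv_lt_inv₀ (Real.exp_pos _) hK0]
        exact h23
      have h25 : 3 * K⁻¹ = ε ^ 2 / 8 := by
        rw [hK]
        field_simp
        norm_num
      linarith
    calc 3 * (x + 1) ^ s * Real.exp (-((τ / (1 + ε ^ 2 / 4)) ^ s * J))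
        ≤ 3 * Real.exp (2 * c ^ 2 * Z ^ 2) * Real.exp (-(Z ^ 6 / (8 * c ^ 2))) := by
          apply mul_le_mul _ _ (Real.exp_pos _).le (by positivity)
          · exact mul_le_mul_of_nonneg_left hpx (by norm_num)
          · apply Real.exp_le_exp.2
            linarith
      _ = 3 * Real.exp (2 * c ^ 2 * Z ^ 2 - Z ^ 6 / (8 * c ^ 2)) := by
          rw [mul_assoc, ← Real.exp_add]
          congr 2
      _ ≤ 3 * Real.exp (-K) := by
          apply mul_le_mul_of_nonneg_left _ (by norm_num)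
          exact Real.exp_le_exp.2 hfin
      _ < ε ^ 2 / 8 := hK3

/-- union bound -/
theorem LBR_union {α γ : Type} [Fintype α] [DecidableEq α] (w : Finset α → ℝ) (hw0 : ∀ L, 0 ≤ w L)
    (hw1 : ∑ L, w L = 1) (p : ℝ) (hS : ∀ S : Finset α, ∑ L, (if S ⊆ L then w L else 0) = p ^ S.card)
    (m : ℕ) (hm : 0 < m) (C : Finset γ) (E : γ → Finset α → Prop) [∀ c L, Decidable (E c L)] (B : ℝ)
    (hB : ∀ c ∈ C, ∑ L, (if E c L then w L else 0) ≤ B)
    (hsum : Fintype.card α * p / m + C.card * B < 1) : ∃ L : Finset α, L.card ≤ m ∧ ∀ c ∈ C, ¬ E c L := by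
  by_contra hcon
  push Not at hcon
  have hm' : (0 : ℝ) < m := by exact_mod_cast hm
  have h1 : ∀ L, w L ≤ w L * L.card / m + ∑ c ∈ C, (if E c L then w L else 0) := by
    intro L
    have hn1 : 0 ≤ w L * L.card / m := div_nonneg (mul_nonneg (hw0 L) (by positivity)) hm'.le
    have hn2 : ∀ c ∈ C, 0 ≤ (if E c L then w L else 0) := by
      intro c _
      split_ifs
      · exact hw0 L
      · exact le_refl _
    by_cases hL : L.card ≤ m
    · obtain ⟨c, hc, hE⟩ := hcon L hL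
      have h2 : (if E c L then w L else 0) ≤ ∑ c ∈ C, (if E c L then w L else 0) :=
        single_le_sum (f := fun c => if E c L then w L else 0) hn2 hc
      rw [if_pos hE] at h2
      linarith
    · have h3 : (m : ℝ) ≤ L.card := by
        push Not at hL
        exact_mod_cast hL.le
      have h4 : w L ≤ w L * L.card / m := by
        rw [le_div_iff₀ hm']
        exact mul_le_mul_of_nonneg_left h3 (hw0 L)
      have h5 : 0 ≤ ∑ c ∈ C, (if E c L then w L else 0) := sum_nonneg hn2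
      linarith
  have h2 : ∑ L, w L ≤ ∑ L, (w L * L.card / m + ∑ c ∈ C, (if E c L then w L else 0)) :=
    sum_le_sum fun L _ => h1 L
  rw [sum_add_distrib, hw1] at h2
  have h3 : ∑ L, w L * (L.card : ℝ) / m = Fintype.card α * p / m := by
    rw [← sum_div]
    congr 1
    have h31 : ∀ L : Finset α, w L * (L.card : ℝ) = ∑ l : α, (if ({l} : Finset α) ⊆ L then w L else 0) := by
      intro L
      simp only [singleton_subset_iff]
      rw [← sum_filter, sum_const, nsmul_eq_mul, mul_comm]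
      congr 2
      congr 1
      ext l
      simp
    rw [sum_congr rfl fun L _ => h31 L, sum_comm, sum_congr rfl fun l _ => hS {l}]
    simp only [card_singleton, pow_one, sum_const, nsmul_eq_mul, card_univ]
  have h4 : ∑ L, ∑ c ∈ C, (if E c L then w L else 0) ≤ C.card * B := by
    rw [sum_comm]
    refine (sum_le_sum hB).trans ?_
    rw [sum_const, nsmul_eq_mul]
  rw [h3] at h2
  linarith

/-- number of the small subsets -/
theorem LBR_count {β : Type} [Fintype β] [DecidableEq β] (s : ℕ) :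
    ((univ : Finset (Finset β)).filter (fun T => T.card ≤ s)).card ≤ (Fintype.card β + 1) ^ s := by
  have h1 : (univ : Finset (Finset β)).filter (fun T => T.card ≤ s) ⊆
      (range (s + 1)).biUnion (fun i => powersetCard i univ) := by
    intro T hT
    rw [mem_filter] at hT
    rw [mem_biUnion]
    exact ⟨T.card, mem_range.2 (by omega), mem_powersetCard.2 ⟨subset_univ _, rfl⟩⟩
  refine (card_le_card h1).trans (card_biUnion_le.trans ?_)
  rw [add_pow]
  apply sum_le_sum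
  intro i hi
  rw [mem_range] at hi
  rw [card_powersetCard, card_univ, one_pow, mul_one]
  have h2 : (Fintype.card β).choose i ≤ Fintype.card β ^ i := Nat.choose_le_pow _ _
  have h3 : 1 ≤ s.choose i := Nat.choose_pos (by omega)
  calc (Fintype.card β).choose i ≤ Fintype.card β ^ i * 1 := by rw [mul_one]; exact h2
    _ ≤ Fintype.card β ^ i * s.choose i := Nat.mul_le_mul_left _ h3

/-- product of probabilities -/
theorem LBR_prod {β : Type} (p : ℝ) (hp0 : 0 ≤ p) (hp1 : p ≤ 1) (s : ℕ) (J : Finset β) (f : β → ℕ)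
    (hf : ∀ v ∈ J, f v ≤ s) : ∏ v ∈ J, (1 - p ^ f v) ≤ Real.exp (-(p ^ s * J.card)) := by
  have h1 : ∏ v ∈ J, (1 - p ^ f v) ≤ ∏ _v ∈ J, Real.exp (-(p ^ s)) := by
    apply prod_le_prod
    · intro v _
      have : p ^ f v ≤ 1 := pow_le_one₀ hp0 hp1
      linarith
    · intro v hv
      have h2 : p ^ s ≤ p ^ f v := pow_le_pow_of_le_one hp0 hp1 (hf v hv)
      have h3 := Real.add_one_le_exp (-(p ^ s))
      linarith
  refine h1.trans (le_of_eq ?_)
  rw [prod_const, ← Real.exp_nat_mul]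
  congr 1
  ring

/-- LBR without the lower bound for `m` -/
theorem LBR_strong (hRW1 : Stmt_RW1) (hRW2 : Stmt_RW2) (hGRD : Stmt_GRD) :
    ∀ ε : ℝ, 0 < ε → ε < 1 → ∃ q0 : ℕ, ∀ q m r : ℕ, q0 ≤ q → 1 ≤ r → (m : ℝ) ≤ (1 - ε) * (2 * q) →
    1 ≤ (2 * (q : ℝ)) ^ (1 - ε) * ((m : ℝ) / (2 * q)) ^ (r - 1) →
    ∃ L : Finset (ZMod (2 * q - 1)), L.card = m ∧ Good r q 1 one_pos L := by
  classical
  intro ε h0 h1
  obtain ⟨X0, hX0⟩ := LBR_num ε h0 h1
  refine ⟨max 3 ⌈X0⌉₊, fun q m r hq hr hm1 hx => ?_⟩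
  have hq3 : 3 ≤ q := (le_max_left _ _).trans hq
  have hq2 : 2 ≤ q := by omega
  have hqX : X0 ≤ 2 * (q : ℝ) := by
    have h2 : X0 ≤ (q : ℝ) := (Nat.le_ceil X0).trans (by exact_mod_cast (le_max_right _ _).trans hq)
    have h3 : (0 : ℝ) ≤ q := by positivity
    linarith
  obtain ⟨hx2, hεx, hnum⟩ := hX0 (2 * q) hqX
  have : NeZero (2 * q - 1) := ⟨by omega⟩
  have hq0 : (0 : ℝ) < 2 * q := by linarith
  have ht : m ≤ ((univ : Finset (ZMod (2 * q - 1))).erase 0).card := by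
    rw [card_erase_of_mem (mem_univ _), card_univ, ZMod.card]
    have h2 : (m : ℝ) + 2 ≤ 2 * q := by
      have h3 : (1 - ε) * (2 * (q : ℝ)) = 2 * q - ε * (2 * q) := by ring
      linarith
    have h4 : m + 2 ≤ 2 * q := by exact_mod_cast h2
    omega
  by_cases hr1 : r = 1
  · subst hr1
    obtain ⟨L, hL2, hL3⟩ := exists_subset_card_eq ht
    refine ⟨L, hL3, fun hh => (notMem_erase 0 _) (hL2 hh), ?_⟩
    intro T j x hT
    have hT0 : T = ∅ := card_eq_zero.1 (by omega)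
    obtain ⟨J, hJ1, hJ2, -⟩ := hGRD q 0 T j hq2 (by omega)
    have hJ0 : 0 < J.card := by omega
    obtain ⟨v, hv⟩ := card_pos.1 hJ0
    obtain ⟨hv1, hv2, -⟩ := hJ2 v hv
    refine ⟨some v, hv1, Subsingleton.elim _ _, hv2, fun t ht' => ?_⟩
    rw [hT0] at ht'
    exact absurd ht' (notMem_empty t)
  set s : ℕ := r - 1 with hs
  have hs1 : s ≠ 0 := by omega
  have hm0 : 0 < m := by
    rcases Nat.eq_zero_or_pos m with hm | hm
    · rw [hm, Nat.cast_zero, zero_div, zero_pow hs1, mul_zero] at hx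
      exact absurd hx (by norm_num)
    · exact hm
  have hm0' : (0 : ℝ) < m := by exact_mod_cast hm0
  set τ : ℝ := (m : ℝ) / (2 * q) with hτd
  have hτ1 : τ ≤ 1 - ε := by
    rw [hτd, div_le_iff₀ hq0]
    exact hm1
  have hτ0 : 0 < τ := by positivity
  set δ : ℝ := ε ^ 2 / 4 with hδ
  have hδ0 : 0 < δ := by positivity
  have hδ1 : δ < 1 := by
    rw [hδ]
    nlinarith
  set p : ℝ := τ / (1 + δ) with hp
  have hp0 : 0 ≤ p := by positivity
  have hp1 : p ≤ 1 := by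
    rw [hp, div_le_one (by positivity)]
    linarith
  obtain ⟨w, hw0, hw1, hwS⟩ := hRW1 (ZMod (2 * q - 1)) p hp0 hp1
  have hG : ∀ c : Finset (Option (ZMod (2 * q - 1))) × Fin 3, ∃ J : Finset (ZMod (2 * q - 1)),
      c.1.card ≤ s → 2 * (q / 3) ≤ (s ^ 2 + 1) * J.card + 2 * s + 1 ∧
      (∀ v ∈ J, cls (some v) = c.2 ∧ some v ∉ c.1 ∧ 0 ∉ labs c.1 v) ∧
      ∀ v ∈ J, ∀ v' ∈ J, v ≠ v' → Disjoint (labs c.1 v) (labs c.1 v') := by
    intro c
    by_cases hc : c.1.card ≤ s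
    · obtain ⟨J, hJ⟩ := hGRD q s c.1 c.2 hq2 hc
      exact ⟨J, fun _ => hJ⟩
    · exact ⟨∅, fun h => absurd h hc⟩
  choose J hJ using hG
  set C : Finset (Finset (Option (ZMod (2 * q - 1))) × Fin 3) :=
    ((univ : Finset (Finset (Option (ZMod (2 * q - 1))))).filter (fun T => T.card ≤ s)) ×ˢ univ with hC
  have hmemC : ∀ c, c ∈ C ↔ c.1.card ≤ s := by
    intro c
    rw [hC, mem_product, mem_filter]
    exact ⟨fun h => h.1.2, fun h => ⟨⟨mem_univ _, h⟩, mem_univ _⟩⟩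
  have hcardO : Fintype.card (Option (ZMod (2 * q - 1))) = 2 * q := by
    rw [Fintype.card_option, ZMod.card]
    omega
  have hCc : (C.card : ℝ) ≤ 3 * (2 * (q : ℝ) + 1) ^ s := by
    have h2 := LBR_count (β := Option (ZMod (2 * q - 1))) s
    rw [hcardO] at h2
    have h3 : C.card ≤ (2 * q + 1) ^ s * 3 := by
      rw [hC, card_product, card_univ, Fintype.card_fin]
      exact Nat.mul_le_mul_right _ h2
    have h4 : (C.card : ℝ) ≤ (((2 * q + 1) ^ s * 3 : ℕ) : ℝ) := by exact_mod_cast h3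
    refine h4.trans (le_of_eq ?_)
    push_cast
    ring
  set D : ℝ := 3 * (2 * (q : ℝ) + 1) ^ s with hD
  have hD0 : 0 < D := by positivity
  have hlabs : ∀ (T : Finset (Option (ZMod (2 * q - 1)))) (v : ZMod (2 * q - 1)), (labs T v).card ≤ T.card := by
    intro T v
    unfold labs
    exact card_image_le
  have hB : ∀ c ∈ C, ∑ L, (if ∀ v ∈ J c, ¬ labs c.1 v ⊆ L then w L else 0) ≤ ε ^ 2 / 8 / D := by
    intro c hc
    have hcs := (hmemC c).1 hc
    obtain ⟨hj1, hj2, hj3⟩ := hJ c hcs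
    have h2 := hRW2 (ZMod (2 * q - 1)) (ZMod (2 * q - 1)) p w hwS (J c) (fun v => labs c.1 v) hj3
    have h3 := LBR_prod p hp0 hp1 s (J c) (fun v => (labs c.1 v).card)
      (fun v _ => (hlabs c.1 v).trans hcs)
    have h4 := hnum s τ (J c).card hτ0 hτ1 hx (by positivity) (by
      have h5 : 2 * q ≤ 3 * ((s ^ 2 + 1) * (J c).card + 2 * s + 1) + 4 := by omega
      have h6 : (2 * q : ℝ) ≤ 3 * (((s : ℝ) ^ 2 + 1) * (J c).card + 2 * s + 1) + 4 := by exact_mod_cast h5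
      linarith)
    rw [le_div_iff₀ hD0]
    have h7 : ∑ L, (if ∀ v ∈ J c, ¬ labs c.1 v ⊆ L then w L else 0) ≤ Real.exp (-(p ^ s * (J c).card)) := by
      refine le_trans (le_of_eq ?_) h3
      rw [← h2]
      refine sum_congr rfl fun L _ => ?_
      by_cases hh : ∀ v ∈ J c, ¬ labs c.1 v ⊆ L
      · rw [if_pos hh, if_pos hh]
      · rw [if_neg hh, if_neg hh]
    have h8 : (∑ L, (if ∀ v ∈ J c, ¬ labs c.1 v ⊆ L then w L else 0)) * D ≤
        Real.exp (-(p ^ s * (J c).card)) * D := mul_le_mul_of_nonneg_right h7 hD0.le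
    have h9 : Real.exp (-(p ^ s * (J c).card)) * D < ε ^ 2 / 8 := by
      rw [mul_comm]
      exact h4
    linarith
  have hsum : Fintype.card (ZMod (2 * q - 1)) * p / m + C.card * (ε ^ 2 / 8 / D) < 1 := by
    have h2 : C.card * (ε ^ 2 / 8 / D) ≤ δ / 2 := by
      have h3 : C.card * (ε ^ 2 / 8 / D) ≤ D * (ε ^ 2 / 8 / D) :=
        mul_le_mul_of_nonneg_right hCc (by positivity)
      have h4 : D * (ε ^ 2 / 8 / D) = δ / 2 := by
        rw [mul_div_cancel₀ _ hD0.ne', hδ]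
        ring
      linarith
    have h5 : (Fintype.card (ZMod (2 * q - 1)) : ℝ) * p / m ≤ 1 / (1 + δ) := by
      rw [ZMod.card, div_le_div_iff₀ hm0' (by positivity), hp, one_mul]
      have h6 : ((2 * q - 1 : ℕ) : ℝ) ≤ 2 * q := by
        have : 2 * q - 1 ≤ 2 * q := by omega
        exact_mod_cast this
      have h7 : ((2 * q - 1 : ℕ) : ℝ) * (τ / (1 + δ)) * (1 + δ) = ((2 * q - 1 : ℕ) : ℝ) * τ := by
        field_simp
      rw [h7]
      have h8 : ((2 * q - 1 : ℕ) : ℝ) * τ ≤ 2 * q * τ := mul_le_mul_of_nonneg_right h6 hτ0.le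
      have h9 : 2 * (q : ℝ) * τ = m := by
        rw [hτd]
        field_simp
      linarith
    have h10 : 1 / (1 + δ) + δ / 2 < 1 := by
      have h11 : 1 / (1 + δ) = 1 - δ / (1 + δ) := by
        field_simp
        ring
      have h12 : δ / 2 < δ / (1 + δ) := by
        rw [div_lt_div_iff₀ (by norm_num) (by positivity)]
        nlinarith
      linarith
    linarith
  obtain ⟨L0, hL0, hL0E⟩ := LBR_union w hw0 hw1 p hwS m hm0 C
    (fun c L => ∀ v ∈ J c, ¬ labs c.1 v ⊆ L) _ hB hsum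
  obtain ⟨L, hL1, hL2, hL3⟩ := exists_subsuperset_card_eq
    (erase_subset_erase 0 (subset_univ L0)) ((card_le_card (erase_subset 0 L0)).trans hL0) ht
  refine ⟨L, hL3, fun hh => (notMem_erase 0 _) (hL2 hh), ?_⟩
  intro T j x hT
  have hc : ((T, j) : Finset (Option (ZMod (2 * q - 1))) × Fin 3) ∈ C := (hmemC _).2 hT
  have hE := hL0E _ hc
  push Not at hE
  obtain ⟨v, hv, hvL⟩ := hE
  obtain ⟨-, hj2, -⟩ := hJ (T, j) hT
  obtain ⟨hv1, hv2, hv3⟩ := hj2 v hv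
  refine ⟨some v, hv1, Subsingleton.elim _ _, hv2, fun t ht => hL1 ?_⟩
  have hmem : lbl (some v) t ∈ labs T v := by
    unfold labs
    exact mem_image_of_mem _ ht
  rw [mem_erase]
  refine ⟨fun hh => hv3 ?_, hvL hmem⟩
  rw [← hh]
  exact hmem

theorem stmt_LBR : Stmt_RW1 → Stmt_RW2 → Stmt_GRD → Stmt_LBR := by
  intro hRW1 hRW2 hGRD ε h0 h1
  obtain ⟨q0, h⟩ := LBR_strong hRW1 hRW2 hGRD ε h0 h1
  exact ⟨q0, fun q m r hq hr hm1 _ hx => h q m r hq hr hm1 hx⟩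

end Pool.Agent.Work.MP_1ce445_plt
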