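import Pool.Agent.Work.MP_1ce445_plt.Interface

/-!
THE WHOLE PLATEAU (helper28), second phase of `MP_1ce445_plt`: the same second order term uniformly for all
`k ≥ (1 - 1/M) n + M` up to `(k/n)^(M+1) + ε ≤ (1 - 1/M)^M` (not only `ε ≤ τ`). `τ = tau n k M = M k/n - (M - 1) = M tt/n`,
`ρ = log n/(- log τ)` (so `n τ^ρ = 1`): for `2M ∣ n`, `n ≥ n0(M, ε)`:
`n^(k-M) (n - n/M + (1-ε) ρ)^M ≤ P n k ≤ n^(k-M) (n - n/M + (1+ε) ρ + 1)^M`.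

Files `Pool/Agent/Work/MP_1ce445_plt/<ID>.lean`, `import Pool.Agent.Work.MP_1ce445_plt.Interface2`, `namespace` and `open` lines as in
this file, theorem `stmt_<ID>` with exactly the statements of the column `uses` as hypotheses, in this order. Constants are
never sharp. `stm.` = `Pool.Agent.Work.MP_1ce445_stm`.
-/

namespace Pool.Agent.Work.MP_1ce445_plt

open Finset Pool.Agent.Work.MP_1ce445_co_56 Pool.Agent.Work.MP_1ce445_lin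
  Pool.Agent.Work.MP_1ce445_fx Pool.Agent.Work.MP_1ce445_stm

/-- ERU (150 lines; uses `stm.Stmt_EMO` `stm.Stmt_DMO` `stm.Stmt_XBD`; model `MP_1ce445_stm/ERS.lean`), `ERS` uniform in `r`.
`a₁ … a₇` as there, `∑_v (32 ev v)^r ≤ A^r n^(-r) ∑_j ∑_v a_j^r` with `A = 224 M`. `A^r n (M |ov|/n)^r = |ov| A M (A M |ov|/n)^(r-1)
≤ (A M)² s |ov|` if `A M s ≤ 1`; `A^r n ((M+1) t/n)^r ≤ n (2 A τ)^r` (`τ = M t/n`); with `D = ∑ dd ≤ M Δ n`: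
`A^r n (2M² D/n²)^r ≤ n (2 A M³ Δ/n)^r`; with `E = ∑ EE ≤ 3 Ls²`: `A^r n (2M² E/n²)^r = (E/n) (2AM²) (2AM² E/n²)^(r-1) ≤ 6 A M² s Ls`
if `6 A M² s² ≤ 1`; `A^r n (2 M Xb/n)^r = Xb (2AM) (2AM Xb/n)^(r-1) ≤ 8 A² M⁴ θ Xb` if `4 A M³ θ ≤ 1`; `A^r n^(-r) ∑ dd^r ≤ n (A M Δ/n)^r`;
`A^r n^(-r) ∑ EE^r ≤ 3 Ls (A Ls/n)^r ≤ 3 A s Ls` if `A s ≤ 1`. So with `K = 100 A² M⁴` and `K s ≤ 1`, `K θ ≤ 1` everything holds. -/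
def Stmt_ERU : Prop :=
  ∀ M : ℕ, 2 ≤ M → ∃ K : ℝ, 1 ≤ K ∧
    ∀ (n k r Δ : ℕ) (G : Fin k → SimpleGraph (Fin n)) (e : Fin M → Fin k) (θ s : ℝ),
    St G e θ s → K * s ≤ 1 → K * θ ≤ 1 → 2 ≤ r → Δ ≤ n →
    (∀ i v, MP_1ce445_fx.dg (G (e i)) (low (G (e i)) θ) v ≤ Δ) →
    32 ^ r * ∑ v, ev G e θ v ^ r ≤ n * (K * (M * tt n k M / n)) ^ r + n * (K * (Δ / n)) ^ r +
      K * (s * (ov G e θ).card + s * Ls G e + θ * Xb G e θ)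

/-- UN1 (80 lines; uses `stm.Stmt_SUR` `stm.Stmt_GAI` ERU). `θ₀ = 1/(8K)`, `s₀` with `8 K s₀ ≤ θ`, `100 K s₀ ≤ 1`. GAI, ERU:
`∑_v ∑_i (1 - x_i)^r ≤ (M-1) n - (θ - Δ/n)/4 |ov| - Xb/4 + n (Kτ)^r + n (KΔ/n)^r + K s |ov| + K s Ls + K θ Xb`; `Δ/n ≤ θ/2`, so
the `ov`-terms are `≤ (- θ/8 + K s) |ov| ≤ 0`. SUR, first part. -/
def Stmt_UN1 : Prop :=
  ∀ M : ℕ, 2 ≤ M → ∃ K θ₀ : ℝ, 1 ≤ K ∧ 0 < θ₀ ∧ ∀ θ : ℝ, 0 < θ → θ ≤ θ₀ → ∃ s₀ : ℝ, 0 < s₀ ∧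
    ∀ s : ℝ, 0 < s → s ≤ s₀ →
    ∀ (n k r Δ : ℕ) (G : Fin k → SimpleGraph (Fin n)) (e : Fin M → Fin k), St G e θ s → 2 ≤ r →
    Δ ≤ n → (∀ i v, MP_1ce445_fx.dg (G (e i)) (low (G (e i)) θ) v ≤ Δ) → (Δ : ℝ) ≤ θ / 2 * n →
    gs G e ≤ ((M : ℝ) - 1) * n + M * r + n * (K * (M * tt n k M / n)) ^ r + n * (K * (Δ / n)) ^ r +
      Ls G e / 100

/-- ADV (120 lines; uses `stm.Stmt_SUR` `stm.Stmt_GAI` `stm.Stmt_XBD` `stm.Stmt_ERS`): copy of `MP_1ce445_stm/ADR.lean` for `r = 2`, second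
case (`Δ ≥ 2` attained), with `δ = tt²/n` instead of a small `δ`: `gs ≤ (M-1) n + 2M + 1 + K₁ tt²/n + Ls/100 + Δ/40 - (3/4) Δ`. -/
def Stmt_ADV : Prop :=
  ∀ M : ℕ, 2 ≤ M → ∃ K θ₀ : ℝ, 1 ≤ K ∧ 0 < θ₀ ∧ ∀ θ : ℝ, 0 < θ → θ ≤ θ₀ → ∃ s₀ : ℝ, 0 < s₀ ∧
    ∀ s : ℝ, 0 < s → s ≤ s₀ →
    ∀ (n k Δ : ℕ) (G : Fin k → SimpleGraph (Fin n)) (e : Fin M → Fin k), St G e θ s → 2 ≤ Δ →
    (∀ i v, MP_1ce445_fx.dg (G (e i)) (low (G (e i)) θ) v ≤ Δ) →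
    (∃ i v, MP_1ce445_fx.dg (G (e i)) (low (G (e i)) θ) v = Δ) →
    gs G e ≤ ((M : ℝ) - 1) * n + 2 * M + 1 + K * (tt n k M ^ 2 / n) + Ls G e / 100 - Δ / 2

/-- UNI (80 lines; uses UN1 ADV). `θ` = the minimum of the two `θ₀` and `1/(12M²)`, `s` likewise (and `4 M s ≤ 1`). `Δ` = the maximum of the
`dg (G (e i)) low_i v`. If `Δ ≥ 2` and `Δ/2 ≥ K tt²/n + 1`: ADV (`Mr ≥ 2M`). Otherwise `Δ ≤ 2 K tt²/n + 2`, and with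
`tt = τ n/M`, `1/n ≤ τ ≤ 1`: `Δ/n ≤ 2 K τ² + 2/n ≤ (2K+2) τ ≤ θ/2` for `τ ≤ ε₁ = θ/(4K+4)`: UN1, and
`(K₁ τ)^r + (K₁ (2K+2) τ)^r ≤ (C τ)^r` with `C = 2 K₁ (2K+2)`. -/
def Stmt_UNI : Prop :=
  ∀ M : ℕ, 2 ≤ M → ∃ θ s C ε₁ : ℝ, 0 < θ ∧ 12 * (M : ℝ) ^ 2 * θ ≤ 1 ∧ 0 < s ∧
    4 * (M : ℝ) * s ≤ 1 ∧ 1 ≤ C ∧ 0 < ε₁ ∧
    ∀ (n k r : ℕ) (G : Fin k → SimpleGraph (Fin n)) (e : Fin M → Fin k), St G e θ s → 2 ≤ r →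
    1 / (n : ℝ) ≤ tau n k M → tau n k M ≤ ε₁ →
    gs G e ≤ ((M : ℝ) - 1) * n + M * r + n * (C * tau n k M) ^ r + Ls G e / 100

/-- UPU (120 lines; uses `stm.Stmt_PRR` SB2 UNI UPP; model `MP_1ce445_stm/UFR.lean`). `ε₂ ≤ ε₁` with `log C ≤ (ε/4) (- log ε₂)`, `ε₂ ≤ ε`. If `τ ≥ ε₂`:
UPP for `ε₂`. If `τ < ε₂`: `r = ⌊(1+ε) ρ⌋ + 1`, `ρ ≥ 1` as `τ ≥ 1/n`, so `2 ≤ r`, `(1+ε) ρ ≤ r ≤ (1+ε) ρ + 1`, and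
`n (Cτ)^r ≤ exp (log n (1 - (1+ε) (1-ε/4))) ≤ n^(-ε/4) ≤ 1/10` for large `n`. If the product is larger than the bound:
SB2, UNI, then as in UFR (`Ls ≥ 1`: PRR with `R = 1/10 + Ls/100`; `Ls = 0`: `gs` is an integer). -/
def Stmt_UPU : Prop :=
  ∀ M : ℕ, 2 ≤ M → ∀ ε : ℝ, 0 < ε → ε < 1 → ∃ n0 : ℕ, ∀ n k : ℕ, n0 ≤ n → Even n →
    1 / (n : ℝ) ≤ tau n k M → ((k : ℝ) / n) ^ (M + 1) + ε ≤ (1 - 1 / (M : ℝ)) ^ M →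
    (P n k : ℝ) ≤ (n : ℝ) ^ (k - M) *
      (n - n / M + (1 + ε) * (Real.log n / (- Real.log (tau n k M))) + 1) ^ M

/-- LBU (uses RW1 RW2 GRD): `Stmt_LBR` without the hypothesis `ε * (2q) ≤ m`, same proof (for `r ≥ 2` the last hypothesis gives
`m ≥ (2q)^ε`; for `r = 1` only `T = ∅`). -/
def Stmt_LBU : Prop :=
  ∀ ε : ℝ, 0 < ε → ε < 1 → ∃ q0 : ℕ, ∀ q m r : ℕ, q0 ≤ q → 1 ≤ r → (m : ℝ) ≤ (1 - ε) * (2 * q) →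
    1 ≤ (2 * (q : ℝ)) ^ (1 - ε) * ((m : ℝ) / (2 * q)) ^ (r - 1) →
    ∃ L : Finset (ZMod (2 * q - 1)), L.card = m ∧ Good r q 1 one_pos L

/-- SLU (uses LBU `fx.Stmt_SCR` `fx.Stmt_GS1` `fx.Stmt_GS2` `fx.Stmt_GS3`): `Stmt_SLP` with `M ≤ t` instead of `ε (2q) ≤ t`; `r ≤ 2`: `SL2` of
`MP_1ce445_stm/SL2.lean` (its condition `2 t ≤ q` is only used for `t ≤ 2q - 1`); `r ≥ 3`: `t ≥ (2q)^(ε)`. -/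
def Stmt_SLU : Prop :=
  ∀ M : ℕ, 2 ≤ M → ∀ ε : ℝ, 0 < ε → ε < 1 → ∃ q0 : ℕ, ∀ q t r : ℕ, q0 ≤ q → 1 ≤ r →
    (t : ℝ) ≤ (1 - ε) * (2 * q) → M ≤ t →
    1 ≤ (2 * (q : ℝ)) ^ (1 - ε) * ((t : ℝ) / (2 * q)) ^ (r - 1) →
    (2 * M * q) ^ ((2 * M - 2) * q + t - M) * (2 * (M - 1) * q + r) ^ M ≤
      P (2 * M * q) ((2 * M - 2) * q + t)

/-- FPU (uses UPU SLU; model `FPL.lean`). `t = k - (2M-2) q ≥ M`, `τ = t/(2q)`, so `τ ≥ 1/n`; `τ ≤ 2/3`. -/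
def Stmt_FPU : Prop :=
  ∀ M : ℕ, 2 ≤ M → ∀ ε : ℝ, 0 < ε → ε < 1 → ∃ n0 : ℕ, ∀ n k : ℕ, n0 ≤ n → 2 * M ∣ n →
    (M - 1) * n + M * M ≤ M * k → ((k : ℝ) / n) ^ (M + 1) + ε ≤ (1 - 1 / (M : ℝ)) ^ M →
    (n : ℝ) ^ (k - M) * (n - n / M + (1 - ε) * (Real.log n / (- Real.log (tau n k M)))) ^ M ≤
      (P n k : ℝ) ∧
    (P n k : ℝ) ≤ (n : ℝ) ^ (k - M) *
      (n - n / M + (1 + ε) * (Real.log n / (- Real.log (tau n k M))) + 1) ^ M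

end Pool.Agent.Work.MP_1ce445_plt
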