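import Pool.Agent.Work.MP_1ce445_plt.Interface2
import Pool.Agent.Work.MP_1ce445_stm.SL2

/-!
The plateau theorem: the whole plateau for `2M ∣ n`, from `FPU`, `FIR` and `FI2`.
-/

namespace Pool.Agent.Work.MP_1ce445_plt

open Finset Pool.Agent.Work.MP_1ce445_co_56 Pool.Agent.Work.MP_1ce445_lin
  Pool.Agent.Work.MP_1ce445_fx Pool.Agent.Work.MP_1ce445_stm

/-- Let `n` be a large multiple of `2M`, `k ≥ (1 - 1/M) n + M` and `(k/n)^(M+1) + ε ≤ (1 - 1/M)^M`, `τ = M k/n - (M - 1)`. Then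
`P n k = n^(k-M) (n - n/M + R)^M` with `(1-ε) ρ ≤ R ≤ (1+ε) ρ + 1`, `ρ = log n/(- log τ)`, and `R = r` if
`n τ^r ≤ δ` and (`r = 2` or `C ≤ n τ^(r-1)`). -/
def Stmt_PLA : Prop :=
  ∀ M r : ℕ, 2 ≤ M → 2 ≤ r → ∀ ε : ℝ, 0 < ε → ε < 1 → ∃ (C δ : ℝ) (n0 : ℕ), 0 < δ ∧
    ∀ n k : ℕ, n0 ≤ n → 2 * M ∣ n → (M - 1) * n + M * M ≤ M * k →
    ((k : ℝ) / n) ^ (M + 1) + ε ≤ (1 - 1 / (M : ℝ)) ^ M →
    ∃ R : ℝ, 0 ≤ R ∧ (P n k : ℝ) = (n : ℝ) ^ (k - M) * (n - n / M + R) ^ M ∧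
      (1 - ε) * (Real.log n / (- Real.log (tau n k M))) ≤ R ∧
      R ≤ (1 + ε) * (Real.log n / (- Real.log (tau n k M))) + 1 ∧
      ((n : ℝ) * tau n k M ^ r ≤ δ → (r = 2 ∨ C ≤ (n : ℝ) * tau n k M ^ (r - 1)) → R = r)

/-- data of `n = 2 M q`, `k = (2M-2) q + t` -/
lemma PLA_data (M n k : ℕ) (hM : 2 ≤ M) (hn : 0 < n) (hd : 2 * M ∣ n)
    (hk : (M - 1) * n + M * M ≤ M * k) :
    ∃ q t : ℕ, n = 2 * M * q ∧ k = (2 * M - 2) * q + t ∧ M ≤ t ∧ 0 < q ∧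
      tau n k M = (t : ℝ) / (2 * q) := by
  obtain ⟨q, rfl⟩ := hd
  obtain ⟨m, rfl⟩ : ∃ m, M = m + 1 := ⟨M - 1, by omega⟩
  have hq : 0 < q := Nat.pos_of_ne_zero (by rintro rfl; simp at hn)
  have h1 : m + 1 - 1 = m := by omega
  have h2 : 2 * (m + 1) - 2 = 2 * m := by omega
  rw [h1] at hk
  have h3 : 2 * m * q + (m + 1) ≤ k := by
    have h4 : (m + 1) * (2 * m * q + (m + 1)) ≤ (m + 1) * k := by
      refine le_trans (le_of_eq ?_) hk
      ring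
    exact Nat.le_of_mul_le_mul_left h4 (by omega)
  refine ⟨q, k - 2 * m * q, rfl, ?_, ?_, hq, ?_⟩
  · rw [h2]; omega
  · omega
  · have hq' : (0 : ℝ) < q := by exact_mod_cast hq
    have hm' : (0 : ℝ) < (m : ℝ) + 1 := by positivity
    unfold tau
    rw [Nat.cast_sub (by omega)]
    push_cast
    field_simp
    ring

/-- the exact value in terms of `τ` -/
lemma PLA_exact (hR : Stmt_FIR) (h2 : Stmt_FI2) (M r : ℕ) (hM : 2 ≤ M) (hr : 2 ≤ r) :
    ∃ (C δ : ℝ) (q0 : ℕ), 0 < δ ∧ ∀ q t : ℕ, q0 ≤ q → 0 < q → M ≤ t →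
      2 * (M : ℝ) * q * ((t : ℝ) / (2 * q)) ^ r ≤ δ →
      (r = 2 ∨ C ≤ 2 * (M : ℝ) * q * ((t : ℝ) / (2 * q)) ^ (r - 1)) →
      P (2 * M * q) ((2 * M - 2) * q + t) =
        (2 * M * q) ^ ((2 * M - 2) * q + t - M) * (2 * (M - 1) * q + r) ^ M := by
  obtain ⟨C, δ, q1, hδ, hR⟩ := hR M r hM hr
  obtain ⟨δ2, q2, hδ2, h2⟩ := h2 M hM
  have hM0 : (0 : ℝ) < M := by
    have : 0 < M := by omega
    exact_mod_cast this
  obtain ⟨N, hN⟩ := exists_nat_gt (|C| ^ (r - 1))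
  refine ⟨M * (|C| + 1), min (δ * M / 2 ^ (r - 1)) (δ2 * M / 2), q1 + q2 + N, ?_, ?_⟩
  · apply lt_min <;> positivity
  intro q t hq hq0 hMt h3 h4
  have hq' : (0 : ℝ) < q := by exact_mod_cast hq0
  have ht0 : (0 : ℝ) ≤ t := Nat.cast_nonneg _
  by_cases hr2 : r = 2
  · subst hr2
    refine h2 q t (by omega) hMt ?_
    have h5 : 2 * (M : ℝ) * q * ((t : ℝ) / (2 * q)) ^ 2 ≤ δ2 * M / 2 := h3.trans (min_le_right _ _)
    have h6 : 2 * (M : ℝ) * q * ((t : ℝ) / (2 * q)) ^ 2 = M / 2 * ((t : ℝ) ^ 2 / q) := by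
      field_simp
    rw [h6] at h5
    have h7 : (t : ℝ) ^ 2 / q ≤ δ2 := by
      have h8 : (M : ℝ) / 2 * ((t : ℝ) ^ 2 / q) ≤ M / 2 * δ2 := by
        refine h5.trans (le_of_eq ?_)
        ring
      exact le_of_mul_le_mul_left h8 (by positivity)
    rwa [div_le_iff₀ hq'] at h7
  · obtain ⟨j, rfl⟩ : ∃ j, r = j + 3 := ⟨r - 3, by omega⟩
    have e1 : j + 3 - 1 = j + 2 := by omega
    have e2 : j + 3 - 2 = j + 1 := by omega
    rw [e1] at h3 h4 hN
    have h4' := h4.resolve_left hr2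
    have h5 : 2 * (M : ℝ) * q * ((t : ℝ) / (2 * q)) ^ (j + 3) ≤ δ * M / 2 ^ (j + 2) :=
      h3.trans (min_le_left _ _)
    have h6 : 2 * (M : ℝ) * q * ((t : ℝ) / (2 * q)) ^ (j + 3) =
        M / 2 ^ (j + 2) * ((t : ℝ) ^ (j + 3) / (q : ℝ) ^ (j + 2)) := by
      rw [div_pow, mul_pow, pow_succ (2 : ℝ) (j + 2), pow_succ (q : ℝ) (j + 2)]
      field_simp
    have h7 : 2 * (M : ℝ) * q * ((t : ℝ) / (2 * q)) ^ (j + 2) =
        M / 2 ^ (j + 1) * ((t : ℝ) ^ (j + 2) / (q : ℝ) ^ (j + 1)) := by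
      rw [div_pow, mul_pow, pow_succ (2 : ℝ) (j + 1), pow_succ (q : ℝ) (j + 1)]
      field_simp
    rw [h6] at h5
    rw [h7] at h4'
    have h8 : (t : ℝ) ^ (j + 3) ≤ δ * (q : ℝ) ^ (j + 2) := by
      have h9 : (t : ℝ) ^ (j + 3) / (q : ℝ) ^ (j + 2) ≤ δ := by
        have h10 : (M : ℝ) / 2 ^ (j + 2) * ((t : ℝ) ^ (j + 3) / (q : ℝ) ^ (j + 2)) ≤
            M / 2 ^ (j + 2) * δ := by
          refine h5.trans (le_of_eq ?_)
          ring
        exact le_of_mul_le_mul_left h10 (by positivity)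
      rwa [div_le_iff₀ (by positivity)] at h9
    have h11 : (|C| + 1) * (q : ℝ) ^ (j + 1) ≤ (t : ℝ) ^ (j + 2) := by
      have h12 : (M : ℝ) / 2 ^ (j + 1) * ((t : ℝ) ^ (j + 2) / (q : ℝ) ^ (j + 1)) ≤
          M * ((t : ℝ) ^ (j + 2) / (q : ℝ) ^ (j + 1)) := by
        apply mul_le_mul_of_nonneg_right _ (by positivity)
        apply div_le_self hM0.le
        exact one_le_pow₀ (by norm_num)
      have h13 : |C| + 1 ≤ (t : ℝ) ^ (j + 2) / (q : ℝ) ^ (j + 1) :=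
        le_of_mul_le_mul_left (h4'.trans h12) hM0
      rwa [le_div_iff₀ (by positivity)] at h13
    have hCabs : C ≤ |C| := le_abs_self C
    have hq1 : (1 : ℝ) ≤ q := by exact_mod_cast hq0
    have h14 : C * (q : ℝ) ^ (j + 1) ≤ (t : ℝ) ^ (j + 2) := by
      refine le_trans ?_ h11
      apply mul_le_mul_of_nonneg_right _ (by positivity)
      linarith
    have h15 : C ≤ t := by
      by_contra hc
      push Not at hc
      have hc1 : (t : ℝ) < |C| := lt_of_lt_of_le hc hCabs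
      have h16 : (t : ℝ) ^ (j + 2) ≤ |C| ^ (j + 2) := pow_le_pow_left₀ ht0 hc1.le _
      have h17 : (q : ℝ) ≤ (q : ℝ) ^ (j + 1) := by
        calc (q : ℝ) = (q : ℝ) ^ 1 := (pow_one _).symm
          _ ≤ (q : ℝ) ^ (j + 1) := pow_le_pow_right₀ hq1 (by omega)
      have h18 : (N : ℝ) ≤ q := by
        have : N ≤ q := by omega
        exact_mod_cast this
      have h19 : (q : ℝ) ^ (j + 1) ≤ (|C| + 1) * (q : ℝ) ^ (j + 1) := by
        have := abs_nonneg C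
        have h20 : (0 : ℝ) ≤ (q : ℝ) ^ (j + 1) := by positivity
        nlinarith
      linarith
    have := hR q t (by omega) (by rw [e1, e2]; exact h14) h15 (by rw [e1]; exact h8)
    exact this

theorem stmt_PLA (hF : Stmt_FPU) (hR : Stmt_FIR) (h2 : Stmt_FI2) : Stmt_PLA := by
  intro M r hM hr ε hε hε1
  obtain ⟨n1, hF⟩ := hF M hM ε hε hε1
  obtain ⟨C, δ, q0, hδ, hE⟩ := PLA_exact hR h2 M r hM hr
  have hM0 : (0 : ℝ) < M := by
    have : 0 < M := by omega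
    exact_mod_cast this
  have hM2 : (2 : ℝ) ≤ M := by exact_mod_cast hM
  refine ⟨C, δ, n1 + 2 * M * (q0 + 1), hδ, ?_⟩
  intro n k hn hd hk hc
  have hn1 : n1 ≤ n := by omega
  have hnpos : 0 < n := by
    have : 0 < 2 * M * (q0 + 1) := by positivity
    omega
  have hn0 : (0 : ℝ) < n := by exact_mod_cast hnpos
  obtain ⟨hlo, hup⟩ := hF n k hn1 hd hk hc
  obtain ⟨q, t, hnq, hkq, hMt, hq, hτ⟩ := PLA_data M n k hM hnpos hd hk
  have hq' : (0 : ℝ) < q := by exact_mod_cast hq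
  have hMk : M ≤ k := by omega
  -- `k < n`
  have hkn : k < n := by
    by_contra hcon
    push Not at hcon
    have h1 : (1 : ℝ) ≤ (k : ℝ) / n := by
      rw [le_div_iff₀ hn0, one_mul]
      exact_mod_cast hcon
    have h2 : (1 : ℝ) ≤ ((k : ℝ) / n) ^ (M + 1) := one_le_pow₀ h1
    have h3 : (1 - 1 / (M : ℝ)) ^ M ≤ 1 := by
      apply pow_le_one₀
      · rw [sub_nonneg, div_le_one hM0]; linarith
      · have : 0 < 1 / (M : ℝ) := by positivity
        linarith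
    linarith
  have ht2q : t < 2 * q := by
    obtain ⟨m, rfl⟩ : ∃ m, M = m + 1 := ⟨M - 1, by omega⟩
    have h1 : 2 * (m + 1) - 2 = 2 * m := by omega
    rw [h1] at hkq
    rw [hkq, hnq] at hkn
    have h2 : 2 * (m + 1) * q = 2 * m * q + 2 * q := by ring
    omega
  have ht0 : (0 : ℝ) < t := by
    have : 0 < t := by omega
    exact_mod_cast this
  have hτ0 : 0 < tau n k M := by rw [hτ]; positivity
  have hτ1 : tau n k M < 1 := by
    rw [hτ, div_lt_one (by positivity)]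
    exact_mod_cast ht2q
  have hL : 0 < - Real.log (tau n k M) := by
    have := Real.log_neg hτ0 hτ1
    linarith
  set ρ : ℝ := Real.log n / (- Real.log (tau n k M)) with hρ
  have hρ0 : 0 ≤ ρ := div_nonneg (Real.log_natCast_nonneg n) hL.le
  have hB0 : (0 : ℝ) ≤ n - n / M := by
    rw [sub_nonneg, div_le_iff₀ hM0]
    nlinarith
  have hpk : (0 : ℝ) < (n : ℝ) ^ (k - M) := by positivity
  set X : ℝ := (P n k : ℝ) / (n : ℝ) ^ (k - M) with hX
  have hX0 : 0 ≤ X := by positivity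
  have hPX : (P n k : ℝ) = (n : ℝ) ^ (k - M) * X := by
    rw [hX]; field_simp
  have hMne : M ≠ 0 := by omega
  set Y : ℝ := X ^ ((M : ℝ)⁻¹) with hY
  have hY0 : 0 ≤ Y := Real.rpow_nonneg hX0 _
  have hYM : Y ^ M = X := Real.rpow_inv_natCast_pow hX0 hMne
  have hlo' : (n - n / M + (1 - ε) * ρ) ≤ Y := by
    have h1 : (n - n / M + (1 - ε) * ρ) ^ M ≤ Y ^ M := by
      rw [hYM]
      rw [hPX] at hlo
      exact le_of_mul_le_mul_left hlo hpk
    exact le_of_pow_le_pow_left₀ hMne hY0 h1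
  have hup' : Y ≤ (n - n / M + (1 + ε) * ρ + 1) := by
    have h1 : Y ^ M ≤ (n - n / M + (1 + ε) * ρ + 1) ^ M := by
      rw [hYM]
      rw [hPX] at hup
      exact le_of_mul_le_mul_left hup hpk
    have h2 : 0 ≤ (1 + ε) * ρ := by positivity
    exact le_of_pow_le_pow_left₀ hMne (by linarith) h1
  have hε' : 0 ≤ (1 - ε) * ρ := mul_nonneg (by linarith) hρ0
  refine ⟨Y - (n - n / M), by linarith, ?_, by linarith, by linarith, ?_⟩
  · have h1 : (n : ℝ) - n / M + (Y - (n - n / M)) = Y := by ring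
    rw [h1, hYM]
    exact hPX
  · intro h3 h4
    have hq0 : q0 ≤ q := by
      have h5 : 2 * M * (q0 + 1) ≤ 2 * M * q := by omega
      have h6 : q0 + 1 ≤ q := Nat.le_of_mul_le_mul_left h5 (by omega)
      omega
    have hnr : (n : ℝ) = 2 * M * q := by rw [hnq]; push_cast; ring
    rw [hτ, hnr] at h3 h4
    have h7 := hE q t hq0 hq hMt h3 h4
    rw [← hnq, ← hkq] at h7
    have h8 : (P n k : ℝ) = (n : ℝ) ^ (k - M) * (n - n / M + r) ^ M := by
      rw [h7]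
      push_cast [Nat.cast_sub (show 1 ≤ M by omega)]
      rw [hnr]
      have h9 : 2 * ((M : ℝ) - 1) * q = 2 * M * q - 2 * M * q / M := by
        field_simp
      rw [h9]
    have h10 : (n - n / M + r : ℝ) ^ M = Y ^ M := by
      rw [hYM]
      rw [hPX] at h8
      exact (mul_left_cancel₀ hpk.ne' h8).symm
    have h11 : (n : ℝ) - n / M + r = Y :=
      (pow_left_inj₀ (by positivity) hY0 hMne).1 h10
    linarith

end Pool.Agent.Work.MP_1ce445_plt
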