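import Pool.Agent.Work.MP_1ce445_plt.Interface2

namespace Pool.Agent.Work.MP_1ce445_plt

open Finset Pool.Agent.Work.MP_1ce445_co_56 Pool.Agent.Work.MP_1ce445_lin
  Pool.Agent.Work.MP_1ce445_fx Pool.Agent.Work.MP_1ce445_stm

theorem ERU_seven (r : ℕ) (a : Fin 7 → ℝ) (h : ∀ i, 0 ≤ a i) :
    (∑ i, a i) ^ r ≤ 7 ^ r * ∑ i, a i ^ r := by
  obtain ⟨j, -, hj⟩ := Finset.exists_max_image (univ : Finset (Fin 7)) a ⟨0, mem_univ _⟩
  have h1 : ∑ i, a i ≤ 7 * a j := by
    calc ∑ i, a i ≤ ∑ _i : Fin 7, a j := Finset.sum_le_sum (fun i _ => hj i (mem_univ i))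
      _ = 7 * a j := by simp
  have h0 : 0 ≤ ∑ i, a i := Finset.sum_nonneg (fun i _ => h i)
  calc (∑ i, a i) ^ r ≤ (7 * a j) ^ r := pow_le_pow_left₀ h0 h1 r
    _ = 7 ^ r * a j ^ r := mul_pow _ _ _
    _ ≤ 7 ^ r * ∑ i, a i ^ r := by
        refine mul_le_mul_of_nonneg_left ?_ (by positivity)
        exact Finset.single_le_sum (f := fun i => a i ^ r) (fun i _ => pow_nonneg (h i) r)
          (mem_univ j)

theorem ERU_seven2 (r : ℕ) (C a b c d e f g : ℝ) (hC : 0 ≤ C) (ha : 0 ≤ a) (hb : 0 ≤ b) (hc : 0 ≤ c)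
    (hd : 0 ≤ d) (he : 0 ≤ e) (hf : 0 ≤ f) (hg : 0 ≤ g) :
    (C * (a + b + c + d + e + f + g)) ^ r ≤
      (7 * C * a) ^ r + (7 * C * b) ^ r + (7 * C * c) ^ r + (7 * C * d) ^ r + (7 * C * e) ^ r +
        (7 * C * f) ^ r + (7 * C * g) ^ r := by
  have h := ERU_seven r ![a, b, c, d, e, f, g] (by
    intro i
    fin_cases i <;> simp <;> assumption)
  have h2 : (a + b + c + d + e + f + g) ^ r ≤
      7 ^ r * (a ^ r + b ^ r + c ^ r + d ^ r + e ^ r + f ^ r + g ^ r) := by
    simpa [Fin.sum_univ_seven] using h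
  calc (C * (a + b + c + d + e + f + g)) ^ r = C ^ r * (a + b + c + d + e + f + g) ^ r := mul_pow _ _ _
    _ ≤ C ^ r * (7 ^ r * (a ^ r + b ^ r + c ^ r + d ^ r + e ^ r + f ^ r + g ^ r)) :=
        mul_le_mul_of_nonneg_left h2 (by positivity)
    _ = _ := by
        simp only [mul_pow]
        ring

theorem ERU_piece (r : ℕ) (hr : 2 ≤ r) (y b : ℝ) (hy : 0 ≤ y) (hb1 : b ≤ 1) (hyb : y ≤ b) :
    y ^ r ≤ b * y := by
  obtain ⟨q, rfl⟩ : ∃ q, r = q + 2 := ⟨r - 2, by omega⟩
  have h1 : y ^ (q + 1) ≤ y ^ 1 := pow_le_pow_of_le_one hy (hyb.trans hb1) (by omega)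
  rw [pow_one] at h1
  calc y ^ (q + 2) = y ^ (q + 1) * y := by ring
    _ ≤ b * y := mul_le_mul_of_nonneg_right (h1.trans hyb) hy

theorem ERU_add (r : ℕ) (hr : 2 ≤ r) (x y z : ℝ) (hx : 0 ≤ x) (hy : 0 ≤ y) (h : x + y ≤ z) :
    x ^ r + y ^ r ≤ z ^ r := by
  have h1 : x ^ r + y ^ r ≤ (x + y) ^ r := by
    obtain ⟨q, rfl⟩ : ∃ q, r = q + 1 := ⟨r - 1, by omega⟩
    have hx1 : x ^ q ≤ (x + y) ^ q := pow_le_pow_left₀ hx (by linarith) q
    have hy1 : y ^ q ≤ (x + y) ^ q := pow_le_pow_left₀ hy (by linarith) q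
    calc x ^ (q + 1) + y ^ (q + 1) = x ^ q * x + y ^ q * y := by ring
      _ ≤ (x + y) ^ q * x + (x + y) ^ q * y :=
          add_le_add (mul_le_mul_of_nonneg_right hx1 hx) (mul_le_mul_of_nonneg_right hy1 hy)
      _ = (x + y) ^ (q + 1) := by ring
  exact h1.trans (pow_le_pow_left₀ (by positivity) h r)

theorem stmt_ERU (hE : Stmt_EMO) (hD : Stmt_DMO) (hX : Stmt_XBD) : Stmt_ERU := by
  intro M hM2
  have hm : (2 : ℝ) ≤ (M : ℝ) := by exact_mod_cast hM2
  set A : ℝ := 224 * (M : ℝ) with hA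
  have hA1 : 1 ≤ A := by rw [hA]; linarith
  set c : ℝ := A ^ 2 * (M : ℝ) ^ 4 with hc
  have hm1 : (1 : ℝ) ≤ (M : ℝ) := by linarith
  have hcA : A * (M : ℝ) ^ 3 ≤ c := by
    have h1 : 1 ≤ A * (M : ℝ) := one_le_mul_of_one_le_of_one_le hA1 hm1
    calc A * (M : ℝ) ^ 3 = A * (M : ℝ) ^ 3 * 1 := by ring
      _ ≤ A * (M : ℝ) ^ 3 * (A * (M : ℝ)) := mul_le_mul_of_nonneg_left h1 (by positivity)
      _ = c := by rw [hc]; ring
  have hcB : A * (M : ℝ) ^ 2 ≤ A * (M : ℝ) ^ 3 :=
    mul_le_mul_of_nonneg_left (pow_le_pow_right₀ hm1 (by norm_num)) (by positivity)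
  have hcC : A * (M : ℝ) ≤ A * (M : ℝ) ^ 2 := by
    refine mul_le_mul_of_nonneg_left ?_ (by positivity)
    nlinarith
  have hcD : A ≤ A * (M : ℝ) := le_mul_of_one_le_right (by positivity) hm1
  have hcE : A ^ 2 * (M : ℝ) ^ 2 ≤ c := by
    rw [hc]
    exact mul_le_mul_of_nonneg_left (pow_le_pow_right₀ hm1 (by norm_num)) (by positivity)
  have hc1 : 1 ≤ c := by linarith
  refine ⟨100 * c, by linarith, ?_⟩
  intro n k r Δ G e θ s hSt hKs hKθ hr hΔn hΔ
  obtain ⟨hX1, hX2⟩ := hX n k M G e θ s hSt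
  obtain ⟨two, pos, fac, inj, th, th', s0, s1, tnn, big, ovl, def'⟩ := hSt
  obtain ⟨hE1, hE2, hE3⟩ := hE n k M G e fac
  obtain ⟨hD1, hD2, hD3⟩ := hD n k M Δ G e θ th.le hΔ
  have hE3' := hE3 r (by omega)
  have hN : (0 : ℝ) < (n : ℝ) := by exact_mod_cast pos
  have hdd : ∀ v, (dd G e θ v : ℝ) ≤ (M : ℝ) * Δ := by
    intro v
    have h1 : dd G e θ v ≤ M * Δ := by
      unfold dd
      refine (Finset.sum_le_sum (fun i _ => hΔ i v)).trans ?_
      simp
    exact_mod_cast h1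
  generalize hmM : (M : ℝ) = m at *
  generalize hNn : (n : ℝ) = N at *
  set L : ℝ := (Ls G e : ℝ) with hL
  set O : ℝ := ((ov G e θ).card : ℝ) with hO
  set T : ℝ := tt n k M with hT
  set D : ℝ := ∑ v, (dd G e θ v : ℝ) with hDdef
  set F : ℝ := ∑ v, (EE G e v : ℝ) with hF
  set X : ℝ := Xb G e θ with hXdef
  have hL0 : 0 ≤ L := by positivity
  have hO0 : 0 ≤ O := by positivity
  have hD0 : 0 ≤ D := Finset.sum_nonneg (fun v _ => by positivity)
  have hF0 : 0 ≤ F := Finset.sum_nonneg (fun v _ => by positivity)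
  have hΔ0 : (0 : ℝ) ≤ (Δ : ℝ) := by positivity
  have hF2 : F ≤ 3 * L ^ 2 := by
    rw [hF, hL]; exact_mod_cast hE2
  have hF3 : ∑ v, (EE G e v : ℝ) ^ r ≤ 3 * L ^ (r + 1) := by
    rw [hL]; exact_mod_cast hE3'
  have hc0 : 0 < c := by linarith
  have hcs6 : 6 * (c * s) ≤ 1 := by
    have h1 : 0 ≤ c * s := by positivity
    have h2 : 100 * (c * s) ≤ 1 := by
      rw [← mul_assoc]
      exact hKs
    linarith
  have hcs : c * s ≤ 1 := by
    have h1 : 0 ≤ c * s := by positivity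
    linarith
  have hcθ4 : 4 * (c * θ) ≤ 1 := by
    have h1 : 0 ≤ c * θ := by positivity
    have h2 : 100 * (c * θ) ≤ 1 := by
      rw [← mul_assoc]
      exact hKθ
    linarith
  have hs1 : s ≤ 1 := by
    have h1 : 1 * s ≤ c * s := mul_le_mul_of_nonneg_right hc1 s0.le
    linarith
  have hm0 : 0 < m := by linarith
  have hA0 : 0 < A := by linarith
  set B : ℝ := A / N with hB
  have hB0 : 0 < B := by positivity
  -- the pieces
  have P1 : N * (B * (m * O)) ^ r ≤ c * (s * O) := by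
    have hy : B * (m * O) ≤ A * m * s := by
      rw [hB, div_mul_eq_mul_div, div_le_iff₀ hN]
      calc A * (m * O) ≤ A * (m * (s * N)) :=
            mul_le_mul_of_nonneg_left (mul_le_mul_of_nonneg_left ovl hm0.le) hA0.le
        _ = A * m * s * N := by ring
    have hb : A * m * s ≤ 1 := by
      refine le_trans ?_ hcs
      exact mul_le_mul_of_nonneg_right (by linarith) s0.le
    have h := ERU_piece r hr (B * (m * O)) (A * m * s) (by positivity) hb hy
    calc N * (B * (m * O)) ^ r ≤ N * (A * m * s * (B * (m * O))) := mul_le_mul_of_nonneg_left h hN.le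
      _ = A ^ 2 * m ^ 2 * (s * O) := by
          rw [hB]
          field_simp
      _ ≤ c * (s * O) := mul_le_mul_of_nonneg_right hcE (by positivity)
  have P2 : N * (B * ((m + 1) * T)) ^ r ≤ N * (100 * c * (m * T / N)) ^ r := by
    refine mul_le_mul_of_nonneg_left (pow_le_pow_left₀ (by positivity) ?_ r) hN.le
    have h1 : B * ((m + 1) * T) = A * (m + 1) * (T / N) := by
      rw [hB]
      ring
    have h2 : 100 * c * (m * T / N) = 100 * c * m * (T / N) := by ring
    rw [h1, h2]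
    refine mul_le_mul_of_nonneg_right ?_ (by positivity)
    have h3 : A * (m + 1) ≤ A * (2 * m) := mul_le_mul_of_nonneg_left (by linarith) hA0.le
    have h4 : A * (2 * m) ≤ c * (2 * m) := mul_le_mul_of_nonneg_right (by linarith) (by positivity)
    have h5 : c * (2 * m) ≤ 100 * c * m := by
      have h6 : 0 ≤ c * m := by positivity
      have h7 : c * (2 * m) = 2 * (c * m) := by ring
      have h8 : 100 * c * m = 100 * (c * m) := by ring
      linarith
    linarith
  have P36 : N * (B * (2 * m ^ 2 / N * D)) ^ r + N * (B * (m * Δ)) ^ r ≤ N * (100 * c * (Δ / N)) ^ r := by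
    rw [← mul_add]
    refine mul_le_mul_of_nonneg_left (ERU_add r hr _ _ _ (by positivity) (by positivity) ?_) hN.le
    have h1 : B * (2 * m ^ 2 / N * D) ≤ 2 * (A * m ^ 3) * (Δ / N) := by
      have h2 : B * (2 * m ^ 2 / N * D) ≤ B * (2 * m ^ 2 / N * (m * Δ * N)) :=
        mul_le_mul_of_nonneg_left (mul_le_mul_of_nonneg_left hD2 (by positivity)) hB0.le
      refine h2.trans (le_of_eq ?_)
      rw [hB]
      field_simp
    have h3 : B * (m * Δ) = A * m * (Δ / N) := by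
      rw [hB]
      ring
    have h4 : 0 ≤ Δ / N := by positivity
    have h5 : 2 * (A * m ^ 3) * (Δ / N) ≤ 2 * c * (Δ / N) :=
      mul_le_mul_of_nonneg_right (by linarith) h4
    have h6 : A * m * (Δ / N) ≤ c * (Δ / N) := mul_le_mul_of_nonneg_right (by linarith) h4
    have h7 : 0 ≤ c * (Δ / N) := by positivity
    rw [h3]
    have h8 : 100 * c * (Δ / N) = 2 * c * (Δ / N) + c * (Δ / N) + 97 * (c * (Δ / N)) := by ring
    linarith
  have hLN : L ^ 2 ≤ s * L * N := by
    calc L ^ 2 = L * L := by ring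
      _ ≤ L * (s * N) := mul_le_mul_of_nonneg_left def' hL0
      _ = s * L * N := by ring
  have P4 : N * (B * (2 * m ^ 2 / N * F)) ^ r ≤ 6 * c * (s * L) := by
    have hFN : F / N ≤ 3 * (s * L) := by
      rw [div_le_iff₀ hN]
      linarith
    have hyN : N * (B * (2 * m ^ 2 / N * F)) = 2 * (A * m ^ 2) * (F / N) := by
      rw [hB]
      field_simp
    have hNy : N * (B * (2 * m ^ 2 / N * F)) ≤ 6 * (A * m ^ 2) * (s * L) := by
      rw [hyN]
      have := mul_le_mul_of_nonneg_left hFN (show 0 ≤ 2 * (A * m ^ 2) by positivity)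
      linarith
    have hy1 : B * (2 * m ^ 2 / N * F) ≤ 1 := by
      have h1 : s * L ≤ s * (s * N) := mul_le_mul_of_nonneg_left def' s0.le
      have h2 : 6 * (A * m ^ 2) * (s * L) ≤ 6 * c * (s * (s * N)) := by
        refine mul_le_mul (by linarith) h1 (by positivity) (by positivity)
      have h3 : 6 * c * (s * (s * N)) ≤ N * 1 := by
        have h4 : 6 * (c * s) ≤ 1 := hcs6
        have h5 : 6 * (c * s) * (s * N) ≤ 1 * (1 * N) :=
          mul_le_mul h4 (mul_le_mul_of_nonneg_right hs1 hN.le) (by positivity) (by norm_num)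
        have h6 : 6 * c * (s * (s * N)) = 6 * (c * s) * (s * N) := by ring
        rw [h6]
        linarith
      have h7 : N * (B * (2 * m ^ 2 / N * F)) ≤ N * 1 := by linarith
      exact le_of_mul_le_mul_left h7 hN
    have h := ERU_piece r hr (B * (2 * m ^ 2 / N * F)) 1 (by positivity) le_rfl hy1
    calc N * (B * (2 * m ^ 2 / N * F)) ^ r ≤ N * (1 * (B * (2 * m ^ 2 / N * F))) :=
          mul_le_mul_of_nonneg_left h hN.le
      _ = N * (B * (2 * m ^ 2 / N * F)) := by ring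
      _ ≤ 6 * (A * m ^ 2) * (s * L) := hNy
      _ ≤ 6 * c * (s * L) := mul_le_mul_of_nonneg_right (by linarith) (by positivity)
  have P5 : N * (B * (2 * m * X)) ^ r ≤ 8 * c * (θ * X) := by
    have hy : B * (2 * m * X) ≤ 4 * (A * m ^ 3) * θ := by
      rw [hB, div_mul_eq_mul_div, div_le_iff₀ hN]
      calc A * (2 * m * X) ≤ A * (2 * m * (2 * m ^ 2 * θ * N)) :=
            mul_le_mul_of_nonneg_left (mul_le_mul_of_nonneg_left hX2 (by positivity)) hA0.le
        _ = 4 * (A * m ^ 3) * θ * N := by ring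
    have hb : 4 * (A * m ^ 3) * θ ≤ 1 := by
      have h1 : 4 * (A * m ^ 3) * θ ≤ 4 * c * θ := mul_le_mul_of_nonneg_right (by linarith) th.le
      have h2 : 4 * c * θ = 4 * (c * θ) := by ring
      linarith
    have h := ERU_piece r hr (B * (2 * m * X)) (4 * (A * m ^ 3) * θ) (by positivity) hb hy
    calc N * (B * (2 * m * X)) ^ r ≤ N * (4 * (A * m ^ 3) * θ * (B * (2 * m * X))) :=
          mul_le_mul_of_nonneg_left h hN.le
      _ = 8 * c * (θ * X) := by
          rw [hB, hc]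
          field_simp
          ring
  have P6 : ∀ v, (B * (dd G e θ v : ℝ)) ^ r ≤ (B * (m * Δ)) ^ r := fun v =>
    pow_le_pow_left₀ (by positivity) (mul_le_mul_of_nonneg_left (hdd v) hB0.le) r
  have P7 : ∑ v, (B * (EE G e v : ℝ)) ^ r ≤ 3 * c * (s * L) := by
    have h1 : ∑ v, (B * (EE G e v : ℝ)) ^ r = B ^ r * ∑ v, (EE G e v : ℝ) ^ r := by
      rw [Finset.mul_sum]
      exact Finset.sum_congr rfl (fun v _ => mul_pow _ _ _)
    have hy : B * L ≤ A * s := by
      rw [hB, div_mul_eq_mul_div, div_le_iff₀ hN]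
      calc A * L ≤ A * (s * N) := mul_le_mul_of_nonneg_left def' hA0.le
        _ = A * s * N := by ring
    have hb : A * s ≤ 1 := by
      refine le_trans ?_ hcs
      exact mul_le_mul_of_nonneg_right (by linarith) s0.le
    have h2 : (B * L) ^ r ≤ A * s := by
      have h := ERU_piece r hr (B * L) 1 (by positivity) le_rfl (hy.trans hb)
      linarith
    calc ∑ v, (B * (EE G e v : ℝ)) ^ r = B ^ r * ∑ v, (EE G e v : ℝ) ^ r := h1
      _ ≤ B ^ r * (3 * L ^ (r + 1)) := mul_le_mul_of_nonneg_left hF3 (by positivity)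
      _ = 3 * L * (B * L) ^ r := by
          rw [mul_pow]
          ring
      _ ≤ 3 * L * (A * s) := mul_le_mul_of_nonneg_left h2 (by positivity)
      _ ≤ 3 * L * (c * s) := by
          refine mul_le_mul_of_nonneg_left (mul_le_mul_of_nonneg_right (by linarith) s0.le) (by positivity)
      _ = 3 * c * (s * L) := by ring
  -- the sum
  have hev : ∀ v, 32 ^ r * ev G e θ v ^ r ≤ (B * (m * O)) ^ r + (B * ((m + 1) * T)) ^ r +
      (B * (2 * m ^ 2 / N * D)) ^ r + (B * (2 * m ^ 2 / N * F)) ^ r + (B * (2 * m * X)) ^ r +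
      (B * (dd G e θ v : ℝ)) ^ r + (B * (EE G e v : ℝ)) ^ r := by
    intro v
    have h1 : 32 * ev G e θ v = (32 * (m / N)) * (m * O + (m + 1) * T + 2 * m ^ 2 / N * D +
        2 * m ^ 2 / N * F + 2 * m * X + (dd G e θ v : ℝ) + (EE G e v : ℝ)) := by
      rw [ev, bb, Finset.sum_add_distrib, hmM, hNn]
      ring
    have h2 : 7 * (32 * (m / N)) = B := by
      rw [hB, hA]
      ring
    rw [← mul_pow, h1]
    have h3 := ERU_seven2 r (32 * (m / N)) (m * O) ((m + 1) * T) (2 * m ^ 2 / N * D) (2 * m ^ 2 / N * F)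
      (2 * m * X) (dd G e θ v : ℝ) (EE G e v : ℝ) (by positivity) (by positivity) (by positivity)
      (by positivity) (by positivity) (by positivity) (by positivity) (by positivity)
    rw [h2] at h3
    exact h3
  have hcard : ∀ x : ℝ, ∑ _v : Fin n, x = N * x := by
    intro x
    simp [hNn]
  rw [Finset.mul_sum]
  refine (Finset.sum_le_sum (fun v _ => hev v)).trans ?_
  simp only [Finset.sum_add_distrib]
  have P6' : ∑ v, (B * (dd G e θ v : ℝ)) ^ r ≤ N * (B * (m * Δ)) ^ r := by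
    rw [← hcard]
    exact Finset.sum_le_sum (fun v _ => P6 v)
  simp only [hcard]
  have hK : 100 * c * (s * O + s * L + θ * X) = 100 * (c * (s * O)) + 100 * (c * (s * L)) +
      100 * (c * (θ * X)) := by ring
  rw [hK]
  have q1 : 0 ≤ c * (s * O) := by positivity
  have q2 : 0 ≤ c * (s * L) := by positivity
  have q3 : 0 ≤ c * (θ * X) := by positivity
  linarith

end Pool.Agent.Work.MP_1ce445_plt
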