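import Pool.Agent.Work.MP_1ce445_plt.Interface

namespace Pool.Agent.Work.MP_1ce445_plt

open Finset Pool.Agent.Work.MP_1ce445_co_56 Pool.Agent.Work.MP_1ce445_lin
  Pool.Agent.Work.MP_1ce445_fx Pool.Agent.Work.MP_1ce445_stm

/-- Markov inequality for a sum of natural numbers -/
theorem ADP_mark {n : ℕ} (f : Fin n → ℕ) (c B : ℝ) (hc : 0 < c) (hB : ∑ v, (f v : ℝ) ≤ B) :
    ((univ.filter (fun v => c < (f v : ℝ))).card : ℝ) ≤ B / c := by
  rw [le_div_iff₀ hc]
  calc ((univ.filter (fun v => c < (f v : ℝ))).card : ℝ) * c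
      = ∑ _v ∈ univ.filter (fun v => c < (f v : ℝ)), c := by simp
    _ ≤ ∑ v ∈ univ.filter (fun v => c < (f v : ℝ)), (f v : ℝ) := by
        refine Finset.sum_le_sum (fun v hv => ?_)
        exact (Finset.mem_filter.mp hv).2.le
    _ ≤ ∑ v, (f v : ℝ) := Finset.sum_le_sum_of_subset_of_nonneg (Finset.filter_subset _ _)
        (fun v _ _ => by positivity)
    _ ≤ B := hB

theorem ADP_min3 (a b c : ℝ) (ha : 0 < a) (hb : 0 < b) (hc : 0 < c) :
    ∃ x : ℝ, 0 < x ∧ x ≤ a ∧ x ≤ b ∧ x ≤ c :=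
  ⟨min a (min b c), lt_min ha (lt_min hb hc), min_le_left _ _,
    (min_le_right _ _).trans (min_le_left _ _), (min_le_right _ _).trans (min_le_right _ _)⟩

/-- the sum over all vertices when the bad set is small -/
theorem ADP_sum {n : ℕ} (g : Fin n → ℝ) (bad : Finset (Fin n)) (a b c : ℝ)
    (h1 : ∀ v, g v ≤ c) (h2 : ∀ v, v ∉ bad → g v ≤ a) (hb : (bad.card : ℝ) * (c - a) ≤ b) :
    ∑ v, g v ≤ n * a + b := by
  have h : ∀ v, g v ≤ a + (if v ∈ bad then c - a else 0) := by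
    intro v
    by_cases hv : v ∈ bad
    · rw [if_pos hv]; linarith [h1 v]
    · rw [if_neg hv]; linarith [h2 v hv]
  calc ∑ v, g v ≤ ∑ v, (a + (if v ∈ bad then c - a else 0)) := Finset.sum_le_sum (fun v _ => h v)
    _ = n * a + bad.card * (c - a) := by
        rw [Finset.sum_add_distrib, Finset.sum_ite_mem, Finset.sum_const, Finset.sum_const]
        simp
    _ ≤ n * a + b := by linarith

theorem stmt_ADP (hSUR : MP_1ce445_stm.Stmt_SUR) (hEMO : MP_1ce445_stm.Stmt_EMO)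
    (hDMO : MP_1ce445_stm.Stmt_DMO) (hHSU : Stmt_HSU) (hGOD : Stmt_GOD) : Stmt_ADP := by
  classical
  intro M hM ω hω hω1
  have hm : (2 : ℝ) ≤ (M : ℝ) := by exact_mod_cast hM
  have hm0 : (0 : ℝ) < (M : ℝ) := by linarith
  obtain ⟨ω₁, hω₁⟩ : ∃ w : ℝ, w = ω / (2 * M) := ⟨_, rfl⟩
  have w0 : 0 < ω₁ := by rw [hω₁]; positivity
  have w1 : 2 * M * ω₁ = ω := by rw [hω₁]; field_simp
  -- the constants
  obtain ⟨r₀, hr₀⟩ : ∃ r₀ : ℕ, (1 - ω) ^ r₀ ≤ ω₁ / (16 * M) := by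
    have h := exists_pow_lt_of_lt_one (show 0 < ω₁ / (16 * (M : ℝ)) by positivity)
      (show 1 - ω < 1 by linarith)
    obtain ⟨r₀, h⟩ := h
    exact ⟨r₀, h.le⟩
  obtain ⟨s, hs0, hsa, hsb, hsc⟩ := ADP_min3 (1 / (4 * (M : ℝ))) (ω / (2 * M)) (ω₁ / 600)
    (by positivity) (by positivity) (by positivity)
  have hs1 : 4 * (M : ℝ) * s ≤ 1 := by
    rw [le_div_iff₀ (by positivity)] at hsa
    linarith
  have hs2 : 2 * (M : ℝ) * s ≤ ω := by
    rw [le_div_iff₀ (by positivity)] at hsb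
    linarith
  have hs3 : 600 * s ≤ ω₁ := by linarith
  obtain ⟨θ, ht0, hta, htb, htc⟩ := ADP_min3 (1 / (12 * (M : ℝ) ^ 2))
    (1 / (8 * (M : ℝ) * ((r₀ : ℝ) + 1))) (ω₁ ^ 2 / (32 * (M : ℝ) ^ 2))
    (by positivity) (by positivity) (by positivity)
  have ht1 : 12 * (M : ℝ) ^ 2 * θ ≤ 1 := by
    rw [le_div_iff₀ (by positivity)] at hta
    linarith
  have ht2 : 8 * (M : ℝ) * ((r₀ : ℝ) + 1) * θ ≤ 1 := by
    rw [le_div_iff₀ (by positivity)] at htb
    linarith
  have ht3 : 32 * (M : ℝ) ^ 2 * θ ≤ ω₁ ^ 2 := by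
    rw [le_div_iff₀ (by positivity)] at htc
    linarith
  obtain ⟨n0, hn0⟩ : ∃ n0 : ℕ, 4 * M * (M * r₀ + 1) / ω₁ ≤ (n0 : ℝ) := exists_nat_ge _
  refine ⟨θ, s, ht0, ht1, hs0, hs1, n0, ?_⟩
  intro n k r G e hn hr hSt hhi htt
  obtain ⟨hx, hS1, -⟩ := hSUR n k M r G e θ s hSt
  obtain ⟨-, -, hS2⟩ := hSUR n k M r₀ G e θ s hSt
  have hG := hGOD n k M G e θ s ω₁ hSt hhi w0.le
  have hlowdef : ∀ i, low (G (e i)) θ = univ.filter
      (fun v => (MP_1ce445_fx.dg (G (e i)) univ v : ℝ) < θ * n) := fun i => rfl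
  obtain ⟨two, pos, fac, inj, th, th', s0, s1, tnn, big, ovl, def'⟩ := hSt
  obtain ⟨-, hE2, -⟩ := hEMO n k M G e fac
  have hN : (0 : ℝ) < (n : ℝ) := by exact_mod_cast pos
  have hNn0 : 4 * M * (M * r₀ + 1) ≤ ω₁ * n := by
    have h1 : 4 * M * (M * r₀ + 1) / ω₁ ≤ (n : ℝ) := hn0.trans (by exact_mod_cast hn)
    rw [div_le_iff₀ w0] at h1
    linarith
  have hL0 : (0 : ℝ) ≤ (Ls G e : ℝ) := by positivity
  have hE2' : ∑ v, (EE G e v : ℝ) ≤ 3 * (Ls G e : ℝ) ^ 2 := by exact_mod_cast hE2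
  obtain ⟨E, hE⟩ : ∃ E : ℝ, E = M * tt n k M / n + ω := ⟨_, rfl⟩
  have hEt : 0 ≤ M * tt n k M / n := by positivity
  have hE0 : 0 ≤ E := by rw [hE]; linarith
  have hE1 : E ≤ 1 - ω := by rw [hE]; linarith
  -- bad vertices for EE
  obtain ⟨b1, hb1⟩ : ∃ b : Finset (Fin n), b = univ.filter
      (fun v => ω₁ * n / 2 < ((EE G e v : ℕ) : ℝ)) := ⟨_, rfl⟩
  have hb1c : (b1.card : ℝ) ≤ Ls G e / 100 := by
    have h := ADP_mark (fun v => EE G e v) (ω₁ * n / 2) (3 * (Ls G e : ℝ) ^ 2) (by positivity) hE2'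
    rw [← hb1] at h
    refine h.trans ?_
    rw [div_le_div_iff₀ (by positivity) (by norm_num)]
    have h1 : (Ls G e : ℝ) * Ls G e ≤ s * n * Ls G e := mul_le_mul_of_nonneg_right def' hL0
    have h2 : 600 * s * ((n : ℝ) * Ls G e) ≤ ω₁ * ((n : ℝ) * Ls G e) :=
      mul_le_mul_of_nonneg_right hs3 (by positivity)
    nlinarith
  -- good vertices
  have hgood : ∀ q : ℕ, 1 ≤ q → ∀ v, (dd G e θ v : ℝ) ≤ ω₁ * n / 2 →
      (EE G e v : ℝ) ≤ ω₁ * n / 2 →
      ∑ i, (1 - xx G e θ i v) ^ q ≤ (M : ℝ) - 1 + E ^ q := by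
    intro q hq v h1 h2
    have h3 := hG v (by linarith)
    have h4 : (M : ℝ) * (s + ω₁) ≤ ω := by nlinarith
    have h5 := hHSU M q (fun i => xx G e θ i v) E hq hE0 (fun i => hx i v) (by
      refine le_trans ?_ h3
      rw [hE]; linarith)
    rw [Finset.sum_sub_distrib] at h5
    simp only [Finset.sum_const, Finset.card_univ, Fintype.card_fin, nsmul_eq_mul, mul_one] at h5
    linarith
  have hall : ∀ q : ℕ, ∀ v, ∑ i, (1 - xx G e θ i v) ^ q ≤ (M : ℝ) := by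
    intro q v
    calc ∑ i, (1 - xx G e θ i v) ^ q ≤ ∑ _i : Fin M, (1 : ℝ) := by
          refine Finset.sum_le_sum (fun i _ => ?_)
          exact pow_le_one₀ (by linarith [(hx i v).2]) (by linarith [(hx i v).1])
      _ = M := by simp
  -- the maximum
  have hne : (univ : Finset (Fin M × Fin n)).Nonempty :=
    ⟨(⟨0, by omega⟩, ⟨0, pos⟩), mem_univ _⟩
  obtain ⟨⟨i0, z⟩, -, hmax⟩ := Finset.exists_max_image (univ : Finset (Fin M × Fin n))
    (fun p => MP_1ce445_fx.dg (G (e p.1)) (low (G (e p.1)) θ) p.2) hne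
  obtain ⟨Δ, hΔ⟩ : ∃ d : ℕ, d = MP_1ce445_fx.dg (G (e i0)) (low (G (e i0)) θ) z := ⟨_, rfl⟩
  have hΔmax : ∀ i v, MP_1ce445_fx.dg (G (e i)) (low (G (e i)) θ) v ≤ Δ := by
    intro i v
    rw [hΔ]
    exact hmax (i, v) (mem_univ _)
  have hddΔ : ∀ v, (dd G e θ v : ℝ) ≤ M * Δ := by
    intro v
    have : dd G e θ v ≤ M * Δ := by
      unfold dd
      calc ∑ i, MP_1ce445_fx.dg (G (e i)) (low (G (e i)) θ) v ≤ ∑ _i : Fin M, Δ :=
            Finset.sum_le_sum (fun i _ => hΔmax i v)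
        _ = M * Δ := by simp
    exact_mod_cast this
  by_cases hA : (M : ℝ) * Δ ≤ ω₁ * n / 2
  · -- case A
    have hEr : 0 ≤ E ^ r := pow_nonneg hE0 r
    have hEr1 : E ^ r ≤ 1 := pow_le_one₀ hE0 (by linarith)
    have hsum := ADP_sum (fun v => ∑ i, (1 - xx G e θ i v) ^ r) b1 ((M : ℝ) - 1 + E ^ r)
      (Ls G e / 100) M (hall r) (by
        intro v hv
        refine hgood r hr v ((hddΔ v).trans hA) ?_
        by_contra hcon
        push Not at hcon
        exact hv (by rw [hb1]; exact Finset.mem_filter.mpr ⟨mem_univ _, hcon⟩))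
      (by
        have h1 : (M : ℝ) - ((M : ℝ) - 1 + E ^ r) ≤ 1 := by linarith
        calc (b1.card : ℝ) * ((M : ℝ) - ((M : ℝ) - 1 + E ^ r)) ≤ (b1.card : ℝ) * 1 :=
              mul_le_mul_of_nonneg_left h1 (by positivity)
          _ ≤ _ := by linarith)
    rw [← hE]
    linarith
  · -- case B
    push Not at hA
    have hS2' := hS2 i0 z
    obtain ⟨-, -, hDM⟩ := hDMO n k M Δ G e θ th.le hΔmax
    have hD1 := (hDMO n k M Δ G e θ th.le hΔmax).1
    obtain ⟨b2, hb2⟩ : ∃ b : Finset (Fin n), b = univ.filter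
        (fun v => ω₁ * n / 2 < ((dd G e θ v : ℕ) : ℝ)) := ⟨_, rfl⟩
    have hb2c : (b2.card : ℝ) ≤ ω₁ * n / (16 * M) := by
      have h := ADP_mark (fun v => dd G e θ v) (ω₁ * n / 2) (M * θ * (n : ℝ) ^ 2) (by positivity) hD1
      rw [← hb2] at h
      refine h.trans ?_
      rw [div_le_div_iff₀ (by positivity) (by positivity)]
      have h1 : 32 * (M : ℝ) ^ 2 * θ * (n : ℝ) ^ 2 ≤ ω₁ ^ 2 * (n : ℝ) ^ 2 :=
        mul_le_mul_of_nonneg_right ht3 (by positivity)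
      nlinarith
    have hEr : 0 ≤ E ^ r₀ := pow_nonneg hE0 r₀
    have hEr1 : E ^ r₀ ≤ 1 := pow_le_one₀ hE0 (by linarith)
    have hEr2 : E ^ r₀ ≤ ω₁ / (16 * M) := (pow_le_pow_left₀ hE0 hE1 r₀).trans hr₀
    have hr₀1 : 1 ≤ r₀ := by
      by_contra hcon
      have h0 : r₀ = 0 := by omega
      rw [h0, pow_zero, le_div_iff₀ (by positivity)] at hEr2
      nlinarith
    have hsum := ADP_sum (fun v => ∑ i, (1 - xx G e θ i v) ^ r₀) (b1 ∪ b2)
      ((M : ℝ) - 1 + E ^ r₀) (Ls G e / 100 + ω₁ * n / (16 * M)) M (hall r₀) (by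
        intro v hv
        rw [Finset.mem_union, not_or] at hv
        refine hgood r₀ hr₀1 v ?_ ?_
        · by_contra hcon
          push Not at hcon
          exact hv.2 (by rw [hb2]; exact Finset.mem_filter.mpr ⟨mem_univ _, hcon⟩)
        · by_contra hcon
          push Not at hcon
          exact hv.1 (by rw [hb1]; exact Finset.mem_filter.mpr ⟨mem_univ _, hcon⟩))
      (by
        have h1 : (M : ℝ) - ((M : ℝ) - 1 + E ^ r₀) ≤ 1 := by linarith
        have h2 : ((b1 ∪ b2).card : ℝ) ≤ b1.card + b2.card := by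
          exact_mod_cast Finset.card_union_le b1 b2
        calc ((b1 ∪ b2).card : ℝ) * ((M : ℝ) - ((M : ℝ) - 1 + E ^ r₀)) ≤
              ((b1 ∪ b2).card : ℝ) * 1 := mul_le_mul_of_nonneg_left h1 (by positivity)
          _ ≤ _ := by linarith)
    -- the vertices of low degree next to z
    have hsub : (3 / 4 : ℝ) * Δ ≤ ∑ v ∈ MP_1ce445_fx.nb (G (e i0)) z, (1 - xx G e θ i0 v) ^ r₀ := by
      have hset : ((low (G (e i0)) θ).filter (fun w => (G (e i0)).Adj z w)) ⊆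
          MP_1ce445_fx.nb (G (e i0)) z := by
        intro w hw
        unfold MP_1ce445_fx.nb
        exact Finset.mem_filter.mpr ⟨mem_univ _, (Finset.mem_filter.mp hw).2⟩
      have hterm : ∀ y ∈ (low (G (e i0)) θ).filter (fun w => (G (e i0)).Adj z w),
          (3 / 4 : ℝ) ≤ (1 - xx G e θ i0 y) ^ r₀ := by
        intro y hy
        have hy1 : (MP_1ce445_fx.dg (G (e i0)) univ y : ℝ) < θ * n := by
          have := (Finset.mem_filter.mp hy).1
          rw [hlowdef i0] at this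
          exact (Finset.mem_filter.mp this).2
        have hy2 : (MP_1ce445_fx.dg (G (e i0)) (hi (G (e i0)) θ) y : ℝ) ≤
            MP_1ce445_fx.dg (G (e i0)) univ y := by
          have : MP_1ce445_fx.dg (G (e i0)) (hi (G (e i0)) θ) y ≤
              MP_1ce445_fx.dg (G (e i0)) univ y :=
            Finset.card_le_card (Finset.filter_subset_filter _ (Finset.subset_univ _))
          exact_mod_cast this
        have hbig := big i0
        have hc0 : (0 : ℝ) < (hi (G (e i0)) θ).card := lt_of_lt_of_le (by positivity) hbig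
        have hx1 : xx G e θ i0 y ≤ 2 * M * θ := by
          unfold xx
          rw [div_le_iff₀ hc0]
          have h1 : 2 * M * θ * (3 * (n : ℝ) / (4 * M)) ≤ 2 * M * θ * (hi (G (e i0)) θ).card :=
            mul_le_mul_of_nonneg_left hbig (by positivity)
          have h2 : 2 * M * θ * (3 * (n : ℝ) / (4 * M)) = 3 / 2 * (θ * n) := by
            field_simp; ring
          have h3 : 0 < θ * n := by positivity
          linarith
        have hbern := one_add_mul_le_pow (show (-2 : ℝ) ≤ -(2 * M * θ) by nlinarith) r₀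
        have hr0R : (0 : ℝ) ≤ r₀ := by positivity
        have h4 : 8 * (M : ℝ) * r₀ * θ ≤ 1 := by nlinarith [mul_pos hm0 ht0]
        calc (3 / 4 : ℝ) ≤ 1 + r₀ * (-(2 * M * θ)) := by nlinarith
          _ ≤ (1 + -(2 * M * θ)) ^ r₀ := hbern
          _ ≤ (1 - xx G e θ i0 y) ^ r₀ := by
              refine pow_le_pow_left₀ ?_ (by linarith) r₀
              nlinarith
      have hΔc : (Δ : ℝ) = (((low (G (e i0)) θ).filter
          (fun w => (G (e i0)).Adj z w)).card : ℝ) := by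
        rw [hΔ]; rfl
      calc (3 / 4 : ℝ) * Δ = ∑ _y ∈ (low (G (e i0)) θ).filter (fun w => (G (e i0)).Adj z w),
            (3 / 4 : ℝ) := by rw [Finset.sum_const, nsmul_eq_mul, hΔc]; ring
        _ ≤ ∑ y ∈ (low (G (e i0)) θ).filter (fun w => (G (e i0)).Adj z w),
            (1 - xx G e θ i0 y) ^ r₀ := Finset.sum_le_sum hterm
        _ ≤ _ := Finset.sum_le_sum_of_subset_of_nonneg hset (fun v _ _ =>
            pow_nonneg (by linarith [(hx i0 v).2]) r₀)
    have hErr : 0 ≤ n * (E ^ r) := by positivity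
    have hD2 : ω₁ * n / (2 * M) ≤ Δ := by
      rw [div_le_iff₀ (by positivity)]
      linarith
    have hMr : (0 : ℝ) ≤ M * r := by positivity
    have hmul : (n : ℝ) * E ^ r₀ ≤ n * (ω₁ / (16 * M)) := mul_le_mul_of_nonneg_left hEr2 hN.le
    obtain ⟨Z, hZ⟩ : ∃ Z : ℝ, Z = ω₁ * n / (16 * M) := ⟨_, rfl⟩
    have e1 : (n : ℝ) * (ω₁ / (16 * M)) = Z := by rw [hZ]; ring
    have e2 : ω₁ * n / (2 * M) = 8 * Z := by rw [hZ]; field_simp; ring
    have e3 : M * r₀ + 1 ≤ 4 * Z := by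
      rw [hZ]
      rw [show 4 * (ω₁ * n / (16 * M)) = ω₁ * n / (4 * M) by field_simp; ring,
        le_div_iff₀ (by positivity)]
      linarith
    rw [← hZ] at hsum
    rw [e1] at hmul
    rw [e2] at hD2
    rw [← hE]
    have e4 : (n : ℝ) * ((M : ℝ) - 1 + E ^ r₀) = ((M : ℝ) - 1) * n + n * E ^ r₀ := by ring
    rw [e4] at hsum
    linarith

end Pool.Agent.Work.MP_1ce445_plt
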