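import Pool.Agent.Work.MP_1ce445_plt.Interface

/-!
Block GOD: lower bound for the sum of the `x_i(v)` for good vertices.
-/

namespace Pool.Agent.Work.MP_1ce445_plt

open Finset Pool.Agent.Work.MP_1ce445_co_56 Pool.Agent.Work.MP_1ce445_lin
  Pool.Agent.Work.MP_1ce445_fx Pool.Agent.Work.MP_1ce445_stm

theorem stmt_GOD : Pool.Agent.Work.MP_1ce445_stm.Stmt_DEG → Stmt_GOD := by
  intro h1 n k M G e θ s ω₁ hS hsz hω v hv
  have hdeg := h1 n k M G e θ hS.fac hS.inj v
  have hn : (0 : ℝ) < n := by exact_mod_cast hS.pos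
  have hM2 : (2 : ℝ) ≤ M := by exact_mod_cast hS.two
  have hM : (0 : ℝ) < M := by linarith
  have ht := hS.tnn
  have hs := hS.s0
  have hsn : 0 ≤ s * n := mul_nonneg hs.le hn.le
  have hωn : 0 ≤ ω₁ * n := mul_nonneg hω hn.le
  have hsum : 0 ≤ s * n + tt n k M + ω₁ * n := by linarith
  obtain ⟨B, hB⟩ : ∃ B : ℝ, B = n / M + s * n := ⟨_, rfl⟩
  have hnM : (0 : ℝ) < n / M := by positivity
  have hB0 : 0 < B := by rw [hB]; linarith
  have hcard : ∀ i, (0 : ℝ) < (hi (G (e i)) θ).card := fun i => by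
    have h3 := hS.big i
    have h4 : (0 : ℝ) < 3 * (n : ℝ) / (4 * M) := by positivity
    linarith
  have hx : ∀ i, (MP_1ce445_fx.dg (G (e i)) (hi (G (e i)) θ) v : ℝ) / B ≤ xx G e θ i v := by
    intro i
    unfold xx
    apply div_le_div_of_nonneg_left (Nat.cast_nonneg _) (hcard i)
    have h5 := hsz i
    have h6 : (1 / (M : ℝ) + s) * n = n / M + s * n := by ring
    rw [hB]
    linarith
  have hdeg' : (∑ i, (MP_1ce445_fx.dg (G (e i)) (hi (G (e i)) θ) v : ℝ)) + dd G e θ v +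
      EE G e v + k + 1 = n + M := by exact_mod_cast hdeg
  have htt : tt n k M = k - n + n / M := rfl
  have h5 : B - (s * n + tt n k M + ω₁ * n) ≤
      ∑ i, (MP_1ce445_fx.dg (G (e i)) (hi (G (e i)) θ) v : ℝ) := by
    rw [hB, htt]
    linarith
  calc 1 - (M * tt n k M / n + M * (s + ω₁)) = 1 - (s * n + tt n k M + ω₁ * n) / (n / M) := by
        field_simp
        ring
    _ ≤ 1 - (s * n + tt n k M + ω₁ * n) / B := by
        have h6 : (s * n + tt n k M + ω₁ * n) / B ≤
            (s * n + tt n k M + ω₁ * n) / (n / M) := by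
          apply div_le_div_of_nonneg_left hsum hnM
          rw [hB]
          linarith
        linarith
    _ = (B - (s * n + tt n k M + ω₁ * n)) / B := by
        rw [sub_div, div_self hB0.ne']
    _ ≤ (∑ i, (MP_1ce445_fx.dg (G (e i)) (hi (G (e i)) θ) v : ℝ)) / B := by
        exact div_le_div_of_nonneg_right h5 hB0.le
    _ = ∑ i, (MP_1ce445_fx.dg (G (e i)) (hi (G (e i)) θ) v : ℝ) / B := by rw [sum_div]
    _ ≤ ∑ i, xx G e θ i v := sum_le_sum fun i _ => hx i

end Pool.Agent.Work.MP_1ce445_plt
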