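import Pool.Agent.Work.MP_1ce445_plt.Interface

/-!
HSU (MP_1ce445_co, plateaus): an inequality for real numbers.
-/

namespace Pool.Agent.Work.MP_1ce445_plt

open Finset Pool.Agent.Work.MP_1ce445_co_56 Pool.Agent.Work.MP_1ce445_lin
  Pool.Agent.Work.MP_1ce445_fx Pool.Agent.Work.MP_1ce445_stm

lemma HSU_mono (r : ℕ) (a b a' b' : ℝ) (hb : 0 ≤ b) (hba : b ≤ a) (haa : a ≤ a')
    (h : a - b = a' - b') : a ^ r - b ^ r ≤ a' ^ r - b' ^ r := by
  have hbb : b ≤ b' := by linarith
  have hba' : b' ≤ a' := by linarith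
  induction r with
  | zero => simp
  | succ r ih =>
    have h1 : a ^ (r + 1) - b ^ (r + 1) = a * (a ^ r - b ^ r) + (a - b) * b ^ r := by ring
    have h2 : a' ^ (r + 1) - b' ^ (r + 1) = a' * (a' ^ r - b' ^ r) + (a' - b') * b' ^ r := by ring
    rw [h1, h2]
    have h3 : 0 ≤ a ^ r - b ^ r := by
      have := pow_le_pow_left₀ hb hba r
      linarith
    have h4 : a * (a ^ r - b ^ r) ≤ a' * (a' ^ r - b' ^ r) :=
      mul_le_mul haa ih h3 (by linarith)
    have h5 : (a - b) * b ^ r ≤ (a' - b') * b' ^ r :=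
      mul_le_mul (le_of_eq h) (pow_le_pow_left₀ hb hbb r) (pow_nonneg hb r) (by linarith)
    linarith

lemma HSU_step (r : ℕ) (hr : 1 ≤ r) (u x : ℝ) (hu0 : 0 ≤ u) (hu1 : u ≤ 1) (hx0 : 0 ≤ x)
    (hx1 : x ≤ 1) : u ^ r - (max 0 (u - x)) ^ r ≤ 1 - (1 - x) ^ r := by
  rcases le_or_gt x u with h | h
  · rw [max_eq_right (by linarith)]
    have := HSU_mono r u (u - x) 1 (1 - x) (by linarith) (by linarith) hu1 (by ring)
    rw [one_pow] at this
    exact this
  · rw [max_eq_left (by linarith), zero_pow (by omega), sub_zero]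
    have h1 : u ^ r ≤ u := pow_le_of_le_one hu0 hu1 (by omega)
    have h2 : (1 - x) ^ r ≤ 1 - x := pow_le_of_le_one (by linarith) (by linarith) (by omega)
    linarith

theorem stmt_HSU : Stmt_HSU := by
  intro M r x e hr he hx hs
  have key : ∀ S : Finset (Fin M), 1 - (max 0 (1 - ∑ i ∈ S, x i)) ^ r ≤
      ∑ i ∈ S, (1 - (1 - x i) ^ r) := by
    intro S
    induction S using Finset.induction_on with
    | empty => simp
    | insert a S ha ih =>
      rw [sum_insert ha, sum_insert ha]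
      have hsn : 0 ≤ ∑ i ∈ S, x i := sum_nonneg (fun i _ => (hx i).1)
      have hm : max 0 (1 - (x a + ∑ i ∈ S, x i)) = max 0 (max 0 (1 - ∑ i ∈ S, x i) - x a) := by
        rcases le_or_gt (1 - ∑ i ∈ S, x i) 0 with h | h
        · rw [max_eq_left (by linarith [(hx a).1]), max_eq_left h,
            max_eq_left (by linarith [(hx a).1])]
        · rw [max_eq_right h.le]
          congr 1
          ring
      rw [hm]
      have h1 := HSU_step r hr (max 0 (1 - ∑ i ∈ S, x i)) (x a) (le_max_left _ _)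
        (max_le (by norm_num) (by linarith)) (hx a).1 (hx a).2
      linarith
  have h1 := key univ
  have h2 : max 0 (1 - ∑ i, x i) ≤ e := max_le he (by linarith)
  have h3 : (max 0 (1 - ∑ i, x i)) ^ r ≤ e ^ r := pow_le_pow_left₀ (le_max_left _ _) h2 r
  linarith

end Pool.Agent.Work.MP_1ce445_plt
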