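import Pool.Agent.Work.MP_1ce445_plt.Interface
import Pool.Agent.Work.MP_1ce445_stm.STB

/-!
Block SB2: from ST2 to the situation `St` (copy of `MP_1ce445_stm/STB.lean`).
-/

namespace Pool.Agent.Work.MP_1ce445_plt

open Finset Pool.Agent.Work.MP_1ce445_co_56 Pool.Agent.Work.MP_1ce445_lin
  Pool.Agent.Work.MP_1ce445_fx Pool.Agent.Work.MP_1ce445_stm

/-- `(1 - 1/M)^M ≤ 1/2` -/
theorem SB2_half {M : ℕ} (hM : 2 ≤ M) : (1 - 1 / (M : ℝ)) ^ M ≤ 1 / 2 := by
  have hM2 : (2 : ℝ) ≤ M := by exact_mod_cast hM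
  have hM0 : (0 : ℝ) < M := by linarith
  have hinv : 1 / (M : ℝ) ≤ 1 / 2 := one_div_le_one_div_of_le (by norm_num) hM2
  have h1 : 1 - 1 / (M : ℝ) ≤ Real.exp (-(1 / (M : ℝ))) := by
    have := Real.add_one_le_exp (-(1 / (M : ℝ)))
    linarith
  have h2 : (1 - 1 / (M : ℝ)) ^ M ≤ Real.exp (-(1 / (M : ℝ))) ^ M :=
    pow_le_pow_left₀ (by linarith) h1 M
  have h3 : Real.exp (-(1 / (M : ℝ))) ^ M = Real.exp (-1) := by
    rw [← Real.exp_nat_mul]
    congr 1
    field_simp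
  have h4 : Real.exp (-1) ≤ 1 / 2 := by
    rw [Real.exp_neg, inv_eq_one_div]
    apply one_div_le_one_div_of_le (by norm_num)
    have := Real.add_one_le_exp (1 : ℝ)
    linarith
  rw [h3] at h2
  linarith

/-- `k/n ≤ 1 - 1/(3M)` -/
theorem SB2_k {n k M : ℕ} (hM : 2 ≤ M) (hn : 0 < n)
    (h : ((k : ℝ) / n) ^ (M + 1) ≤ (1 - 1 / (M : ℝ)) ^ M) : (k : ℝ) + n / (3 * M) ≤ n := by
  have hM2 : (2 : ℝ) ≤ M := by exact_mod_cast hM
  have hM0 : (0 : ℝ) < M := by linarith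
  have hn' : (0 : ℝ) < n := by exact_mod_cast hn
  by_contra hcon
  push Not at hcon
  set c : ℝ := 1 - 1 / (2 * ((M : ℝ) + 1)) with hc
  have hc0 : 0 ≤ c := by
    have : 1 / (2 * ((M : ℝ) + 1)) ≤ 1 / 2 :=
      one_div_le_one_div_of_le (by norm_num) (by linarith)
    linarith
  have h1 : c ≤ 1 - 1 / (3 * (M : ℝ)) := by
    have : 1 / (3 * (M : ℝ)) ≤ 1 / (2 * ((M : ℝ) + 1)) :=
      one_div_le_one_div_of_le (by linarith) (by linarith)
    linarith
  have h2 : c < (k : ℝ) / n := by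
    refine lt_of_le_of_lt h1 ?_
    rw [lt_div_iff₀ hn']
    have h3 : (1 - 1 / (3 * (M : ℝ))) * n = n - n / (3 * M) := by
      field_simp
    rw [h3]
    linarith
  have h3 : c ^ (M + 1) < ((k : ℝ) / n) ^ (M + 1) := pow_lt_pow_left₀ h2 hc0 (by omega)
  have h4 : 1 / 2 ≤ c ^ (M + 1) := by
    have h5 := one_add_mul_le_pow (a := -(1 / (2 * ((M : ℝ) + 1)))) (by
      have : 1 / (2 * ((M : ℝ) + 1)) ≤ 1 / 2 :=
        one_div_le_one_div_of_le (by norm_num) (by linarith)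
      linarith) (M + 1)
    have h6 : 1 + ((M + 1 : ℕ) : ℝ) * -(1 / (2 * ((M : ℝ) + 1))) = 1 / 2 := by
      push_cast
      field_simp
      ring
    rw [h6] at h5
    have h7 : 1 + -(1 / (2 * ((M : ℝ) + 1))) = c := by
      rw [hc]
      ring
    rwa [h7] at h5
  have h5 := SB2_half hM
  linarith

theorem stmt_SB2 : MP_1ce445_stm.Stmt_DEG → MP_1ce445_stm.Stmt_EMO → Stmt_ST2 → Stmt_SB2 := by
  intro hDEG hEMO hST2 M hM ε₀ θ s hε₀ hθ hθ' hs hs'
  classical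
  have hM2 : (2 : ℝ) ≤ M := by exact_mod_cast hM
  have hM0 : (0 : ℝ) < M := by linarith
  obtain ⟨κ, hκ, hκs, hκM, hκ3⟩ : ∃ κ : ℝ, 0 < κ ∧ 4 * M * κ ≤ s ∧ 4 * (M : ℝ) ^ 2 * κ ≤ 1 ∧
      96 * (M : ℝ) ^ 3 * κ ≤ 1 := by
    have hs1 : s ≤ 1 := by nlinarith
    have e1 : 96 * (M : ℝ) ^ 3 * (s / (96 * (M : ℝ) ^ 3)) = s := by field_simp
    have h0 : 0 < s / (96 * (M : ℝ) ^ 3) := by positivity
    refine ⟨s / (96 * (M : ℝ) ^ 3), h0, ?_, ?_, ?_⟩
    · refine le_trans (mul_le_mul_of_nonneg_right ?_ h0.le) e1.le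
      have : (4 : ℝ) ≤ M ^ 2 := by nlinarith
      nlinarith
    · have h1 : 4 * (M : ℝ) ^ 2 ≤ 96 * (M : ℝ) ^ 3 := by
        have : (0 : ℝ) ≤ M ^ 2 := by positivity
        nlinarith
      have h2 := mul_le_mul_of_nonneg_right h1 h0.le
      linarith
    · linarith
  obtain ⟨n0, hST⟩ := hST2 M hM ε₀ θ κ hε₀ hθ hκ
  refine ⟨max n0 1, ?_⟩
  intro n k hn heven htt0 hkn G hG hprod
  have hn0 : 0 < n := lt_of_lt_of_le one_pos ((le_max_right _ _).trans hn)
  have hn' : (0 : ℝ) < n := by exact_mod_cast hn0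
  obtain ⟨e, he, hg, hhi, hov⟩ := hST n k ((le_max_left _ _).trans hn) heven hkn G hG hprod
  have hLs := STB_loss hM hn0 hG he hκ hg hprod
  have hk3 := SB2_k hM hn0 (by linarith)
  obtain ⟨y, hy⟩ : ∃ y : ℝ, y = (n : ℝ) / M := ⟨_, rfl⟩
  have hyn : (n : ℝ) = M * y := by
    rw [hy]
    field_simp
  have hy0 : 0 < y := by
    rw [hy]
    positivity
  have h3M : (n : ℝ) / (3 * M) = y / 3 := by
    rw [hy]
    field_simp
  rw [h3M] at hk3
  -- the vertices in no set `hi`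
  set R0 : Finset (Fin n) := univ.filter (fun v => ∀ i, v ∉ hi (G (e i)) θ) with hR0
  have hEE : ∀ v ∈ R0, y / 4 ≤ (EE G e v : ℝ) := by
    intro v hv
    rw [hR0, mem_filter] at hv
    have h1 := hDEG n k M G e θ hG he v
    have h2 : ∑ i, MP_1ce445_fx.dg (G (e i)) univ v =
        ∑ i, MP_1ce445_fx.dg (G (e i)) (hi (G (e i)) θ) v + dd G e θ v := by
      unfold dd
      rw [← sum_add_distrib]
      exact sum_congr rfl fun i _ => DEG_split _ _ _
    rw [← h2] at h1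
    have h3 : (∑ i, (MP_1ce445_fx.dg (G (e i)) univ v : ℝ)) ≤ M * (θ * n) := by
      calc (∑ i, (MP_1ce445_fx.dg (G (e i)) univ v : ℝ)) ≤ ∑ _i : Fin M, θ * n := by
            apply sum_le_sum
            intro i _
            have h4 := hv.2 i
            unfold hi at h4
            simp only [mem_filter, mem_univ, true_and, not_le] at h4
            exact h4.le
        _ = M * (θ * n) := by
            rw [sum_const, card_univ, Fintype.card_fin, nsmul_eq_mul]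
    have h4 : (∑ i, (MP_1ce445_fx.dg (G (e i)) univ v : ℝ)) + EE G e v + k + 1 = n + M := by
      exact_mod_cast h1
    have h5 : (M : ℝ) * (θ * n) ≤ y / 12 := by
      have h6 : 12 * (M : ℝ) ^ 2 * θ * y ≤ 1 * y := mul_le_mul_of_nonneg_right hθ' hy0.le
      rw [hyn]
      nlinarith
    linarith
  have hR0c : (R0.card : ℝ) ≤ κ * n := by
    have h1 : (R0.card : ℝ) * (y / 4) ≤ ∑ v ∈ R0, (EE G e v : ℝ) := by
      rw [← nsmul_eq_mul]
      exact card_nsmul_le_sum _ _ _ hEE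
    have h2 : ∑ v ∈ R0, (EE G e v : ℝ) ≤ ∑ v, (EE G e v : ℝ) :=
      sum_le_sum_of_subset_of_nonneg (subset_univ _) (fun v _ _ => Nat.cast_nonneg _)
    have h3 : (∑ v, (EE G e v : ℝ)) ≤ 3 * (Ls G e : ℝ) ^ 2 := by
      exact_mod_cast (hEMO n k M G e hG).2.1
    have h4 : (Ls G e : ℝ) ^ 2 ≤ (2 * M * κ * n) ^ 2 :=
      pow_le_pow_left₀ (Nat.cast_nonneg _) hLs 2
    have h5 : (R0.card : ℝ) * (y / 4) ≤ (48 * (M : ℝ) ^ 3 * κ * (κ * n)) * (y / 4) := by
      calc (R0.card : ℝ) * (y / 4) ≤ 3 * (2 * M * κ * n) ^ 2 := by linarith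
        _ = (48 * (M : ℝ) ^ 2 * κ * (κ * n)) * (n / 4) := by ring
        _ = (48 * (M : ℝ) ^ 2 * κ * (κ * n)) * (M * y / 4) := by rw [← hyn]
        _ = (48 * (M : ℝ) ^ 3 * κ * (κ * n)) * (y / 4) := by ring
    have h6 : (R0.card : ℝ) ≤ 48 * (M : ℝ) ^ 3 * κ * (κ * n) :=
      le_of_mul_le_mul_right h5 (by positivity)
    have h7 : 48 * (M : ℝ) ^ 3 * κ * (κ * n) ≤ 1 * (κ * n) :=
      mul_le_mul_of_nonneg_right (by linarith) (by positivity)
    linarith
  have hcov : ∀ j : Fin M, (n : ℝ) ≤ R0.card + (hi (G (e j)) θ).card +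
      ∑ i ∈ univ.erase j, ((hi (G (e i)) θ).card : ℝ) := by
    intro j
    have h1 : (univ : Finset (Fin n)) ⊆ R0 ∪ univ.biUnion (fun i => hi (G (e i)) θ) := by
      intro v _
      rw [mem_union, mem_biUnion]
      by_cases h : ∃ i, v ∈ hi (G (e i)) θ
      · obtain ⟨i, hi⟩ := h
        exact Or.inr ⟨i, mem_univ _, hi⟩
      · left
        rw [hR0, mem_filter]
        exact ⟨mem_univ _, fun i hi => h ⟨i, hi⟩⟩
    have h2 := (card_le_card h1).trans (card_union_le _ _)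
    have h3 : (univ.biUnion (fun i => hi (G (e i)) θ)).card ≤ ∑ i, (hi (G (e i)) θ).card :=
      card_biUnion_le
    rw [card_univ, Fintype.card_fin] at h2
    have h4 : ∑ i, (hi (G (e i)) θ).card = (hi (G (e j)) θ).card +
        ∑ i ∈ univ.erase j, (hi (G (e i)) θ).card := (add_sum_erase _ _ (mem_univ j)).symm
    have h5 : n ≤ R0.card + (hi (G (e j)) θ).card +
        ∑ i ∈ univ.erase j, (hi (G (e i)) θ).card := by omega
    exact_mod_cast h5
  have hκs' : κ ≤ s := by nlinarith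
  have hθ4 : 4 * (M : ℝ) ^ 2 * θ ≤ 1 := by
    have : 0 ≤ (M : ℝ) ^ 2 * θ := by positivity
    linarith
  refine ⟨e, ⟨hM, hn0, hG, he, hθ, hθ4, hs, hs', htt0, ?_, ?_, ?_⟩, ?_⟩
  · intro j
    have h1 := hcov j
    have h2 : (∑ i ∈ univ.erase j, ((hi (G (e i)) θ).card : ℝ)) ≤
        ((M : ℝ) - 1) * ((1 / M + κ) * n) := by
      calc (∑ i ∈ univ.erase j, ((hi (G (e i)) θ).card : ℝ))
          ≤ ∑ _i ∈ univ.erase j, (1 / (M : ℝ) + κ) * n := sum_le_sum (fun i _ => hhi i)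
        _ = ((M : ℝ) - 1) * ((1 / M + κ) * n) := by
            rw [sum_const, card_erase_of_mem (mem_univ j), card_univ, Fintype.card_fin,
              nsmul_eq_mul, Nat.cast_sub (by omega)]
            simp
    have h3 : (1 / (M : ℝ) + κ) * n = y + κ * n := by
      rw [hy]
      ring
    have h4 : 3 * (n : ℝ) / (4 * M) = 3 / 4 * y := by
      rw [hy]
      field_simp
    have h5 : (M : ℝ) * (κ * n) ≤ y / 4 := by
      have h6 : 4 * (M : ℝ) ^ 2 * κ * y ≤ 1 * y := mul_le_mul_of_nonneg_right hκM hy0.le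
      rw [hyn]
      nlinarith
    rw [h3] at h2
    rw [h4]
    have h6 : ((M : ℝ) - 1) * (y + κ * n) = n - y + M * (κ * n) - κ * n := by
      rw [hyn]
      ring
    rw [h6] at h2
    linarith
  · exact hov.trans (mul_le_mul_of_nonneg_right hκs' hn'.le)
  · refine hLs.trans (mul_le_mul_of_nonneg_right ?_ hn'.le)
    nlinarith
  · intro i
    refine (hhi i).trans (mul_le_mul_of_nonneg_right ?_ hn'.le)
    linarith

end Pool.Agent.Work.MP_1ce445_plt
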