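import Pool.Agent.Work.MP_1ce445_plt.Interface
import Pool.Agent.Work.MP_1ce445_fx.SLO

set_option autoImplicit false

namespace Pool.Agent.Work.MP_1ce445_plt

open Finset Pool.Agent.Work.MP_1ce445_co_56 Pool.Agent.Work.MP_1ce445_lin
  Pool.Agent.Work.MP_1ce445_fx Pool.Agent.Work.MP_1ce445_stm

/-- `r - 1` is at most `log (2q)/ε` -/
theorem SLP_r {ε x y : ℝ} {s : ℕ} (hε : 0 < ε) (hε1 : ε < 1) (hx : 1 ≤ x) (hy0 : 0 < y)
    (hy : y ≤ 1 - ε) (h : 1 ≤ x ^ (1 - ε) * y ^ s) : ε * s ≤ Real.log x := by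
  have hx0 : 0 < x := by linarith
  have h1 : 0 ≤ Real.log (x ^ (1 - ε) * y ^ s) := Real.log_nonneg h
  rw [Real.log_mul (by positivity) (by positivity), Real.log_rpow hx0, Real.log_pow] at h1
  have h2 : Real.log y ≤ -ε := by
    have := Real.log_le_sub_one_of_pos hy0
    linarith
  have h3 : 0 ≤ Real.log x := Real.log_nonneg hx
  have h4 : (s : ℝ) * Real.log y ≤ s * (-ε) := mul_le_mul_of_nonneg_left h2 (Nat.cast_nonneg _)
  nlinarith

theorem SLP_log {x : ℝ} (hx : 0 < x) : Real.log x ≤ 2 * √x := by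
  have h1 : Real.log x = 2 * Real.log (√x) := by
    rw [Real.log_sqrt hx.le]
    ring
  have h2 := Real.log_le_sub_one_of_pos (Real.sqrt_pos.2 hx)
  linarith

/-- the numerical condition for `t - M` labels -/
theorem SLP_num {M t s : ℕ} {ε x : ℝ} (hM : 2 ≤ M) (hε : 0 < ε) (hε1 : ε < 1)
    (hx1 : 16 * (M : ℝ) ^ 2 / ε ^ 4 ≤ x) (hx2 : (2 : ℝ) ^ (2 / ε) ≤ x) (hx3 : 2 * (M : ℝ) / ε ≤ x)
    (ht : (t : ℝ) ≤ (1 - ε) * x) (ht2 : ε * x ≤ t)
    (h : 1 ≤ x ^ (1 - ε) * ((t : ℝ) / x) ^ s) :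
    1 ≤ x ^ (1 - ε / 2) * (((t : ℝ) - M) / x) ^ s := by
  have hMr : (2 : ℝ) ≤ M := by exact_mod_cast hM
  have hx0 : 4 ≤ x := by
    have h1 : 4 ≤ 2 * (M : ℝ) / ε := by
      rw [le_div_iff₀ hε]
      nlinarith
    linarith
  have hxp : 0 < x := by linarith
  have ht0 : 0 < (t : ℝ) := lt_of_lt_of_le (by positivity) ht2
  have hs := SLP_r (s := s) hε hε1 (by linarith : 1 ≤ x) (div_pos ht0 hxp)
    (by rw [div_le_iff₀ hxp]; exact ht) h
  have hlog := SLP_log hxp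
  -- `√x` is large
  have hsq : 4 * (M : ℝ) / ε ^ 2 ≤ √x := by
    apply Real.le_sqrt_of_sq_le
    refine le_trans (le_of_eq ?_) hx1
    field_simp
    ring
  have hss : √x * √x = x := Real.mul_self_sqrt hxp.le
  have hs0 : 0 < √x := Real.sqrt_pos.2 hxp
  have hMs : (M : ℝ) * s ≤ t / 2 := by
    have h1 : 4 * (M : ℝ) ≤ √x * ε ^ 2 := by rwa [div_le_iff₀ (by positivity)] at hsq
    have h2 : ε * s ≤ 2 * √x := hs.trans hlog
    have h3 : 4 * (M : ℝ) * (ε * s) ≤ (√x * ε ^ 2) * (2 * √x) :=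
      mul_le_mul h1 h2 (by positivity) (by positivity)
    have h4 : (√x * ε ^ 2) * (2 * √x) = 2 * ε ^ 2 * x := by
      calc (√x * ε ^ 2) * (2 * √x) = 2 * ε ^ 2 * (√x * √x) := by ring
        _ = _ := by rw [hss]
    rw [h4] at h3
    have h5 : 4 * (M : ℝ) * s ≤ 2 * (ε * x) := by
      have h6 : ε * (4 * (M : ℝ) * s) ≤ ε * (2 * (ε * x)) := by nlinarith
      exact le_of_mul_le_mul_left h6 hε
    linarith
  have hMt : (M : ℝ) ≤ t / 2 := by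
    rw [div_le_iff₀ hε] at hx3
    nlinarith
  have hbern : 1 / 2 ≤ (1 - (M : ℝ) / t) ^ s := by
    have h1 : -2 ≤ -((M : ℝ) / t) := by
      have : (M : ℝ) / t ≤ 1 := by
        rw [div_le_one ht0]; linarith
      linarith
    have h2 := one_add_mul_le_pow h1 s
    have h3 : (s : ℝ) * ((M : ℝ) / t) ≤ 1 / 2 := by
      rw [← mul_div_assoc, div_le_iff₀ ht0]
      linarith
    calc (1 : ℝ) / 2 ≤ 1 + (s : ℝ) * -((M : ℝ) / t) := by linarith
      _ ≤ (1 + -((M : ℝ) / t)) ^ s := h2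
      _ = _ := by rw [← sub_eq_add_neg]
  have hsplit : (((t : ℝ) - M) / x) ^ s = ((t : ℝ) / x) ^ s * (1 - (M : ℝ) / t) ^ s := by
    rw [← mul_pow]
    congr 1
    field_simp
  have hpow : x ^ (1 - ε / 2) = x ^ (1 - ε) * x ^ (ε / 2) := by
    rw [← Real.rpow_add hxp]
    congr 1
    ring
  have h2x : 2 ≤ x ^ (ε / 2) := by
    have h1 : ((2 : ℝ) ^ (2 / ε)) ^ (ε / 2) ≤ x ^ (ε / 2) :=
      Real.rpow_le_rpow (by positivity) hx2 (by positivity)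
    rw [← Real.rpow_mul (by norm_num)] at h1
    have h2 : 2 / ε * (ε / 2) = 1 := by field_simp
    rw [h2, Real.rpow_one] at h1
    exact h1
  rw [hsplit, hpow]
  have hA : 0 ≤ x ^ (1 - ε) * ((t : ℝ) / x) ^ s := by positivity
  have hB : 1 ≤ x ^ (ε / 2) * (1 - (M : ℝ) / t) ^ s := by
    calc (1 : ℝ) = 2 * (1 / 2) := by norm_num
      _ ≤ x ^ (ε / 2) * (1 - (M : ℝ) / t) ^ s := mul_le_mul h2x hbern (by norm_num) (by positivity)
  calc (1 : ℝ) ≤ (x ^ (1 - ε) * ((t : ℝ) / x) ^ s) * (x ^ (ε / 2) * (1 - (M : ℝ) / t) ^ s) :=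
        one_le_mul_of_one_le_of_one_le h hB
    _ = _ := by ring

theorem stmt_SLP (hLBR : Stmt_LBR) (hSCR : MP_1ce445_fx.Stmt_SCR) (hGS1 : MP_1ce445_fx.Stmt_GS1)
    (hGS2 : MP_1ce445_fx.Stmt_GS2) (hGS3 : MP_1ce445_fx.Stmt_GS3) : Stmt_SLP := by
  intro M hM ε hε hε1
  obtain ⟨q0, hL⟩ := hLBR (ε / 2) (by linarith) (by linarith)
  refine ⟨q0 + ⌈16 * (M : ℝ) ^ 2 / ε ^ 4⌉₊ + ⌈(2 : ℝ) ^ (2 / ε)⌉₊ + ⌈2 * (M : ℝ) / ε⌉₊ +
    4 * M ^ 2 + 10, fun q t r hq hr h1 h2 h3 => ?_⟩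
  have hMr : (2 : ℝ) ≤ M := by exact_mod_cast hM
  have hq1 : 16 * (M : ℝ) ^ 2 / ε ^ 4 ≤ q :=
    (Nat.le_ceil _).trans (Nat.cast_le.2 (by omega))
  have hq2 : (2 : ℝ) ^ (2 / ε) ≤ q := (Nat.le_ceil _).trans (Nat.cast_le.2 (by omega))
  have hq3 : 2 * (M : ℝ) / ε ≤ q := (Nat.le_ceil _).trans (Nat.cast_le.2 (by omega))
  have hq4 : 4 * M ^ 2 ≤ q := by omega
  have hq5 : 2 ≤ q := by omega
  have hqr : (0 : ℝ) < q := by exact_mod_cast (by omega : 0 < q)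
  have hq3' : 2 * (M : ℝ) ≤ q * ε := by rwa [div_le_iff₀ hε] at hq3
  have ht1 : 2 * (M : ℝ) ≤ t := by nlinarith
  have ht1' : 2 * M ≤ t := by exact_mod_cast ht1
  have ht2 : (t : ℝ) + 1 ≤ 2 * q := by nlinarith
  have ht2' : t + 1 ≤ 2 * q := by exact_mod_cast ht2
  have hmr : ((t - M : ℕ) : ℝ) = (t : ℝ) - M := by rw [Nat.cast_sub (by omega)]
  have c1 : ((t - M : ℕ) : ℝ) ≤ (1 - ε / 2) * (2 * q) := by
    rw [hmr]
    nlinarith
  have c2 : ε / 2 * (2 * q) ≤ ((t - M : ℕ) : ℝ) := by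
    rw [hmr]
    nlinarith
  have c3 : 1 ≤ (2 * (q : ℝ)) ^ (1 - ε / 2) * (((t - M : ℕ) : ℝ) / (2 * q)) ^ (r - 1) := by
    rw [hmr]
    exact SLP_num hM hε hε1 (by linarith) (by linarith) (by linarith) h1 h2 h3
  obtain ⟨L, hLc, hgood⟩ := hL q (t - M) r (by omega) hr c1 c2 c3
  obtain ⟨χ, hχ⟩ := hSCR M q hM hq4
  haveI : NeZero (2 * q - 1) := ⟨by omega⟩
  obtain ⟨s, hs, hsL⟩ := SLO_inj M L (by rw [hLc, ZMod.card]; omega)
  have hfac := hGS1 M q χ L s hM hq5 hχ hs hsL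
  obtain ⟨g1, g2⟩ := hGS2 M q χ L s hM hq5 hχ hs hsL
  have g3 := hGS3 M q r χ L s hM hq5 hχ hs hsL hr hgood
  have hV : Fintype.card (VS M q) = 2 * M * q := by
    rw [Fintype.card_prod, Fintype.card_fin, Fintype.card_option, ZMod.card]
    have : 2 * q - 1 + 1 = 2 * q := by omega
    rw [this]; ring
  have hι : Fintype.card (Fin ((2 * M - 2) * q) ⊕ (L ⊕ Fin M)) = (2 * M - 2) * q + t := by
    rw [Fintype.card_sum, Fintype.card_sum, Fintype.card_coe, hLc, Fintype.card_fin,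
      Fintype.card_fin]
    omega
  refine le_trans ?_ (le_P hV hι hfac)
  rw [Fintype.prod_sum_type, Fintype.prod_sum_type]
  have e1 : (2 * M * q) ^ ((2 * M - 2) * q) ≤
      ∏ c : Fin ((2 * M - 2) * q), gammaT (GS χ L s (Sum.inl c)) := by
    calc (2 * M * q) ^ ((2 * M - 2) * q) = ∏ _c : Fin ((2 * M - 2) * q), 2 * M * q := by
          rw [prod_const, card_univ, Fintype.card_fin]
      _ ≤ _ := Finset.prod_le_prod' fun c _ => g1 c
  have e2 : (2 * M * q) ^ (t - M) ≤ ∏ l : L, gammaT (GS χ L s (Sum.inr (Sum.inl l))) := by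
    calc (2 * M * q) ^ (t - M) = ∏ _l : L, 2 * M * q := by
          rw [prod_const, card_univ, Fintype.card_coe, hLc]
      _ ≤ _ := Finset.prod_le_prod' fun l _ => g2 l
  have e3 : (2 * (M - 1) * q + r) ^ M ≤
      ∏ j : Fin M, gammaT (GS χ L s (Sum.inr (Sum.inr j))) := by
    calc (2 * (M - 1) * q + r) ^ M = ∏ _j : Fin M, (2 * (M - 1) * q + r) := by
          rw [prod_const, card_univ, Fintype.card_fin]
      _ ≤ _ := Finset.prod_le_prod' fun j _ => g3 j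
  have hexp : (2 * M - 2) * q + t - M = (2 * M - 2) * q + (t - M) := by omega
  rw [hexp, pow_add, mul_assoc]
  exact Nat.mul_le_mul e1 (Nat.mul_le_mul e2 e3)

end Pool.Agent.Work.MP_1ce445_plt
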