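import Pool.Agent.Work.MP_1ce445_plt.Interface
import Pool.Agent.Work.MP_1ce445_stm.STA

set_option autoImplicit false

/-!
# Block ST2: stability of factorizations with a large product in the plateaus

Copy of `MP_1ce445_stm/STA.lean` (helper3) with the statement SE2 instead of SET.
-/

namespace Pool.Agent.Work.MP_1ce445_plt

open Finset Pool.Agent.Work.MP_1ce445_co_56 Pool.Agent.Work.MP_1ce445_lin
  Pool.Agent.Work.MP_1ce445_fx Pool.Agent.Work.MP_1ce445_stm

/-- `(x + y)^m ≤ x^m + m 2^(m-1) y`, in the form that is needed -/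
theorem ST2_pow (m : ℕ) {x y : ℝ} (hx0 : 0 ≤ x) (hx1 : x ≤ 1) (hy0 : 0 ≤ y) (hy1 : y ≤ 1) :
    (x + y) ^ m ≤ x ^ m + m * 2 ^ m * y := by
  induction m with
  | zero => simp
  | succ m ih =>
    have h1 : (x + y) ^ (m + 1) = (x + y) ^ m * x + (x + y) ^ m * y := by ring
    have h2 : (x + y) ^ m ≤ 2 ^ m := pow_le_pow_left₀ (by linarith) (by linarith) m
    have h3 : (x + y) ^ m * x ≤ (x ^ m + m * 2 ^ m * y) * x := mul_le_mul_of_nonneg_right ih hx0
    have h4 : (x + y) ^ m * y ≤ 2 ^ m * y := mul_le_mul_of_nonneg_right h2 hy0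
    have h5 : (m : ℝ) * 2 ^ m * y * x ≤ m * 2 ^ m * y * 1 :=
      mul_le_mul_of_nonneg_left hx1 (by positivity)
    have h6 : (0 : ℝ) ≤ m * 2 ^ m * y := by positivity
    have h7 : (0 : ℝ) ≤ 2 ^ m * y := by positivity
    have h8 : ((m + 1 : ℕ) : ℝ) * 2 ^ (m + 1) * y =
        2 * (m * 2 ^ m * y) + 2 * (2 ^ m * y) := by
      push_cast
      ring
    have h9 : (x ^ m + m * 2 ^ m * y) * x = x ^ (m + 1) + m * 2 ^ m * y * x := by ring
    rw [h1, h8]
    linarith

theorem stmt_ST2 (h1 : Pool.Agent.Work.MP_1ce445_fx.Stmt_CR3) (h2 : Stmt_SE2) : Stmt_ST2 := by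
  intro M hM ε₀ θ κ hε₀ hθ hκ
  have hM2 : (2 : ℝ) ≤ M := by exact_mod_cast hM
  have hM0 : (0 : ℝ) < M := by linarith
  have hMlt : (1 - 1 / (M : ℝ)) ^ M ≤ 1 := by
    apply pow_le_one₀
    · have : 1 / (M : ℝ) ≤ 1 := by
        rw [div_le_one hM0]
        linarith
      linarith
    · have : 0 < 1 / (M : ℝ) := by positivity
      linarith
  obtain ⟨κ', hκ0, hκ2, hκM⟩ : ∃ κ' : ℝ, 0 < κ' ∧ κ' ≤ κ / 2 ∧ 4 * (M : ℝ) ^ 2 * κ' ≤ 1 := by
    refine ⟨min (κ / 2) (1 / (4 * (M : ℝ) ^ 2)), by positivity, min_le_left _ _, ?_⟩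
    have h3 : min (κ / 2) (1 / (4 * (M : ℝ) ^ 2)) ≤ 1 / (4 * (M : ℝ) ^ 2) := min_le_right _ _
    have h4 : 4 * (M : ℝ) ^ 2 * (1 / (4 * (M : ℝ) ^ 2)) = 1 := by field_simp
    have h5 : 4 * (M : ℝ) ^ 2 * min (κ / 2) (1 / (4 * (M : ℝ) ^ 2)) ≤
        4 * (M : ℝ) ^ 2 * (1 / (4 * (M : ℝ) ^ 2)) := mul_le_mul_of_nonneg_left h3 (by positivity)
    linarith
  obtain ⟨η, hη0, hη1, hSET⟩ := h2 M hM (ε₀ / 2) κ' (by positivity) hκ0 hκM
  obtain ⟨c, hc0, hc1, hcM⟩ : ∃ c : ℝ, 0 < c ∧ c ≤ 1 / 2 ∧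
      ((M + 1 : ℕ) : ℝ) * 2 ^ (M + 1) * (2 * c) ≤ ε₀ / 2 := by
    set Q : ℝ := ((M + 1 : ℕ) : ℝ) * 2 ^ (M + 1) with hQ
    have hQ0 : 0 < Q := by positivity
    refine ⟨min (1 / 2) (ε₀ / (4 * Q)), by positivity, min_le_left _ _, ?_⟩
    have h3 : min (1 / 2) (ε₀ / (4 * Q)) ≤ ε₀ / (4 * Q) := min_le_right _ _
    have h4 : Q * (2 * min (1 / 2) (ε₀ / (4 * Q))) ≤ Q * (2 * (ε₀ / (4 * Q))) :=
      mul_le_mul_of_nonneg_left (by linarith) hQ0.le
    have h5 : Q * (2 * (ε₀ / (4 * Q))) = ε₀ / 2 := by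
      field_simp
      ring
    linarith
  obtain ⟨η', hη'0, hη'η, hη'c⟩ : ∃ η' : ℝ, 0 < η' ∧ η' ≤ η ∧ η' ≤ 4 * c :=
    ⟨min η (4 * c), by positivity, min_le_left _ _, min_le_right _ _⟩
  obtain ⟨u, t, R, K, hu0, hu1, huη', hd, ht0, htκ, hK, hft', hR⟩ := STA_const hθ hκ hη'0
  have huη : u ≤ η / 4 := by linarith
  have huc : u ≤ c := by linarith
  have hft : (1 + t) ^ K < 1 + η := by linarith
  have hτ0 : 0 < u ^ 2 / 30 := by positivity
  obtain ⟨N1, hN1⟩ := exists_nat_gt (2 * R / t)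
  obtain ⟨N2, hN2⟩ := exists_nat_gt (1 / (u ^ 2 / 30))
  obtain ⟨N3, hN3⟩ := exists_nat_gt (1 / c)
  refine ⟨N1 + N2 + N3 + 2, fun n k hn hev hkM G hG hprod => ?_⟩
  have hnR : ((N1 : ℝ) + N2 + N3 + 2) ≤ n := by exact_mod_cast hn
  have hN1' : (0 : ℝ) ≤ N1 := Nat.cast_nonneg _
  have hN2' : (0 : ℝ) ≤ N2 := Nat.cast_nonneg _
  have hN3' : (0 : ℝ) ≤ N3 := Nat.cast_nonneg _
  have hnpos : (0 : ℝ) < n := by linarith
  have hn0 : 0 < n := by omega
  have hτn : 1 ≤ u ^ 2 / 30 * n := by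
    have h5 : 1 / (u ^ 2 / 30) < n := by linarith
    rw [div_lt_iff₀ hτ0] at h5
    linarith
  have hRn : (R : ℝ) / n ≤ t / 2 := by
    have h5 : 2 * R / t < n := by linarith
    rw [div_lt_iff₀ ht0] at h5
    rw [div_le_iff₀ hnpos]
    linarith
  have hn1 : 1 / (n : ℝ) ≤ c := by
    have h5 : 1 / c < n := by linarith
    rw [div_lt_iff₀ hc0] at h5
    rw [div_le_iff₀ hnpos]
    linarith
  have hx0 : 0 ≤ (k : ℝ) / n := by positivity
  have hx1 : (k : ℝ) / n ≤ 1 := by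
    by_contra hcon
    push Not at hcon
    have h5 : 1 < ((k : ℝ) / n) ^ (M + 1) := one_lt_pow₀ hcon (by omega)
    linarith
  have hkn : k ≤ n := by
    rw [div_le_one hnpos] at hx1
    exact_mod_cast hx1
  have hinv : 0 < 1 / (n : ℝ) := by positivity
  have hpow : ((k : ℝ) / n + (u + 1 / n)) ^ (M + 1) + ε₀ / 2 ≤ (1 - 1 / (M : ℝ)) ^ M := by
    have h5 := ST2_pow (M + 1) hx0 hx1 (show (0 : ℝ) ≤ u + 1 / n by linarith)
      (show u + 1 / (n : ℝ) ≤ 1 by linarith)
    have h6 : ((M + 1 : ℕ) : ℝ) * 2 ^ (M + 1) * (u + 1 / n) ≤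
        ((M + 1 : ℕ) : ℝ) * 2 ^ (M + 1) * (2 * c) :=
      mul_le_mul_of_nonneg_left (by linarith) (by positivity)
    linarith
  obtain ⟨D, hD⟩ : ∃ D : ℝ, D = 1 - ((k : ℝ) / n + (u + 1 / n)) := ⟨_, rfl⟩
  have hD1 : D ≤ 1 := by
    rw [hD]
    linarith
  have hD0 : 0 < D := by
    by_contra hcon
    push Not at hcon
    have h5 : 1 ≤ (k : ℝ) / n + (u + 1 / n) := by linarith
    have h6 : 1 ≤ ((k : ℝ) / n + (u + 1 / n)) ^ (M + 1) := one_le_pow₀ h5
    linarith
  have hDM : (1 - D) ^ (M + 1) + ε₀ / 2 ≤ (1 - 1 / (M : ℝ)) ^ M := by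
    have h5 : 1 - D = (k : ℝ) / n + (u + 1 / n) := by
      rw [hD]
      ring
    rw [h5]
    exact hpow
  have hNN : NN n = n := by
    unfold NN
    obtain ⟨m, hm⟩ := hev
    omega
  have hnk : (0 : ℝ) < (n : ℝ) ^ k := by positivity
  rcases h1 n k R G u t hG hu0 hu1 hτn hkn (by linarith) with
    h5 | ⟨A, Vg, hA, hVg, hlo, hγ, hγN⟩
  · exfalso
    rw [hNN] at h5
    have h6 := hprod.trans h5
    have h7 := le_of_mul_le_mul_right h6 hnk
    have h8 := STA_exp hM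
    linarith
  rw [hNN] at hγN
  set d : ℝ := (u ^ 2 / 30) ^ 2 with hdd
  set T : Fin n → Finset (Fin k) := thk G A d with hT
  have hTA : ∀ v, T v ⊆ A := by
    intro v j hj
    rw [hT, STA_mem] at hj
    exact hj.1
  have hAK : A.card ≤ K := by
    have h5 : (A.card : ℝ) ≤ K := hA.trans hK
    exact_mod_cast h5
  have hp0 : ∀ j, 0 ≤ pT T j := fun j => by
    unfold pT
    positivity
  have hp1 : ∀ j, pT T j ≤ 1 := fun j => by
    unfold pT
    rw [div_le_one hnpos]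
    have h5 : (univ.filter (fun v => j ∈ T v)).card ≤ n := by
      have h6 := card_filter_le (univ : Finset (Fin n)) (fun v => j ∈ T v)
      simpa using h6
    exact_mod_cast h5
  have hVg' : (1 - η) * n ≤ Vg.card := by
    have h5 : (1 - η) * n ≤ (1 - u) * n := mul_le_mul_of_nonneg_right (by linarith) hnpos.le
    linarith
  have hsum : ∀ v ∈ Vg, D * n ≤ ((univ.filter (fun w => T v ∩ T w ≠ ∅)).card : ℝ) := by
    intro v hv
    refine le_trans (le_of_eq ?_) (hlo v hv)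
    rw [hD]
    field_simp
    ring
  have hprA : (1 - 1 / (M : ℝ)) ^ M - η ≤ ∏ x ∈ A, (1 - pT T x) := by
    have hin : ∏ j ∈ A, (gammaT (G j) : ℝ) ≤ (∏ j ∈ A, ((1 - pT T j) + t)) * (n : ℝ) ^ A.card := by
      calc ∏ j ∈ A, (gammaT (G j) : ℝ) ≤ ∏ j ∈ A, (((1 - pT T j) + t) * n) := by
            apply prod_le_prod
            · intro j _
              exact Nat.cast_nonneg _
            · intro j hj
              exact hγ j hj
        _ = _ := by
            rw [prod_mul_distrib, prod_const]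
    have hout : ∏ j ∈ Aᶜ, (gammaT (G j) : ℝ) ≤ (n : ℝ) ^ (Aᶜ).card := by
      rw [← prod_const]
      apply prod_le_prod
      · intro j _
        exact Nat.cast_nonneg _
      · intro j _
        exact_mod_cast hγN j
    have hcard : A.card + (Aᶜ).card = k := by
      have h5 := card_add_card_compl A
      rw [Fintype.card_fin] at h5
      exact h5
    have hpr0 : 0 ≤ ∏ j ∈ A, ((1 - pT T j) + t) := prod_nonneg fun j _ => by
      have := hp1 j
      have : 0 ≤ 1 - pT T j := by linarith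
      positivity
    have hfin : (∏ j, (gammaT (G j) : ℝ)) ≤ (∏ j ∈ A, ((1 - pT T j) + t)) * (n : ℝ) ^ k := by
      rw [← prod_mul_prod_compl A]
      calc (∏ j ∈ A, (gammaT (G j) : ℝ)) * ∏ j ∈ Aᶜ, (gammaT (G j) : ℝ)
          ≤ ((∏ j ∈ A, ((1 - pT T j) + t)) * (n : ℝ) ^ A.card) * (n : ℝ) ^ (Aᶜ).card :=
            mul_le_mul hin hout (prod_nonneg fun j _ => Nat.cast_nonneg _) (by positivity)
        _ = _ := by
            rw [mul_assoc, ← pow_add, hcard]
    have h6 := le_of_mul_le_mul_right (hprod.trans hfin) hnk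
    have h7 := STA_prod A (fun j => 1 - pT T j) ht0.le (fun j => by
      have := hp1 j
      linarith) (fun j => by
      have := hp0 j
      linarith)
    have h8 : (1 + t) ^ A.card ≤ (1 + t) ^ K := pow_le_pow_right₀ (by linarith) hAK
    linarith
  obtain ⟨e, he, heA, hep, he2⟩ := hSET n k T A Vg D hn0 hTA hVg' hD0 hD1 hDM hsum hprA
  have hpn : ∀ j, ((univ.filter (fun v => j ∈ T v)).card : ℝ) = pT T j * n := by
    intro j
    unfold pT
    field_simp
  refine ⟨e, he, ?_, ?_, ?_⟩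
  · intro i
    refine (hγ (e i) (heA i)).trans ?_
    apply mul_le_mul_of_nonneg_right _ hnpos.le
    have h5 := (abs_le.1 (hep i)).1
    have h6 : ((univ.filter (fun v => e i ∈ T v)).card : ℝ) / n = pT T (e i) := rfl
    rw [h6]
    linarith
  · intro i
    have h5 : hi (G (e i)) θ ⊆ univ.filter (fun v => e i ∈ T v) := by
      intro v hv
      unfold hi at hv
      rw [mem_filter] at hv
      rw [mem_filter]
      refine ⟨mem_univ _, ?_⟩
      rw [hT, STA_mem]
      refine ⟨heA i, ?_⟩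
      have : d * n ≤ θ * n := mul_le_mul_of_nonneg_right hd hnpos.le
      linarith [hv.2]
    have h6 : ((hi (G (e i)) θ).card : ℝ) ≤ ((univ.filter (fun v => e i ∈ T v)).card : ℝ) := by
      exact_mod_cast card_le_card h5
    rw [hpn] at h6
    refine h6.trans ?_
    apply mul_le_mul_of_nonneg_right _ hnpos.le
    have h7 := (abs_le.1 (hep i)).2
    linarith
  · have h5 : ov G e θ ⊆ univ.filter (fun v => 2 ≤ (T v).card) := by
      intro v hv
      unfold ov at hv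
      rw [mem_filter] at hv
      obtain ⟨_, i, j, hij, hvi, hvj⟩ := hv
      rw [mem_filter]
      refine ⟨mem_univ _, ?_⟩
      have hmem : ∀ i, v ∈ hi (G (e i)) θ → e i ∈ T v := by
        intro i hv
        unfold hi at hv
        rw [mem_filter] at hv
        rw [hT, STA_mem]
        refine ⟨heA i, ?_⟩
        have : d * n ≤ θ * n := mul_le_mul_of_nonneg_right hd hnpos.le
        linarith [hv.2]
      have h6 : ({e i, e j} : Finset (Fin k)) ⊆ T v := by
        intro x hx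
        simp only [mem_insert, mem_singleton] at hx
        rcases hx with rfl | rfl
        · exact hmem i hvi
        · exact hmem j hvj
      have h7 := card_le_card h6
      rw [card_insert_of_notMem (by
        rw [mem_singleton]
        exact fun h => hij (he h)), card_singleton] at h7
      exact h7
    have h6 : ((ov G e θ).card : ℝ) ≤ ((univ.filter (fun v => 2 ≤ (T v).card)).card : ℝ) := by
      exact_mod_cast card_le_card h5
    have h7 : κ' * n ≤ κ * n := mul_le_mul_of_nonneg_right (by linarith) hnpos.le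
    linarith

end Pool.Agent.Work.MP_1ce445_plt
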