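import Pool.Agent.Work.MP_1ce445_plt.Interface

/-! # Block TN2: the tangent parabola of the logarithm, with one more identity -/

namespace Pool.Agent.Work.MP_1ce445_plt

open Finset Pool.Agent.Work.MP_1ce445_co_56 Pool.Agent.Work.MP_1ce445_lin
  Pool.Agent.Work.MP_1ce445_fx Pool.Agent.Work.MP_1ce445_stm

lemma TN2_sum (x : ℝ) (h0 : 0 < x) (h1 : x < 1) :
    HasSum (fun j : ℕ => x ^ (j + 1) / ((j : ℝ) + 1)) (-Real.log (1 - x)) :=
  Real.hasSum_pow_div_log_of_abs_lt_one (by rw [abs_of_pos h0]; exact h1)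

/-- lower bound -/
lemma TN2_lo (x : ℝ) (h0 : 0 < x) (h1 : x < 1) : x + x ^ 2 / 2 ≤ -Real.log (1 - x) := by
  have h := TN2_sum x h0 h1
  have h2 := sum_le_hasSum (Finset.range 2) (fun j _ => by positivity) h
  rw [Finset.sum_range_succ, Finset.sum_range_one] at h2
  norm_num at h2
  linarith

/-- upper bound -/
lemma TN2_up (x : ℝ) (h0 : 0 < x) (h1 : x < 1) :
    -Real.log (1 - x) ≤ x / 2 + x / 2 * (1 - x)⁻¹ := by
  have h := TN2_sum x h0 h1
  have hg := (hasSum_geometric_of_lt_one h0.le h1).mul_left (x / 2)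
  have hi := hasSum_ite_eq (0 : ℕ) (x / 2)
  have hs := hi.add hg
  refine hasSum_le (fun j => ?_) h hs
  rcases Nat.eq_zero_or_pos j with rfl | hj
  · norm_num
  · rw [if_neg (by omega), zero_add, div_le_iff₀ (by positivity), pow_succ]
    have hj' : (1 : ℝ) ≤ j := by exact_mod_cast hj
    have hx : 0 ≤ x ^ j * x := by positivity
    nlinarith

/-- Block TN2. -/
theorem stmt_TN2 : Stmt_TN2 := by
  intro M hM
  have hM' : (2 : ℝ) ≤ M := by exact_mod_cast hM
  have hM0 : (0 : ℝ) < M := by linarith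
  obtain ⟨x, hx⟩ : ∃ x : ℝ, x = 1 / (M : ℝ) := ⟨_, rfl⟩
  have hx0 : 0 < x := by rw [hx]; positivity
  have hx2 : x ≤ 1 / 2 := by
    rw [hx]
    exact one_div_le_one_div_of_le (by norm_num) hM'
  have hx1 : x < 1 := by linarith
  have hMx : (M : ℝ) = 1 / x := by rw [hx]; field_simp
  obtain ⟨L, hL⟩ : ∃ L : ℝ, L = -Real.log (1 - x) := ⟨_, rfl⟩
  obtain ⟨y, hy⟩ : ∃ y : ℝ, y = (1 - x)⁻¹ := ⟨_, rfl⟩
  have hyx : y * (1 - x) = 1 := by
    rw [hy]
    exact inv_mul_cancel₀ (by linarith)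
  have hy1 : 1 ≤ y := by nlinarith
  have hy2 : y ≤ 2 := by nlinarith
  have hlo : x + x ^ 2 / 2 ≤ L := by rw [hL]; exact TN2_lo x hx0 hx1
  have hup : L ≤ x / 2 + x / 2 * y := by rw [hL, hy]; exact TN2_up x hx0 hx1
  refine ⟨2 * (L / x) - y, (y - L / x) / x, ?_, ?_, ?_, ?_, ?_, ?_, ?_⟩
  · -- 1/2 ≤ a
    have h1 : 1 + x / 2 ≤ L / x := by
      rw [le_div_iff₀ hx0]
      nlinarith
    nlinarith
  · -- a ≤ 1
    have h1 : L / x ≤ 1 / 2 + 1 / 2 * y := by
      rw [div_le_iff₀ hx0]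
      nlinarith
    linarith
  · -- 1/2 ≤ b
    rw [le_div_iff₀ hx0]
    have h1 : L / x ≤ 1 / 2 + 1 / 2 * y := by
      rw [div_le_iff₀ hx0]
      nlinarith
    nlinarith
  · -- b ≤ 2
    rw [div_le_iff₀ hx0]
    have h1 : 1 + x / 2 ≤ L / x := by
      rw [le_div_iff₀ hx0]
      nlinarith
    nlinarith
  · -- a + b x
    have hxM : x * (M : ℝ) = 1 := by
      rw [hx]
      field_simp
    have h1 : (y - L / x) / x / (M : ℝ) = y - L / x := by
      rw [div_div, hxM, div_one]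
    have h2 : (M : ℝ) * L = L / x := by
      rw [eq_div_iff hx0.ne']
      linear_combination L * hxM
    have h3 : -(M : ℝ) * Real.log (1 - 1 / M) = M * L := by
      rw [← hx, hL]
      ring
    rw [h1, h3, h2]
    ring
  · -- a + 2 b x
    have hxM : x * (M : ℝ) = 1 := by
      rw [hx]
      field_simp
    have h1 : 2 * ((y - L / x) / x) / (M : ℝ) = 2 * (y - L / x) := by
      rw [mul_div_assoc, div_div, hxM, div_one]
    rw [h1, ← hx, one_div, ← hy]
    ring
  · intro p hp0 hp1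
    obtain ⟨u, hu⟩ : ∃ u : ℝ, p = u * x := ⟨p / x, by field_simp⟩
    have hu0 : 0 ≤ u := by
      by_contra hneg
      push Not at hneg
      have := mul_neg_of_neg_of_pos hneg hx0
      linarith
    have hp := Real.hasSum_pow_div_log_of_abs_lt_one (x := p)
      (by rw [abs_of_nonneg hp0]; exact hp1)
    have h := TN2_sum x hx0 hx1
    rw [← hL] at h
    have hg := hasSum_geometric_of_lt_one hx0.le hx1
    rw [← hy] at hg
    have hT := (((h.mul_left (2 / x)).sub hg).add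
      ((hg.sub (h.mul_left (1 / x))).mul_left (p / x))).mul_left p
    have hD := hp.sub hT
    have key : ∀ j : ℕ, p ^ (j + 1) / ((j : ℝ) + 1) - p * (2 / x * (x ^ (j + 1) / ((j : ℝ) + 1)) -
        x ^ j + p / x * (x ^ j - 1 / x * (x ^ (j + 1) / ((j : ℝ) + 1)))) =
        u * x * x ^ j / ((j : ℝ) + 1) * (u ^ j - (1 + j * (u - 1))) := by
      intro j
      have hj : (j : ℝ) + 1 ≠ 0 := by positivity
      rw [hu, mul_pow]
      field_simp
      ring
    have hnn : ∀ j : ℕ, j ≠ 2 → 0 ≤ p ^ (j + 1) / ((j : ℝ) + 1) -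
        p * (2 / x * (x ^ (j + 1) / ((j : ℝ) + 1)) -
        x ^ j + p / x * (x ^ j - 1 / x * (x ^ (j + 1) / ((j : ℝ) + 1)))) := by
      intro j _
      rw [key j]
      have hb := one_add_mul_le_pow (show (-2 : ℝ) ≤ u - 1 by linarith) j
      rw [add_sub_cancel] at hb
      have h3 : 0 ≤ u ^ j - (1 + j * (u - 1)) := by linarith
      positivity
    have h2 := le_hasSum hD 2 hnn
    rw [key 2] at h2
    rw [← hx]
    have h4 : u * x * x ^ 2 / (((2 : ℕ) : ℝ) + 1) * (u ^ 2 - (1 + ((2 : ℕ) : ℝ) * (u - 1))) =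
        p * (p - x) ^ 2 / 3 := by
      rw [hu]
      push_cast
      ring
    rw [h4] at h2
    have h5 : p * (2 / x * L - y + p / x * (y - 1 / x * L)) =
        (2 * (L / x) - y) * p + (y - L / x) / x * p ^ 2 := by
      ring
    rw [h5] at h2
    linarith

end Pool.Agent.Work.MP_1ce445_plt
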