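import Pool.Agent.Work.MP_1ce445_stm.All
import Pool.Agent.Work.MP_1ce445_fx.CNM
import Pool.Agent.Work.MP_1ce445_plt.TN2
import Pool.Agent.Work.MP_1ce445_plt.SE2
import Pool.Agent.Work.MP_1ce445_plt.ST2
import Pool.Agent.Work.MP_1ce445_plt.SB2
import Pool.Agent.Work.MP_1ce445_plt.HSU
import Pool.Agent.Work.MP_1ce445_plt.GOD
import Pool.Agent.Work.MP_1ce445_plt.ADP
import Pool.Agent.Work.MP_1ce445_plt.UPP
import Pool.Agent.Work.MP_1ce445_plt.RW1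
import Pool.Agent.Work.MP_1ce445_plt.RW2
import Pool.Agent.Work.MP_1ce445_plt.GRD
import Pool.Agent.Work.MP_1ce445_plt.LBR
import Pool.Agent.Work.MP_1ce445_plt.SLP
import Pool.Agent.Work.MP_1ce445_plt.FPL

/-!
Assembly of the second order term in the plateaus.
-/

namespace Pool.Agent.Work.MP_1ce445_plt

open Finset Pool.Agent.Work.MP_1ce445_co_56 Pool.Agent.Work.MP_1ce445_lin
  Pool.Agent.Work.MP_1ce445_fx Pool.Agent.Work.MP_1ce445_stm

theorem h_ST2 : Stmt_ST2 := stmt_ST2 stmt_CR3 (stmt_SE2 stmt_TN2)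
theorem h_SB2 : Stmt_SB2 := stmt_SB2 h_DEG h_EMO h_ST2
theorem h_ADP : Stmt_ADP := stmt_ADP h_SUR h_EMO h_DMO stmt_HSU (stmt_GOD h_DEG)
theorem h_UPP : Stmt_UPP := stmt_UPP stmt_PRR h_SB2 h_ADP
theorem h_GRD : Stmt_GRD := stmt_GRD stmt_CNM
theorem h_LBR : Stmt_LBR := stmt_LBR stmt_RW1 stmt_RW2 h_GRD
theorem h_SLP : Stmt_SLP := stmt_SLP h_LBR stmt_SCR stmt_GS1 h_GS2 h_GS3

/-- The second order term in the interior of the plateaus. -/
theorem h_FPL : Stmt_FPL := stmt_FPL h_UPP h_SLP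

end Pool.Agent.Work.MP_1ce445_plt
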