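import Pool.Agent.Work.MP_1ce445_plt.LBR
import Pool.Agent.Work.MP_1ce445_plt.Interface2

set_option autoImplicit false

namespace Pool.Agent.Work.MP_1ce445_plt

theorem stmt_LBU : Stmt_RW1 → Stmt_RW2 → Stmt_GRD → Stmt_LBU :=
  fun h1 h2 h3 => LBR_strong h1 h2 h3

end Pool.Agent.Work.MP_1ce445_plt
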