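import Pool.Agent.Work.MP_1ce445_plt.SLP
import Pool.Agent.Work.MP_1ce445_plt.Interface2

set_option autoImplicit false

namespace Pool.Agent.Work.MP_1ce445_plt

open Finset Pool.Agent.Work.MP_1ce445_co_56 Pool.Agent.Work.MP_1ce445_lin
  Pool.Agent.Work.MP_1ce445_fx Pool.Agent.Work.MP_1ce445_stm

/-- the numerical condition for `t - M` labels, without a lower bound for `t` -/
theorem SLU_num {M t s : ℕ} {ε x : ℝ} (hM : 2 ≤ M) (hε : 0 < ε) (hε1 : ε < 1)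
    (hx1 : (4 * (M : ℝ) / ε ^ 2) ^ (2 / ε) ≤ x) (hx2 : (2 : ℝ) ^ (2 / ε) ≤ x)
    (ht0 : M ≤ t) (ht : (t : ℝ) ≤ (1 - ε) * x)
    (h : 1 ≤ x ^ (1 - ε) * ((t : ℝ) / x) ^ s) :
    1 ≤ x ^ (1 - ε / 2) * (((t : ℝ) - M) / x) ^ s := by
  have hMr : (2 : ℝ) ≤ M := by exact_mod_cast hM
  have hx0 : 1 ≤ x := by
    refine le_trans ?_ hx2
    exact Real.one_le_rpow (by norm_num) (by positivity)
  have hxp : 0 < x := by linarith
  rcases Nat.eq_zero_or_pos s with hs0 | hs0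
  · subst hs0
    rw [pow_zero, mul_one]
    exact Real.one_le_rpow hx0 (by linarith)
  have htp : 0 < (t : ℝ) := by
    have : (M : ℝ) ≤ t := by exact_mod_cast ht0
    linarith
  have hy1 : (t : ℝ) / x ≤ 1 - ε := by rw [div_le_iff₀ hxp]; exact ht
  have hs := SLP_r (s := s) hε hε1 hx0 (div_pos htp hxp) hy1 h
  -- `x ^ (ε / 2)` is large
  have hbig : 4 * (M : ℝ) / ε ^ 2 ≤ x ^ (ε / 2) := by
    have h1 : ((4 * (M : ℝ) / ε ^ 2) ^ (2 / ε)) ^ (ε / 2) ≤ x ^ (ε / 2) :=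
      Real.rpow_le_rpow (by positivity) hx1 (by positivity)
    rw [← Real.rpow_mul (by positivity)] at h1
    have h2 : 2 / ε * (ε / 2) = 1 := by field_simp
    rw [h2, Real.rpow_one] at h1
    exact h1
  have h2x : 2 ≤ x ^ (ε / 2) := by
    have h1 : ((2 : ℝ) ^ (2 / ε)) ^ (ε / 2) ≤ x ^ (ε / 2) :=
      Real.rpow_le_rpow (by positivity) hx2 (by positivity)
    rw [← Real.rpow_mul (by norm_num)] at h1
    have h2 : 2 / ε * (ε / 2) = 1 := by field_simp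
    rw [h2, Real.rpow_one] at h1
    exact h1
  set X := x ^ (ε / 2) with hX
  have hX0 : 0 < X := by positivity
  have hlog : Real.log x ≤ 2 * X / ε := by
    have h1 := Real.log_le_rpow_div hxp.le (by positivity : 0 < ε / 2)
    refine h1.trans (le_of_eq ?_)
    rw [hX]
    field_simp
  -- `t` is at least `x ^ ε`
  have htX : X * X ≤ t := by
    have h1 : ((t : ℝ) / x) ^ s ≤ (t : ℝ) / x := by
      have : ((t : ℝ) / x) ^ s ≤ ((t : ℝ) / x) ^ 1 :=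
        pow_le_pow_of_le_one (by positivity) (by linarith) (by omega)
      rwa [pow_one] at this
    have h2 : 1 ≤ x ^ (1 - ε) * ((t : ℝ) / x) :=
      h.trans (mul_le_mul_of_nonneg_left h1 (by positivity))
    have h3 : x ^ (1 - ε) * (X * X) = x := by
      rw [hX, ← Real.rpow_add hxp, ← Real.rpow_add hxp]
      have : 1 - ε + (ε / 2 + ε / 2) = 1 := by ring
      rw [this, Real.rpow_one]
    have h4 : 0 < x ^ (1 - ε) := by positivity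
    have h5 : x ^ (1 - ε) * (X * X) ≤ x ^ (1 - ε) * t := by
      rw [h3]
      calc x = 1 * x := by ring
        _ ≤ (x ^ (1 - ε) * ((t : ℝ) / x)) * x := mul_le_mul_of_nonneg_right h2 hxp.le
        _ = x ^ (1 - ε) * t := by field_simp
    exact le_of_mul_le_mul_left h5 h4
  have hMs : (M : ℝ) * s ≤ t / 2 := by
    have h1 : 4 * (M : ℝ) ≤ X * ε ^ 2 := by rwa [div_le_iff₀ (by positivity)] at hbig
    have h2 : ε * s ≤ 2 * X / ε := hs.trans hlog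
    have h3 : ε * s * ε ≤ 2 * X := by rwa [le_div_iff₀ hε] at h2
    have h4 : 4 * (M : ℝ) * (ε * s * ε) ≤ (X * ε ^ 2) * (2 * X) :=
      mul_le_mul h1 h3 (by positivity) (by positivity)
    have h5 : ε ^ 2 * (4 * (M : ℝ) * s) ≤ ε ^ 2 * (2 * (X * X)) := by nlinarith
    have h6 : 4 * (M : ℝ) * s ≤ 2 * (X * X) := le_of_mul_le_mul_left h5 (by positivity)
    linarith
  have hMt : (M : ℝ) ≤ t / 2 := by
    have h1 : (1 : ℝ) ≤ s := by exact_mod_cast hs0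
    nlinarith
  have hbern : 1 / 2 ≤ (1 - (M : ℝ) / t) ^ s := by
    have h1 : -2 ≤ -((M : ℝ) / t) := by
      have : (M : ℝ) / t ≤ 1 := by
        rw [div_le_one htp]; linarith
      linarith
    have h2 := one_add_mul_le_pow h1 s
    have h3 : (s : ℝ) * ((M : ℝ) / t) ≤ 1 / 2 := by
      rw [← mul_div_assoc, div_le_iff₀ htp]
      linarith
    calc (1 : ℝ) / 2 ≤ 1 + (s : ℝ) * -((M : ℝ) / t) := by linarith
      _ ≤ (1 + -((M : ℝ) / t)) ^ s := h2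
      _ = _ := by rw [← sub_eq_add_neg]
  have hsplit : (((t : ℝ) - M) / x) ^ s = ((t : ℝ) / x) ^ s * (1 - (M : ℝ) / t) ^ s := by
    rw [← mul_pow]
    congr 1
    field_simp
  have hpow : x ^ (1 - ε / 2) = x ^ (1 - ε) * X := by
    rw [hX, ← Real.rpow_add hxp]
    congr 1
    ring
  rw [hsplit, hpow]
  have hB : 1 ≤ X * (1 - (M : ℝ) / t) ^ s := by
    calc (1 : ℝ) = 2 * (1 / 2) := by norm_num
      _ ≤ X * (1 - (M : ℝ) / t) ^ s := mul_le_mul h2x hbern (by norm_num) (by positivity)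
  calc (1 : ℝ) ≤ (x ^ (1 - ε) * ((t : ℝ) / x) ^ s) * (X * (1 - (M : ℝ) / t) ^ s) :=
        one_le_mul_of_one_le_of_one_le h hB
    _ = _ := by ring

theorem SLU_main (hLBR : ∀ ε : ℝ, 0 < ε → ε < 1 → ∃ q0 : ℕ, ∀ q m r : ℕ, q0 ≤ q → 1 ≤ r →
      (m : ℝ) ≤ (1 - ε) * (2 * q) → 1 ≤ (2 * (q : ℝ)) ^ (1 - ε) * ((m : ℝ) / (2 * q)) ^ (r - 1) →
      ∃ L : Finset (ZMod (2 * q - 1)), L.card = m ∧ Good r q 1 one_pos L)
    (hSCR : MP_1ce445_fx.Stmt_SCR) (hGS1 : MP_1ce445_fx.Stmt_GS1)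
    (hGS2 : MP_1ce445_fx.Stmt_GS2) (hGS3 : MP_1ce445_fx.Stmt_GS3) :
    ∀ M : ℕ, 2 ≤ M → ∀ ε : ℝ, 0 < ε → ε < 1 → ∃ q0 : ℕ, ∀ q t r : ℕ, q0 ≤ q → 1 ≤ r → M ≤ t →
    (t : ℝ) ≤ (1 - ε) * (2 * q) →
    1 ≤ (2 * (q : ℝ)) ^ (1 - ε) * ((t : ℝ) / (2 * q)) ^ (r - 1) →
    (2 * M * q) ^ ((2 * M - 2) * q + t - M) * (2 * (M - 1) * q + r) ^ M ≤
      P (2 * M * q) ((2 * M - 2) * q + t) := by
  intro M hM ε hε hε1
  obtain ⟨q0, hL⟩ := hLBR (ε / 2) (by linarith) (by linarith)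
  refine ⟨q0 + ⌈(4 * (M : ℝ) / ε ^ 2) ^ (2 / ε)⌉₊ + ⌈(2 : ℝ) ^ (2 / ε)⌉₊ + ⌈2 * (M : ℝ) / ε⌉₊ +
    4 * M ^ 2 + 10, fun q t r hq hr ht0 h1 h3 => ?_⟩
  have hMr : (2 : ℝ) ≤ M := by exact_mod_cast hM
  have hq1 : (4 * (M : ℝ) / ε ^ 2) ^ (2 / ε) ≤ q :=
    (Nat.le_ceil _).trans (Nat.cast_le.2 (by omega))
  have hq2 : (2 : ℝ) ^ (2 / ε) ≤ q := (Nat.le_ceil _).trans (Nat.cast_le.2 (by omega))
  have hq3 : 2 * (M : ℝ) / ε ≤ q := (Nat.le_ceil _).trans (Nat.cast_le.2 (by omega))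
  have hq4 : 4 * M ^ 2 ≤ q := by omega
  have hq5 : 2 ≤ q := by omega
  have hqr : (0 : ℝ) < q := by exact_mod_cast (by omega : 0 < q)
  have hq3' : 2 * (M : ℝ) ≤ q * ε := by rwa [div_le_iff₀ hε] at hq3
  have ht2 : (t : ℝ) + 1 ≤ 2 * q := by nlinarith
  have ht2' : t + 1 ≤ 2 * q := by exact_mod_cast ht2
  have hmr : ((t - M : ℕ) : ℝ) = (t : ℝ) - M := by rw [Nat.cast_sub ht0]
  have c1 : ((t - M : ℕ) : ℝ) ≤ (1 - ε / 2) * (2 * q) := by
    rw [hmr]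
    nlinarith
  have c3 : 1 ≤ (2 * (q : ℝ)) ^ (1 - ε / 2) * (((t - M : ℕ) : ℝ) / (2 * q)) ^ (r - 1) := by
    rw [hmr]
    exact SLU_num hM hε hε1 (by linarith) (by linarith) ht0 h1 h3
  obtain ⟨L, hLc, hgood⟩ := hL q (t - M) r (by omega) hr c1 c3
  obtain ⟨χ, hχ⟩ := hSCR M q hM hq4
  haveI : NeZero (2 * q - 1) := ⟨by omega⟩
  obtain ⟨s, hs, hsL⟩ := SLO_inj M L (by rw [hLc, ZMod.card]; omega)
  have hfac := hGS1 M q χ L s hM hq5 hχ hs hsL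
  obtain ⟨g1, g2⟩ := hGS2 M q χ L s hM hq5 hχ hs hsL
  have g3 := hGS3 M q r χ L s hM hq5 hχ hs hsL hr hgood
  have hV : Fintype.card (VS M q) = 2 * M * q := by
    rw [Fintype.card_prod, Fintype.card_fin, Fintype.card_option, ZMod.card]
    have : 2 * q - 1 + 1 = 2 * q := by omega
    rw [this]; ring
  have hι : Fintype.card (Fin ((2 * M - 2) * q) ⊕ (L ⊕ Fin M)) = (2 * M - 2) * q + t := by
    rw [Fintype.card_sum, Fintype.card_sum, Fintype.card_coe, hLc, Fintype.card_fin,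
      Fintype.card_fin]
    omega
  refine le_trans ?_ (le_P hV hι hfac)
  rw [Fintype.prod_sum_type, Fintype.prod_sum_type]
  have e1 : (2 * M * q) ^ ((2 * M - 2) * q) ≤
      ∏ c : Fin ((2 * M - 2) * q), gammaT (GS χ L s (Sum.inl c)) := by
    calc (2 * M * q) ^ ((2 * M - 2) * q) = ∏ _c : Fin ((2 * M - 2) * q), 2 * M * q := by
          rw [prod_const, card_univ, Fintype.card_fin]
      _ ≤ _ := Finset.prod_le_prod' fun c _ => g1 c
  have e2 : (2 * M * q) ^ (t - M) ≤ ∏ l : L, gammaT (GS χ L s (Sum.inr (Sum.inl l))) := by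
    calc (2 * M * q) ^ (t - M) = ∏ _l : L, 2 * M * q := by
          rw [prod_const, card_univ, Fintype.card_coe, hLc]
      _ ≤ _ := Finset.prod_le_prod' fun l _ => g2 l
  have e3 : (2 * (M - 1) * q + r) ^ M ≤
      ∏ j : Fin M, gammaT (GS χ L s (Sum.inr (Sum.inr j))) := by
    calc (2 * (M - 1) * q + r) ^ M = ∏ _j : Fin M, (2 * (M - 1) * q + r) := by
          rw [prod_const, card_univ, Fintype.card_fin]
      _ ≤ _ := Finset.prod_le_prod' fun j _ => g3 j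
  have hexp : (2 * M - 2) * q + t - M = (2 * M - 2) * q + (t - M) := by omega
  rw [hexp, pow_add, mul_assoc]
  exact Nat.mul_le_mul e1 (Nat.mul_le_mul e2 e3)

theorem stmt_SLU (hLBU : Stmt_LBU) (hSCR : MP_1ce445_fx.Stmt_SCR) (hGS1 : MP_1ce445_fx.Stmt_GS1)
    (hGS2 : MP_1ce445_fx.Stmt_GS2) (hGS3 : MP_1ce445_fx.Stmt_GS3) : Stmt_SLU := by
  intro M hM ε hε hε1
  obtain ⟨q0, h⟩ := SLU_main hLBU hSCR hGS1 hGS2 hGS3 M hM ε hε hε1
  exact ⟨q0, fun q t r hq hr h1 ht h3 => h q t r hq hr ht h1 h3⟩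

end Pool.Agent.Work.MP_1ce445_plt
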