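import Pool.Agent.Work.MP_1ce445_plt.Interface2

/-! # Block UN1: the bound for the sum of the special total domination numbers, uniform in `r` -/

namespace Pool.Agent.Work.MP_1ce445_plt

open Finset Pool.Agent.Work.MP_1ce445_co_56 Pool.Agent.Work.MP_1ce445_lin
  Pool.Agent.Work.MP_1ce445_fx Pool.Agent.Work.MP_1ce445_stm

/-- Block UN1. -/
theorem stmt_UN1 (hSUR : Pool.Agent.Work.MP_1ce445_stm.Stmt_SUR)
    (hGAI : Pool.Agent.Work.MP_1ce445_stm.Stmt_GAI) (hERU : Stmt_ERU) : Stmt_UN1 := by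
  classical
  intro M hM
  obtain ⟨K, hK, hE⟩ := hERU M hM
  have hK0 : (0 : ℝ) < K := by linarith
  refine ⟨K, 1 / (8 * K), hK, by positivity, ?_⟩
  intro θ hθ hθ0
  refine ⟨θ / (100 * K), by positivity, ?_⟩
  intro s hs hs0 n k r Δ G e hSt hr hΔn hall hΔθ
  have a1 : θ * (8 * K) ≤ 1 := by
    rw [le_div_iff₀ (by positivity)] at hθ0
    exact hθ0
  have a2 : K * θ ≤ 1 / 8 := by linarith
  have a3 : θ ≤ 1 / 8 := by nlinarith
  have a4 : s * (100 * K) ≤ θ := by
    rw [le_div_iff₀ (by positivity)] at hs0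
    exact hs0
  have a5 : K * s ≤ θ / 100 := by linarith
  have hn : (0 : ℝ) < n := by exact_mod_cast hSt.pos
  obtain ⟨hx01, hS1, _⟩ := hSUR n k M r G e θ s hSt
  have g1 := hGAI n k M r Δ G e θ s hr hSt hall
  have g2 := hE n k r Δ G e θ s hSt (by linarith) (by linarith) hr hΔn hall
  have g3 : 0 ≤ Xb G e θ := by
    unfold Xb
    refine Finset.sum_nonneg fun j _ => Finset.sum_nonneg fun v _ =>
      Finset.sum_nonneg fun i _ => (hx01 i v).1
  have g5 : ∑ v, ∑ i, (1 - (1 - xx G e θ i v) ^ r) =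
      M * n - ∑ v, ∑ i, (1 - xx G e θ i v) ^ r := by
    simp only [Finset.sum_sub_distrib, Finset.sum_const, Finset.card_univ, Fintype.card_fin,
      nsmul_eq_mul, mul_one]
    ring
  rw [g5] at g1
  set Q : ℝ := ∑ v, ∑ i, (1 - xx G e θ i v) ^ r with hQ
  set X : ℝ := Xb G e θ with hX
  set O : ℝ := ((ov G e θ).card : ℝ) with hO
  have hO0 : 0 ≤ O := Nat.cast_nonneg _
  have hL0 : (0 : ℝ) ≤ Ls G e := Nat.cast_nonneg _
  have hD : (Δ : ℝ) / n ≤ θ / 2 := by
    rw [div_le_iff₀ hn]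
    exact hΔθ
  have g7 : θ / 8 * O ≤ (θ - Δ / n) / 4 * O :=
    mul_le_mul_of_nonneg_right (by linarith) hO0
  have g9 : K * s * O ≤ θ / 8 * O := mul_le_mul_of_nonneg_right (by linarith) hO0
  have g11 : K * s * Ls G e ≤ 1 / 100 * Ls G e := mul_le_mul_of_nonneg_right (by linarith) hL0
  have g12 : K * θ * X ≤ 1 / 8 * X := mul_le_mul_of_nonneg_right (by linarith) g3
  have g13 : K * (s * O + s * Ls G e + θ * X) = K * s * O + K * s * Ls G e + K * θ * X := by
    ring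
  rw [g13] at g2
  linarith

end Pool.Agent.Work.MP_1ce445_plt
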