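import Pool.Agent.Work.MP_1ce445_plt.Interface2

/-!
Block UNI: combination of UN1 and ADV.
-/

namespace Pool.Agent.Work.MP_1ce445_plt

open Finset Pool.Agent.Work.MP_1ce445_co_56 Pool.Agent.Work.MP_1ce445_lin
  Pool.Agent.Work.MP_1ce445_fx Pool.Agent.Work.MP_1ce445_stm

theorem UNI_tau {n : ℕ} (k : ℕ) {M : ℕ} (hn : (0 : ℝ) < n) (hM : (0 : ℝ) < M) :
    M * tt n k M / n = tau n k M := by
  unfold tt tau
  field_simp
  ring

theorem stmt_UNI : Stmt_UN1 → Stmt_ADV → Stmt_UNI := by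
  intro h1 h2 M hM2
  obtain ⟨K₁, θ₁, hK₁, hθ₁, h1⟩ := h1 M hM2
  obtain ⟨K₂, θ₂, hK₂, hθ₂, h2⟩ := h2 M hM2
  have hMr : (2 : ℝ) ≤ M := by exact_mod_cast hM2
  have hM0 : (0 : ℝ) < M := by linarith
  obtain ⟨θ, hθ⟩ : ∃ θ : ℝ, θ = min (min θ₁ θ₂) (1 / (12 * (M : ℝ) ^ 2)) := ⟨_, rfl⟩
  have hθ0 : 0 < θ := by rw [hθ]; exact lt_min (lt_min hθ₁ hθ₂) (by positivity)
  have hθa : θ ≤ θ₁ := by rw [hθ]; exact le_trans (min_le_left _ _) (min_le_left _ _)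
  have hθb : θ ≤ θ₂ := by rw [hθ]; exact le_trans (min_le_left _ _) (min_le_right _ _)
  have hθc : θ ≤ 1 / (12 * (M : ℝ) ^ 2) := by rw [hθ]; exact min_le_right _ _
  have hθd : 12 * (M : ℝ) ^ 2 * θ ≤ 1 := by
    have h3 : 12 * (M : ℝ) ^ 2 * θ ≤ 12 * (M : ℝ) ^ 2 * (1 / (12 * (M : ℝ) ^ 2)) :=
      mul_le_mul_of_nonneg_left hθc (by positivity)
    have h4 : 12 * (M : ℝ) ^ 2 * (1 / (12 * (M : ℝ) ^ 2)) = 1 := by
      field_simp
    linarith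
  obtain ⟨s₁, hs₁, h1⟩ := h1 θ hθ0 hθa
  obtain ⟨s₂, hs₂, h2⟩ := h2 θ hθ0 hθb
  obtain ⟨s, hs⟩ : ∃ s : ℝ, s = min (min s₁ s₂) (1 / (4 * (M : ℝ))) := ⟨_, rfl⟩
  have hs0 : 0 < s := by rw [hs]; exact lt_min (lt_min hs₁ hs₂) (by positivity)
  have hsa : s ≤ s₁ := by rw [hs]; exact le_trans (min_le_left _ _) (min_le_left _ _)
  have hsb : s ≤ s₂ := by rw [hs]; exact le_trans (min_le_left _ _) (min_le_right _ _)
  have hsc : s ≤ 1 / (4 * (M : ℝ)) := by rw [hs]; exact min_le_right _ _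
  have hsd : 4 * (M : ℝ) * s ≤ 1 := by
    have h3 : 4 * (M : ℝ) * s ≤ 4 * (M : ℝ) * (1 / (4 * (M : ℝ))) :=
      mul_le_mul_of_nonneg_left hsc (by positivity)
    have h4 : 4 * (M : ℝ) * (1 / (4 * (M : ℝ))) = 1 := by
      field_simp
    linarith
  have hθ1 : θ ≤ 1 := by nlinarith [hθd, hMr, hθ0]
  have hK₂' : (0 : ℝ) < 4 * K₂ + 4 := by linarith
  refine ⟨θ, s, 2 * K₁ * (2 * K₂ + 2), θ / (4 * K₂ + 4), hθ0, hθd, hs0, hsd, by nlinarith,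
    by positivity, ?_⟩
  intro n k r G e hS hr hτ1 hτ2
  have hn : (0 : ℝ) < n := by exact_mod_cast hS.pos
  have hn' : 0 < n := hS.pos
  have hτ : M * tt n k M / n = tau n k M := UNI_tau k hn hM0
  obtain ⟨τ, hτd⟩ : ∃ τ : ℝ, τ = tau n k M := ⟨_, rfl⟩
  rw [← hτd] at hτ1 hτ2 hτ ⊢
  have hτ0 : 0 < τ := lt_of_lt_of_le (by positivity) hτ1
  have hτ3 : τ ≤ 1 := by
    refine hτ2.trans ?_
    rw [div_le_one hK₂']
    linarith
  have htt : tt n k M ^ 2 / n = τ ^ 2 * n / M ^ 2 := by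
    have h3 : tt n k M = τ * n / M := by
      rw [← hτ]
      field_simp
    rw [h3]
    field_simp
  have htt2 : tt n k M ^ 2 / n ≤ τ ^ 2 * n := by
    rw [htt]
    apply div_le_self (by positivity)
    nlinarith
  have hLs : (0 : ℝ) ≤ Ls G e := Nat.cast_nonneg _
  -- the maximum
  haveI : Nonempty (Fin M) := ⟨⟨0, by omega⟩⟩
  haveI : Nonempty (Fin n) := ⟨⟨0, hn'⟩⟩
  obtain ⟨p, _, hp⟩ := Finset.exists_max_image (univ : Finset (Fin M × Fin n))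
    (fun p => MP_1ce445_fx.dg (G (e p.1)) (low (G (e p.1)) θ) p.2) univ_nonempty
  obtain ⟨Δ, hΔ⟩ : ∃ Δ : ℕ, Δ = MP_1ce445_fx.dg (G (e p.1)) (low (G (e p.1)) θ) p.2 := ⟨_, rfl⟩
  have hΔ1 : ∀ i v, MP_1ce445_fx.dg (G (e i)) (low (G (e i)) θ) v ≤ Δ := by
    intro i v
    have := hp (i, v) (mem_univ _)
    rw [hΔ]
    exact this
  have hΔ2 : ∃ i v, MP_1ce445_fx.dg (G (e i)) (low (G (e i)) θ) v = Δ := ⟨p.1, p.2, hΔ.symm⟩
  have hC0 : 0 ≤ 2 * K₁ * (2 * K₂ + 2) * τ := by positivity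
  have hrr : (2 : ℝ) ≤ r := by exact_mod_cast hr
  by_cases hcase : 2 ≤ Δ ∧ K₂ * (tt n k M ^ 2 / n) + 1 ≤ (Δ : ℝ) / 2
  · have h3 := h2 s hs0 hsb n k Δ G e hS hcase.1 hΔ1 hΔ2
    have h4 : 0 ≤ n * (2 * K₁ * (2 * K₂ + 2) * τ) ^ r := by positivity
    have h5 : (M : ℝ) * 2 ≤ M * r := mul_le_mul_of_nonneg_left hrr hM0.le
    linarith [hcase.2]
  · have hΔ3 : (Δ : ℝ) ≤ 2 * K₂ * (tt n k M ^ 2 / n) + 2 := by
      have h6 : 0 ≤ tt n k M ^ 2 / n := by positivity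
      by_cases h7 : 2 ≤ Δ
      · have h8 : ¬ K₂ * (tt n k M ^ 2 / n) + 1 ≤ (Δ : ℝ) / 2 := fun h9 => hcase ⟨h7, h9⟩
        push Not at h8
        linarith
      · have h8 : Δ ≤ 2 := by omega
        have h9 : (Δ : ℝ) ≤ 2 := by exact_mod_cast h8
        have h10 : 0 ≤ 2 * K₂ * (tt n k M ^ 2 / n) := by positivity
        linarith
    have hΔ4 : (Δ : ℝ) / n ≤ (2 * K₂ + 2) * τ := by
      rw [div_le_iff₀ hn]
      have h6 : 2 * K₂ * (tt n k M ^ 2 / n) ≤ 2 * K₂ * (τ ^ 2 * n) :=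
        mul_le_mul_of_nonneg_left htt2 (by linarith)
      have h7 : τ ^ 2 ≤ τ := by nlinarith
      have h8 : 2 * K₂ * (τ ^ 2 * n) ≤ 2 * K₂ * (τ * n) := by
        apply mul_le_mul_of_nonneg_left _ (by linarith)
        exact mul_le_mul_of_nonneg_right h7 hn.le
      have h9 : 1 ≤ τ * n := by
        rw [div_le_iff₀ hn] at hτ1
        exact hτ1
      nlinarith
    have hΔ5 : (2 * K₂ + 2) * τ ≤ θ / 2 := by
      rw [le_div_iff₀ hK₂'] at hτ2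
      linarith
    have hΔ6 : (Δ : ℝ) ≤ θ / 2 * n := by
      rw [div_le_iff₀ hn] at hΔ4
      exact hΔ4.trans (mul_le_mul_of_nonneg_right hΔ5 hn.le)
    have hΔ7 : Δ ≤ n := by
      have h6 : (Δ : ℝ) ≤ n := by
        refine hΔ6.trans ?_
        have h7 : θ / 2 * n ≤ 1 * n := mul_le_mul_of_nonneg_right (by linarith) hn.le
        linarith
      exact_mod_cast h6
    have h3 := h1 s hs0 hsa n k r Δ G e hS hr hΔ7 hΔ1 hΔ6
    rw [hτ] at h3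
    have hK₁0 : 0 ≤ K₁ := by linarith
    have h4 : (K₁ * τ) ^ r ≤ (K₁ * (2 * K₂ + 2) * τ) ^ r := by
      apply pow_le_pow_left₀ (by positivity)
      have h5 : K₁ * τ ≤ K₁ * τ * (2 * K₂ + 2) :=
        le_mul_of_one_le_right (by positivity) (by linarith)
      linarith
    have h5 : (K₁ * (Δ / n)) ^ r ≤ (K₁ * (2 * K₂ + 2) * τ) ^ r := by
      apply pow_le_pow_left₀ (by positivity)
      rw [mul_assoc]
      exact mul_le_mul_of_nonneg_left hΔ4 hK₁0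
    have h6 : 2 * (K₁ * (2 * K₂ + 2) * τ) ^ r ≤ (2 * K₁ * (2 * K₂ + 2) * τ) ^ r := by
      have h7 : 2 * K₁ * (2 * K₂ + 2) * τ = 2 * (K₁ * (2 * K₂ + 2) * τ) := by ring
      rw [h7, mul_pow 2]
      apply mul_le_mul_of_nonneg_right _ (by positivity)
      have h8 : (2 : ℝ) ^ 1 ≤ 2 ^ r := pow_le_pow_right₀ (by norm_num) (by omega)
      linarith
    have h7 : n * (K₁ * τ) ^ r + n * (K₁ * (Δ / n)) ^ r ≤
        n * (2 * K₁ * (2 * K₂ + 2) * τ) ^ r := by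
      rw [← mul_add]
      apply mul_le_mul_of_nonneg_left _ hn.le
      linarith
    linarith

end Pool.Agent.Work.MP_1ce445_plt
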