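import Pool.Agent.Work.MP_1ce445_plt.All
import Pool.Agent.Work.MP_1ce445_plt.Final
import Pool.Agent.Work.MP_1ce445_plt.ERU
import Pool.Agent.Work.MP_1ce445_plt.ADV
import Pool.Agent.Work.MP_1ce445_plt.UN1
import Pool.Agent.Work.MP_1ce445_plt.UNI
import Pool.Agent.Work.MP_1ce445_plt.UPU
import Pool.Agent.Work.MP_1ce445_plt.LBU
import Pool.Agent.Work.MP_1ce445_plt.SLU
import Pool.Agent.Work.MP_1ce445_plt.FPU

/-!
Assembly of the plateau theorem.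
-/

namespace Pool.Agent.Work.MP_1ce445_plt

open Finset Pool.Agent.Work.MP_1ce445_co_56 Pool.Agent.Work.MP_1ce445_lin
  Pool.Agent.Work.MP_1ce445_fx Pool.Agent.Work.MP_1ce445_stm

theorem h_ERU : Stmt_ERU := stmt_ERU h_EMO h_DMO h_XBD
theorem h_UN1 : Stmt_UN1 := stmt_UN1 h_SUR h_GAI h_ERU
theorem h_ADV : Stmt_ADV := stmt_ADV h_SUR h_GAI h_XBD h_ERS
theorem h_UNI : Stmt_UNI := stmt_UNI h_UN1 h_ADV
theorem h_UPU : Stmt_UPU := stmt_UPU stmt_PRR h_SB2 h_UNI h_UPP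
theorem h_LBU : Stmt_LBU := stmt_LBU stmt_RW1 stmt_RW2 h_GRD
theorem h_SLU : Stmt_SLU := stmt_SLU h_LBU stmt_SCR stmt_GS1 h_GS2 h_GS3
theorem h_FPU : Stmt_FPU := stmt_FPU h_UPU h_SLU

/-- The plateau theorem. -/
theorem h_PLA : Stmt_PLA := stmt_PLA h_FPU h_FIR h_FI2

end Pool.Agent.Work.MP_1ce445_plt
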